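import Pool.Agent.Helper44.Sub.Defs

set_option autoImplicit false

namespace Pool.Agent.Helper44.Sub

/-- B11 (proper colourings of Cayley graphs). -/
theorem colG (G : Type) [Group G] [Countable G] (E : Finset G) (hE : (1 : G) ∉ E) :
    ∃ (q : ℕ) (c : G → Fin q), ∀ g, ∀ s ∈ E, c (g * s) ≠ c g := by
  classical
  obtain ⟨e, he⟩ := exists_injective_nat G
  let nb : G → Finset G := fun g => E.image (fun s => g * s) ∪ E.image (fun s => g * s⁻¹)
  have hnb : ∀ g, (nb g).card ≤ 2 * E.card := by
    intro g
    calc (nb g).card ≤ (E.image (fun s => g * s)).card + (E.image (fun s => g * s⁻¹)).card :=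
          Finset.card_union_le _ _
      _ ≤ E.card + E.card := Nat.add_le_add Finset.card_image_le Finset.card_image_le
      _ = 2 * E.card := by ring
  -- the set of admissible colours
  let S : (g : G) → ((h : G) → e h < e g → ℕ) → Set ℕ := fun g rec =>
    {m | ∀ h (hh : e h < e g), h ∈ nb g → m ≠ rec h hh}
  have hS : ∀ g rec, ∃ m ∈ S g rec, m ≤ 2 * E.card := by
    intro g rec
    let T : Finset ℕ := (nb g).image (fun h => if hh : e h < e g then rec h hh else 0)
    have hT : T.card ≤ 2 * E.card := le_trans Finset.card_image_le (hnb g)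
    have : ∃ m ∈ Finset.range (2 * E.card + 1), m ∉ T := by
      by_contra hcon
      push Not at hcon
      have : (Finset.range (2 * E.card + 1)).card ≤ T.card := Finset.card_le_card hcon
      rw [Finset.card_range] at this
      omega
    obtain ⟨m, hm1, hm2⟩ := this
    refine ⟨m, ?_, by rw [Finset.mem_range] at hm1; omega⟩
    intro h hh hmem heq
    apply hm2
    refine Finset.mem_image.2 ⟨h, hmem, ?_⟩
    rw [dif_pos hh]; exact heq.symm
  have wf : WellFounded (fun h g : G => e h < e g) := InvImage.wf e Nat.lt_wfRel.wf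
  let c : G → ℕ := wf.fix (fun g rec => sInf (S g rec))
  have hc : ∀ g, c g = sInf (S g (fun h _ => c h)) := fun g => wf.fix_eq _ g
  have hc1 : ∀ g, c g ∈ S g (fun h _ => c h) := by
    intro g
    rw [hc g]
    obtain ⟨m, hm, _⟩ := hS g (fun h _ => c h)
    exact Nat.sInf_mem ⟨m, hm⟩
  have hc2 : ∀ g, c g < 2 * E.card + 1 := by
    intro g
    obtain ⟨m, hm, hm2⟩ := hS g (fun h _ => c h)
    rw [hc g]
    exact lt_of_le_of_lt (Nat.sInf_le hm) (by omega)
  refine ⟨2 * E.card + 1, fun g => ⟨c g, hc2 g⟩, ?_⟩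
  intro g s hs heq
  have heq' : c (g * s) = c g := congrArg Fin.val heq
  have hne : g * s ≠ g := by
    intro h
    apply hE
    have : s = 1 := by simpa using h
    rwa [this] at hs
  have hmem1 : g * s ∈ nb g :=
    Finset.mem_union_left _ (Finset.mem_image.2 ⟨s, hs, rfl⟩)
  have hmem2 : g ∈ nb (g * s) :=
    Finset.mem_union_right _ (Finset.mem_image.2 ⟨s, hs, by simp⟩)
  rcases lt_trichotomy (e (g * s)) (e g) with h | h | h
  · exact hc1 g _ h hmem1 heq'.symm
  · exact hne (he h)
  · exact hc1 (g * s) _ h hmem2 heq'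

end Pool.Agent.Helper44.Sub
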