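import Pool.Agent.Helper44.Sub.Defs

/-!
Commuting generators give a doubling group (MP_bdf835_lc, block B7).
-/

set_option autoImplicit false

namespace Pool.Agent.Helper44.Sub

/-- B7 (commuting generators give a doubling group). -/
theorem doubling_of_comm {Γ : Type} [Group Γ] (S : Set Γ) (hS : S.Finite)
    (h : ∀ a ∈ S, ∀ b ∈ S, a * b = b * a) : Doubling (Subgroup.closure S) := by
  classical
  let _ : CommGroup ↥(Subgroup.closure S) := Subgroup.closureCommGroupOfComm h
  have _ : Fintype ↥S := hS.fintype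
  let g : ↥S → ↥(Subgroup.closure S) := fun s => ⟨s.1, Subgroup.subset_closure s.2⟩
  let φ : (↥S → ℤ) → ↥(Subgroup.closure S) := fun n => ∏ s, (g s) ^ (n s)
  have φadd : ∀ n m, φ (n + m) = φ n * φ m := by
    intro n m
    simp only [φ, Pi.add_apply, zpow_add, Finset.prod_mul_distrib]
  have φneg : ∀ n, φ (-n) = (φ n)⁻¹ := by
    intro n
    simp only [φ, Pi.neg_apply, zpow_neg, Finset.prod_inv_distrib]
  have φzero : φ 0 = 1 := by simp [φ]
  have φsurj : ∀ x : Γ, x ∈ Subgroup.closure S → ∃ n, ((φ n : ↥(Subgroup.closure S)) : Γ) = x := by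
    intro x hx
    induction hx using Subgroup.closure_induction with
    | mem x hx =>
      refine ⟨Pi.single ⟨x, hx⟩ 1, ?_⟩
      have h1 : φ (Pi.single ⟨x, hx⟩ 1) = g ⟨x, hx⟩ := by
        simp only [φ]
        rw [Finset.prod_eq_single ⟨x, hx⟩]
        · simp
        · intro b _ hb
          rw [Pi.single_eq_of_ne hb, zpow_zero]
        · simp
      rw [h1]
    | one => exact ⟨0, by rw [φzero]; rfl⟩
    | mul x y _ _ hx hy =>
      obtain ⟨n, rfl⟩ := hx
      obtain ⟨m, rfl⟩ := hy
      exact ⟨n + m, by rw [φadd]; rfl⟩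
    | inv x _ hx =>
      obtain ⟨n, rfl⟩ := hx
      exact ⟨-n, by rw [φneg]; rfl⟩
  let box : ℕ → Finset (↥S → ℤ) := fun N => Fintype.piFinset (fun _ => Finset.Icc (-(N : ℤ)) N)
  have mem_box : ∀ N n, n ∈ box N ↔ ∀ s, |n s| ≤ N := by
    intro N n
    simp only [box, Fintype.mem_piFinset, Finset.mem_Icc, abs_le]
  let v : (↥S → ℤ) → Γ := fun n => ((φ n : ↥(Subgroup.closure S)) : Γ)
  have vadd : ∀ n m, v (n + m) = v n * v m := by
    intro n m
    simp only [v, φadd]
    rfl
  have vneg : ∀ n, v (-n) = (v n)⁻¹ := by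
    intro n
    simp only [v, φneg]
    rfl
  have vzero : v 0 = 1 := by
    simp only [v, φzero]
    rfl
  refine ⟨13 ^ Fintype.card ↥S, ?_⟩
  intro R hR hRM
  -- a large box contains R
  obtain ⟨N, hN1, hN⟩ : ∃ N : ℕ, 1 ≤ N ∧ ∀ x ∈ R, ∃ n ∈ box N, v n = x := by
    choose n hn using fun x : ↥R => φsurj x.1 (hRM x.2)
    have _ : Fintype ↥R := hR.fintype
    refine ⟨1 + Finset.univ.sup (fun x : ↥R => Finset.univ.sup (fun s => (n x s).natAbs)),
      by omega, ?_⟩
    intro x hx
    refine ⟨n ⟨x, hx⟩, ?_, hn ⟨x, hx⟩⟩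
    rw [mem_box]
    intro s
    have h1 : (n ⟨x, hx⟩ s).natAbs ≤ Finset.univ.sup (fun s => (n ⟨x, hx⟩ s).natAbs) :=
      Finset.le_sup (f := fun s => (n ⟨x, hx⟩ s).natAbs) (Finset.mem_univ s)
    have h2 : Finset.univ.sup (fun s => (n ⟨x, hx⟩ s).natAbs) ≤
        Finset.univ.sup (fun x : ↥R => Finset.univ.sup (fun s => (n x s).natAbs)) :=
      Finset.le_sup (f := fun x : ↥R => Finset.univ.sup (fun s => (n x s).natAbs))
        (Finset.mem_univ (⟨x, hx⟩ : ↥R))
    rw [Int.abs_eq_natAbs]
    exact_mod_cast (h1.trans h2).trans (Nat.le_add_left _ 1)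
  let B : Finset Γ := (box N).image v
  refine ⟨↑B, B.finite_toSet, ?_, ?_, ?_, ?_, ?_⟩
  · intro x hx
    obtain ⟨n, hn, rfl⟩ := hN x hx
    exact Finset.mem_coe.2 (Finset.mem_image_of_mem v hn)
  · refine Finset.mem_coe.2 (Finset.mem_image.2 ⟨0, ?_, vzero⟩)
    rw [mem_box]
    intro s
    simp
  · intro x hx
    obtain ⟨n, _, rfl⟩ := Finset.mem_image.1 (Finset.mem_coe.1 hx)
    exact (φ n).2
  · intro b hb
    obtain ⟨n, hn, rfl⟩ := Finset.mem_image.1 (Finset.mem_coe.1 hb)
    refine Finset.mem_coe.2 (Finset.mem_image.2 ⟨-n, ?_, vneg n⟩)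
    rw [mem_box] at hn ⊢
    intro s
    rw [Pi.neg_apply, abs_neg]
    exact hn s
  · -- the six-fold product set is covered by few translates
    let C : Finset Γ := ((box 6) ×ˢ B).image (fun p => v (fun s => (N : ℤ) * p.1 s) * p.2)
    have hC : C.card ≤ 13 ^ Fintype.card ↥S * B.card := by
      refine le_trans Finset.card_image_le ?_
      rw [Finset.card_product]
      have h1 : (box 6).card = 13 ^ Fintype.card ↥S := by
        simp only [box, Fintype.card_piFinset, Int.card_Icc]
        simp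
      rw [h1]
    have hsub : {g | ∃ a ∈ (↑B : Set Γ), ∃ b ∈ (↑B : Set Γ), ∃ c ∈ (↑B : Set Γ),
        ∃ d ∈ (↑B : Set Γ), ∃ e ∈ (↑B : Set Γ), ∃ f ∈ (↑B : Set Γ),
          g = a * b * c * d * e * f} ⊆ (↑C : Set Γ) := by
      rintro x ⟨a, ha, b, hb, c, hc, d, hd, e, he, f, hf, rfl⟩
      obtain ⟨na, hna, rfl⟩ := Finset.mem_image.1 (Finset.mem_coe.1 ha)
      obtain ⟨nb, hnb, rfl⟩ := Finset.mem_image.1 (Finset.mem_coe.1 hb)
      obtain ⟨nc, hnc, rfl⟩ := Finset.mem_image.1 (Finset.mem_coe.1 hc)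
      obtain ⟨nd, hnd, rfl⟩ := Finset.mem_image.1 (Finset.mem_coe.1 hd)
      obtain ⟨ne, hne, rfl⟩ := Finset.mem_image.1 (Finset.mem_coe.1 he)
      obtain ⟨nf, hnf, rfl⟩ := Finset.mem_image.1 (Finset.mem_coe.1 hf)
      rw [mem_box] at hna hnb hnc hnd hne hnf
      set n := na + nb + nc + nd + ne + nf with hn
      have hprod : v na * v nb * v nc * v nd * v ne * v nf = v n := by
        rw [hn, vadd, vadd, vadd, vadd, vadd]
      have hbound : ∀ s, |n s| ≤ 6 * N := by
        intro s
        simp only [hn, Pi.add_apply]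
        have h1 := abs_le.1 (hna s)
        have h2 := abs_le.1 (hnb s)
        have h3 := abs_le.1 (hnc s)
        have h4 := abs_le.1 (hnd s)
        have h5 := abs_le.1 (hne s)
        have h6 := abs_le.1 (hnf s)
        rw [abs_le]
        constructor <;> omega
      rw [hprod]
      have hN0 : (0 : ℤ) < N := by exact_mod_cast hN1
      refine Finset.mem_coe.2 (Finset.mem_image.2
        ⟨(fun s => n s / N, v (fun s => n s % N)), ?_, ?_⟩)
      · rw [Finset.mem_product]
        constructor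
        · rw [mem_box]
          intro s
          have h1 := abs_le.1 (hbound s)
          have h2 : -6 ≤ n s / N := by
            rw [Int.le_ediv_iff_mul_le hN0]
            linarith [h1.1]
          have h3 : n s / N ≤ 6 := by
            refine Int.ediv_le_of_le_mul hN0 ?_
            linarith [h1.2]
          rw [abs_le]
          exact ⟨by push_cast; exact h2, by push_cast; exact h3⟩
        · refine Finset.mem_image.2 ⟨_, ?_, rfl⟩
          rw [mem_box]
          intro s
          have h1 := Int.emod_nonneg (n s) hN0.ne'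
          have h2 := Int.emod_lt_of_pos (n s) hN0
          rw [abs_le]
          constructor <;> linarith
      · simp only
        rw [← vadd]
        congr 1
        funext s
        simp only [Pi.add_apply]
        exact Int.mul_ediv_add_emod (n s) N
    calc _ ≤ (↑C : Set Γ).ncard := Set.ncard_le_ncard hsub C.finite_toSet
      _ = C.card := Set.ncard_coe_finset C
      _ ≤ 13 ^ Fintype.card ↥S * B.card := hC
      _ = _ := by rw [Set.ncard_coe_finset]

end Pool.Agent.Helper44.Sub
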