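import Pool.Agent.Helper44.Sub.Defs

set_option autoImplicit false

/-!
Definitions for the version with sheets (MP_bdf835_lc, second stage).
-/

namespace Pool.Agent.Helper44.Sub

/-- Finite asymptotic dimension of the groupoid `J` modulo the normal subgroup `N` (`D` colours):
the leader maps are coherent modulo `N`, and invariant under the elements of `F ∩ N`. -/
def FAN {X G : Type} [MeasurableSpace X] [Group G] {A : RAct X G} (N : Subgroup G) (J : Gpd A)
    (D : ℕ) : Prop :=
  ∀ R F : Finset G, ∃ (T : Finset G) (c : X → Fin D) (χ : X → G),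
    MF c ∧ MF χ ∧ (∀ x, χ x ∈ T) ∧ (∀ x, J.rel x (χ x)) ∧
    (∀ x, ∀ r ∈ R, J.rel x r → c x = c (A.act x r) → (χ x)⁻¹ * r * χ (A.act x r) ∈ N) ∧
    ∀ x, ∀ ν ∈ F, ν ∈ N → J.rel x ν → c (A.act x ν) = c x ∧ χ (A.act x ν) = χ x

/-- The groupoid `J` does not see the `N`-moves inside `J`. -/
def InvN {X G : Type} [MeasurableSpace X] [Group G] {A : RAct X G} (N : Subgroup G)
    (J : Gpd A) : Prop :=
  ∀ x ν s, ν ∈ N → J.rel x ν → (J.rel x s ↔ J.rel (A.act x ν) s)

/-- Iterated connecting map. -/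
def Dl {X G : Type} [MeasurableSpace X] [Group G] (A : RAct X G) (δ : ℕ → X → G) : ℕ → X → G
  | 0, _ => 1
  | t + 1, x => Dl A δ t x * δ t (A.act x (Dl A δ t x))

/-- Property (H) modulo the subgroup `N`. -/
def HHN {X G : Type} [MeasurableSpace X] [Group G] (A : RAct X G) (N : Subgroup G) : Prop :=
  ∃ w : ℕ → X → G, (∀ m, MF (w m)) ∧ (∀ m, ∃ T : Finset G, ∀ x, w m x ∈ T) ∧
    ∀ x s, {m | (w m x)⁻¹ * s * w m (A.act x s) ∉ N}.Finite

/-- The orbit groupoid of a subgroup. -/
def orbG {X G : Type} [MeasurableSpace X] [Group G] (A : RAct X G) (M : Subgroup G) : Gpd A where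
  rel := fun _ s => s ∈ M
  one := fun _ => M.one_mem
  mul := fun _ _ _ h h' => M.mul_mem h h'
  inv := fun _ _ h => M.inv_mem h
  meas := fun s => MeasurableSet.const (s ∈ M)

theorem InvN_orbG {X G : Type} [MeasurableSpace X] [Group G] (A : RAct X G) (M N : Subgroup G) :
    InvN N (orbG A M) := fun _ _ _ _ _ => Iff.rfl

end Pool.Agent.Helper44.Sub
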