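import Pool.Agent.Helper44.Sub.Defs

set_option autoImplicit false

/-!
Block B14 of MP_bdf835_lc: the leader form of finite asymptotic dimension, the gluing over the
colour of a toast, and the equivariant maps to finite quotients of a finitely generated group.
-/

namespace Pool.Agent.Helper44.Sub

/-- Finite asymptotic dimension, standard form: for every finite `R` the group is coloured with `D`
colours such that every monochromatic `R`-chain moves by an element of a finite set `B`. -/
def FinAsdim (Q : Type) [Group Q] : Prop :=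
  ∃ D : ℕ, ∀ R : Finset Q, ∃ (B : Finset Q) (c : Q → Fin D), ∀ (n : ℕ) (p : ℕ → Q),
    (∀ i < n, (p i)⁻¹ * p (i + 1) ∈ R ∧ c (p (i + 1)) = c (p i)) → (p 0)⁻¹ * p n ∈ B

/-- A chain of a relation as a sequence. -/
theorem exists_seq_of_reflTransGen {Q : Type} (r : Q → Q → Prop) {a b : Q}
    (h : Relation.ReflTransGen r a b) :
    ∃ (n : ℕ) (p : ℕ → Q), p 0 = a ∧ p n = b ∧ ∀ i < n, r (p i) (p (i + 1)) := by
  induction h with
  | refl => exact ⟨0, fun _ => a, rfl, rfl, fun i hi => absurd hi (Nat.not_lt_zero i)⟩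
  | @tail b c hab hbc ih =>
    obtain ⟨n, p, h0, hn, hp⟩ := ih
    refine ⟨n + 1, fun i => if i ≤ n then p i else c, ?_, ?_, ?_⟩
    · simp [h0]
    · simp
    · intro i hi
      rcases Nat.lt_succ_iff_lt_or_eq.1 hi with h | h
      · have h1 : i ≤ n := h.le
        have h2 : i + 1 ≤ n := h
        simp only [h1, h2, if_true]
        exact hp i h
      · subst h
        simp only [le_refl, if_true]
        have h2 : ¬ (i + 1 ≤ i) := by omega
        simp only [h2, if_false]
        rw [hn]
        exact hbc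

/-- B14 -/
theorem GAs_of_FinAsdim {Q : Type} [Group Q] (h : FinAsdim Q) : ∃ D, GAs Q D := by
  classical
  obtain ⟨D, hD⟩ := h
  refine ⟨D, ?_⟩
  intro R
  obtain ⟨B, c, hB⟩ := hD (R ∪ R.image (fun r => r⁻¹))
  let step : Q → Q → Prop := fun q q' =>
    q⁻¹ * q' ∈ R ∪ R.image (fun r => r⁻¹) ∧ c q' = c q
  have hsymm : ∀ q q', step q q' → step q' q := by
    intro q q' hq
    refine ⟨?_, hq.2.symm⟩
    have h1 : q'⁻¹ * q = (q⁻¹ * q')⁻¹ := by group
    rw [h1]
    rcases Finset.mem_union.1 hq.1 with h2 | h2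
    · exact Finset.mem_union_right _ (Finset.mem_image_of_mem (fun r => r⁻¹) h2)
    · obtain ⟨r, hr, hr2⟩ := Finset.mem_image.1 h2
      rw [← hr2]
      simp only [inv_inv]
      exact Finset.mem_union_left _ hr
  have hchain : ∀ q q', Quot.mk step q = Quot.mk step q' → Relation.ReflTransGen step q q' := by
    intro q q' hqq
    have h1 : Relation.EqvGen step q q' := Quot.eqvGen_exact hqq
    induction h1 with
    | rel x y hxy => exact Relation.ReflTransGen.single hxy
    | refl x => exact Relation.ReflTransGen.refl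
    | symm x y hxy ih =>
      have h2 := ih (by exact hqq.symm)
      have h3 : Std.Symm step := ⟨fun a b hab => hsymm a b hab⟩
      exact (@Relation.ReflTransGen.stdSymm _ step h3).symm _ _ h2
    | trans x y z hxy hyz ih1 ih2 =>
      exact (ih1 (Quot.eqvGen_sound hxy)).trans (ih2 (Quot.eqvGen_sound hyz))
  refine ⟨B, c, fun q => q⁻¹ * (Quot.mk step q).out, ?_, ?_⟩
  · intro q
    have h1 : Quot.mk step q = Quot.mk step (Quot.mk step q).out := (Quot.out_eq _).symm
    obtain ⟨n, p, h0, hn, hp⟩ := exists_seq_of_reflTransGen step (hchain _ _ h1)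
    have h2 := hB n p (fun i hi => hp i hi)
    rw [h0, hn] at h2
    exact h2
  · intro q r hr hc
    have h1 : Quot.mk step q = Quot.mk step (q * r) := by
      apply Quot.sound
      refine ⟨?_, hc.symm⟩
      apply Finset.mem_union_left
      have h3 : q⁻¹ * (q * r) = r := by group
      rw [h3]
      exact hr
    change q⁻¹ * (Quot.mk step q).out = r * ((q * r)⁻¹ * (Quot.mk step (q * r)).out)
    rw [← h1]
    group

variable {X G : Type} [MeasurableSpace X] [Group G]

/-- Gluing over the colour (final step of Theorem T1). -/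
theorem HH_glue [Countable G] {A : RAct X G} (D : ℕ) (J : Fin D → ℕ → Gpd A)
    (hex : ∀ x, ∃ a, ∀ s s', ∃ t, (J a t).rel (A.act x s) s')
    (w : Fin D → ℕ → X → G) (hw1 : ∀ a m, MF (w a m))
    (hw2 : ∀ a m, ∃ T : Finset G, ∀ x, w a m x ∈ T)
    (hw3 : ∀ a x s, (∃ t, (J a t).rel x s) → {m | w a m x ≠ s * w a m (A.act x s)}.Finite) :
    HH A := by
  classical
  let P : Fin D → X → Prop := fun a x => ∀ s s', ∃ t, (J a t).rel (A.act x s) s'
  have hPinv : ∀ a x g, P a (A.act x g) ↔ P a x := by
    intro a x g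
    constructor
    · intro h s s'
      obtain ⟨t, ht⟩ := h (g⁻¹ * s) s'
      refine ⟨t, ?_⟩
      rw [A.mul] at ht
      simpa using ht
    · intro h s s'
      obtain ⟨t, ht⟩ := h (g * s) s'
      refine ⟨t, ?_⟩
      rw [A.mul]
      exact ht
  have hPm : ∀ a, MeasurableSet {x | P a x} := by
    intro a
    have h1 : {x | P a x} = ⋂ s : G, ⋂ s' : G, ⋃ t : ℕ,
        (fun x => A.act x s) ⁻¹' {y | (J a t).rel y s'} := by
      ext x
      simp only [P, Set.mem_ofPred_eq, Set.mem_iInter, Set.mem_iUnion, Set.mem_preimage]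
    rw [h1]
    exact MeasurableSet.iInter fun s => MeasurableSet.iInter fun s' =>
      MeasurableSet.iUnion fun t => A.meas s ((J a t).meas s')
  have hne : ∀ x, ∃ a : Fin D, P a x ∧ ∀ b : Fin D, b < a → ¬ P b x := by
    intro x
    have h1 : (Finset.univ.filter (fun a => P a x)).Nonempty := by
      obtain ⟨a, ha⟩ := hex x
      exact ⟨a, Finset.mem_filter.2 ⟨Finset.mem_univ _, ha⟩⟩
    refine ⟨(Finset.univ.filter (fun a => P a x)).min' h1, ?_, ?_⟩
    · exact (Finset.mem_filter.1 (Finset.min'_mem _ h1)).2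
    · intro b hb hPb
      have := Finset.min'_le (Finset.univ.filter (fun a => P a x)) b
        (Finset.mem_filter.2 ⟨Finset.mem_univ _, hPb⟩)
      exact absurd hb (not_lt.2 this)
  choose α hα1 hα2 using hne
  have huniq : ∀ x a, (P a x ∧ ∀ b : Fin D, b < a → ¬ P b x) → α x = a := by
    intro x a ⟨h1, h2⟩
    rcases lt_trichotomy (α x) a with h | h | h
    · exact absurd (hα1 x) (h2 _ h)
    · exact h
    · exact absurd h1 (hα2 x _ h)
  have hαinv : ∀ x g, α (A.act x g) = α x := by
    intro x g
    apply huniq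
    refine ⟨(hPinv _ _ _).2 (hα1 x), fun b hb h => hα2 x b hb ((hPinv _ _ _).1 h)⟩
  have hαm : ∀ a, MeasurableSet {x | α x = a} := by
    intro a
    have h1 : {x | α x = a} = {x | P a x} ∩ ⋂ b : Fin D, ⋂ _ : b < a, {x | P b x}ᶜ := by
      ext x
      simp only [Set.mem_ofPred_eq, Set.mem_inter_iff, Set.mem_iInter, Set.mem_compl_iff]
      constructor
      · intro h
        subst h
        exact ⟨hα1 x, hα2 x⟩
      · intro h
        exact huniq x a h
    rw [h1]
    exact (hPm a).inter (MeasurableSet.iInter fun b => MeasurableSet.iInter fun _ => (hPm b).compl)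
  refine ⟨fun m x => w (α x) m x, ?_, ?_, ?_⟩
  · intro m b
    have h1 : {x | w (α x) m x = b} = ⋃ a : Fin D, {x | α x = a} ∩ {x | w a m x = b} := by
      ext x
      simp only [Set.mem_ofPred_eq, Set.mem_iUnion, Set.mem_inter_iff]
      constructor
      · intro h
        exact ⟨α x, rfl, h⟩
      · rintro ⟨a, ha, h⟩
        rw [ha]
        exact h
    change MeasurableSet {x | w (α x) m x = b}
    rw [h1]
    exact MeasurableSet.iUnion fun a => (hαm a).inter (hw1 a m b)
  · intro m
    choose T hT using fun a => hw2 a m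
    refine ⟨Finset.univ.biUnion T, fun x => ?_⟩
    exact Finset.mem_biUnion.2 ⟨α x, Finset.mem_univ _, hT _ _⟩
  · intro x s
    have h1 : ∃ t, (J (α x) t).rel x s := by
      obtain ⟨t, ht⟩ := hα1 x 1 s
      rw [A.one] at ht
      exact ⟨t, ht⟩
    have h2 := hw3 (α x) x s h1
    refine h2.subset ?_
    intro m hm
    have hm' : w (α x) m x ≠ s * w (α (A.act x s)) m (A.act x s) := hm
    rw [hαinv] at hm'
    exact hm'

/-- Equivariant measurable maps to the finite quotients of a finitely generated group, for a rich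
action (final step of Theorem T2). -/
theorem exists_equivariant [Countable G] {A : RAct X G} (hr : Rich A) (hfg : Group.FG G)
    (K : Subgroup G) [K.Normal] (hK : K.FiniteIndex) :
    ∃ φ : X → G ⧸ K, MF φ ∧ ∀ x s, φ (A.act x s) = φ x * (s : G ⧸ K) := by
  classical
  obtain ⟨S, hS, hfin⟩ := Group.fg_iff.1 hfg
  have hfinQ : Finite (G ⧸ K) := Subgroup.finite_quotient_of_finiteIndex
  have hFt : Fintype (G ⧸ K) := Fintype.ofFinite _
  let e : Fin (Fintype.card (G ⧸ K)) ≃ G ⧸ K := (Fintype.equivFin (G ⧸ K)).symm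
  obtain ⟨v, hv, hv2⟩ := hr (Fintype.card (G ⧸ K)) (insert 1 hfin.toFinset)
    (fun f => ∀ s ∈ S, e (f s) = e (f 1) * (s : G ⧸ K))
    (by
      intro f f' hff hf s hs
      rw [← hff s (by simp [hs]), ← hff 1 (by simp)]
      exact hf s hs)
    ⟨fun g => e.symm (g : G ⧸ K), fun g s _ => by simp⟩
  refine ⟨fun x => e (v x), ?_, ?_⟩
  · intro b
    have h1 : {x | e (v x) = b} = {x | v x = e.symm b} := by
      ext x
      simp only [Set.mem_ofPred_eq]
      exact ⟨fun h => by rw [← h]; simp, fun h => by rw [h]; simp⟩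
    change MeasurableSet {x | e (v x) = b}
    rw [h1]
    exact hv _
  · have key : ∀ s ∈ Subgroup.closure S, ∀ x, e (v (A.act x s)) = e (v x) * (s : G ⧸ K) := by
      intro s hs
      refine Subgroup.closure_induction (p := fun s _ => ∀ x,
        e (v (A.act x s)) = e (v x) * (s : G ⧸ K)) ?_ ?_ ?_ ?_ hs
      · intro s hs x
        have h1 : e (v (A.act x s)) = e (v (A.act x 1)) * (s : G ⧸ K) := hv2 x s hs
        rw [A.one] at h1
        exact h1
      · intro x
        rw [A.one]
        simp
      · intro s t _ _ h1 h2 x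
        rw [← A.mul, h2, h1]
        simp [mul_assoc]
      · intro s _ h1 x
        have h2 := h1 (A.act x s⁻¹)
        rw [A.mul, inv_mul_cancel, A.one] at h2
        rw [h2]
        simp
    intro x s
    exact key s (by rw [hS]; exact Subgroup.mem_top s) x

end Pool.Agent.Helper44.Sub
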