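import Pool.Agent.Helper44.Sub.Defs

set_option autoImplicit false

/-!
Block B12: from property (H) of the shift action to hyperfiniteness.
-/

namespace Pool.Agent.Helper44.Sub

/-- B12 (assembly). -/
theorem hypF_of_HH {G : Type} [Group G] [Countable G] (K : Sh G)
    (h : @HH ↥K.1 G (borel ↥K.1) _ (shiftRAct K)) : HypF K := by
  classical
  obtain ⟨w, hw1, hw2, hw3⟩ := h
  change ∀ x s, {m | w m x ≠ s * w m (shiftAct K x s)}.Finite at hw3
  have hone : ∀ x, shiftAct K x 1 = x := by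
    intro x; apply Subtype.ext; funext h; simp [shiftAct]
  have hmul : ∀ x s t, shiftAct K (shiftAct K x s) t = shiftAct K x (s * t) := by
    intro x s t; apply Subtype.ext; funext h; simp [shiftAct, mul_assoc]
  have hcont : ∀ s, Continuous (fun x => shiftAct K x s) := by
    intro s
    refine Continuous.subtype_mk ?_ _
    refine continuous_pi fun h => ?_
    exact (continuous_apply (s * h)).comp continuous_subtype_val
  refine ⟨fun n => {p | ∃ s, p.2 = shiftAct K p.1 s ∧ ∀ m, n ≤ m → w m p.1 = s * w m p.2},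
    ?_, ?_, ?_, ?_, ?_, ?_, ?_⟩
  · intro n
    let _ : MeasurableSpace ↥K.1 := borel ↥K.1
    let _ : MeasurableSpace (↥K.1 × ↥K.1) := borel (↥K.1 × ↥K.1)
    have : BorelSpace ↥K.1 := ⟨rfl⟩
    have : BorelSpace (↥K.1 × ↥K.1) := ⟨rfl⟩
    have h1 : Measurable (Prod.fst : ↥K.1 × ↥K.1 → ↥K.1) := continuous_fst.measurable
    have h2 : Measurable (Prod.snd : ↥K.1 × ↥K.1 → ↥K.1) := continuous_snd.measurable
    have key : {p : ↥K.1 × ↥K.1 | ∃ s, p.2 = shiftAct K p.1 s ∧
        ∀ m, n ≤ m → w m p.1 = s * w m p.2} =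
        ⋃ s : G, ({p : ↥K.1 × ↥K.1 | p.2 = shiftAct K p.1 s} ∩
          ⋂ m : ℕ, ⋂ _ : n ≤ m, ⋃ b : G,
            ({p : ↥K.1 × ↥K.1 | w m p.1 = s * b} ∩ {p : ↥K.1 × ↥K.1 | w m p.2 = b})) := by
      ext p
      simp only [Set.mem_ofPred_eq, Set.mem_iUnion, Set.mem_inter_iff, Set.mem_iInter]
      constructor
      · rintro ⟨s, hs, hm⟩
        exact ⟨s, hs, fun m hnm => ⟨w m p.2, hm m hnm, rfl⟩⟩
      · rintro ⟨s, hs, hm⟩
        refine ⟨s, hs, fun m hnm => ?_⟩
        obtain ⟨b, hb1, hb2⟩ := hm m hnm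
        rw [hb1, hb2]
    show MeasurableSet {p : ↥K.1 × ↥K.1 | ∃ s, p.2 = shiftAct K p.1 s ∧
        ∀ m, n ≤ m → w m p.1 = s * w m p.2}
    rw [key]
    refine MeasurableSet.iUnion fun s => MeasurableSet.inter ?_ ?_
    · have : IsClosed {p : ↥K.1 × ↥K.1 | p.2 = shiftAct K p.1 s} :=
        isClosed_eq continuous_snd ((hcont s).comp continuous_fst)
      exact this.measurableSet
    · refine MeasurableSet.iInter fun m => MeasurableSet.iInter fun _ =>
        MeasurableSet.iUnion fun b => MeasurableSet.inter ?_ ?_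
      · exact h1 (hw1 m (s * b))
      · exact h2 (hw1 m b)
  · intro n x
    exact ⟨1, (hone x).symm, fun m _ => by simp⟩
  · rintro n x y ⟨s, hs, hm⟩
    simp only at hs hm
    refine ⟨s⁻¹, ?_, fun m hnm => ?_⟩
    · show x = shiftAct K y s⁻¹
      rw [hs, hmul, mul_inv_cancel, hone]
    · show w m y = s⁻¹ * w m x
      rw [hm m hnm, inv_mul_cancel_left]
  · rintro n x y z ⟨s, hs, hm⟩ ⟨t, ht, hm'⟩
    simp only at hs hm ht hm'
    refine ⟨s * t, ?_, fun m hnm => ?_⟩
    · show z = shiftAct K x (s * t)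
      rw [ht, hs, hmul]
    · show w m x = s * t * w m z
      rw [hm m hnm, hm' m hnm, mul_assoc]
  · intro n x
    obtain ⟨T, hT⟩ := hw2 n
    have hfin : ((fun t : G => shiftAct K x (w n x * t⁻¹)) '' (T : Set G)).Finite :=
      T.finite_toSet.image _
    refine hfin.subset ?_
    rintro y ⟨s, hs, hm⟩
    simp only at hs hm
    refine ⟨w n y, hT y, ?_⟩
    have h1 := hm n le_rfl
    show shiftAct K x (w n x * (w n y)⁻¹) = y
    rw [h1, mul_inv_cancel_right, ← hs]
  · rintro n p ⟨s, hs, hm⟩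
    exact ⟨s, hs, fun m hnm => hm m (Nat.le_of_succ_le hnm)⟩
  · intro x y
    constructor
    · rintro ⟨n, s, hs, -⟩
      simp only at hs
      refine ⟨s⁻¹, ?_⟩
      rw [hs]
      funext h
      simp [shiftAct]
    · rintro ⟨g, hg⟩
      have hy : y = shiftAct K x g⁻¹ := Subtype.ext hg
      have hf := hw3 x g⁻¹
      obtain ⟨n, hn⟩ := hf.bddAbove
      refine ⟨n + 1, g⁻¹, hy, fun m hnm => ?_⟩
      show w m x = g⁻¹ * w m y
      by_contra hne
      rw [hy] at hne
      have := hn hne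
      omega

end Pool.Agent.Helper44.Sub
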