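import Pool.Agent.Helper44.Sub.B9

set_option autoImplicit false

namespace Pool.Agent.Helper44.Sub

open Filter Topology

/-- B10 (generic subshifts are rich). -/
theorem rich_residual (G : Type) [Group G] [Countable G] :
    {K : Sh G | @Rich ↥K.1 G (borel ↥K.1) _ (shiftRAct K)} ∈ @residual (Sh G) (vietoris G) := by
  classical
  let _σ : TopologicalSpace (Sh G) := vietoris G
  -- the local constraint defined by a set of patterns
  let Qp : (k : ℕ) → (E : Finset G) → Set (↥E → Fin k) → (G → Fin k) → Prop :=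
    fun k E P f => (fun s : ↥E => f s.1) ∈ P
  have hQp : ∀ k E P (f f' : G → Fin k), (∀ s ∈ E, f s = f' s) → Qp k E P f → Qp k E P f' := by
    intro k E P f f' hff hf
    have : (fun s : ↥E => f' s.1) = fun s : ↥E => f s.1 := by
      funext s; exact (hff s.1 s.2).symm
    show (fun s : ↥E => f' s.1) ∈ P
    rw [this]; exact hf
  have main : ∀ᶠ K : Sh G in residual (Sh G), ∀ (k : ℕ) (E : Finset G) (P : Set (↥E → Fin k)),
      (∃ c : G → Fin k, ∀ g, Qp k E P (fun s => c (g * s))) →
      ∃ v : ↥K.1 → Fin k, Continuous v ∧ ∀ x, Qp k E P (fun s => v (shiftAct K x s)) := by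
    rw [eventually_countable_forall]
    intro k
    rw [eventually_countable_forall]
    intro E
    have hcount : Countable (Set (↥E → Fin k)) := Finite.to_countable
    rw [eventually_countable_forall]
    intro P
    by_cases hc : ∃ c : G → Fin k, ∀ g, Qp k E P (fun s => c (g * s))
    · obtain ⟨c, hc'⟩ := hc
      have := gen_lcl G k E (Qp k E P) (hQp k E P) c hc'
      filter_upwards [this] with K hK _
      exact hK
    · exact Eventually.of_forall fun K h => absurd h hc
  refine Filter.mem_of_superset main ?_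
  intro K hK
  show @Rich ↥K.1 G (borel ↥K.1) _ (shiftRAct K)
  intro k E Q hQ hsol
  let P : Set (↥E → Fin k) := {p | ∃ f : G → Fin k, Q f ∧ ∀ s : ↥E, f s.1 = p s}
  have hP1 : ∀ f, Q f → Qp k E P f := fun f hf => ⟨f, hf, fun _ => rfl⟩
  have hP2 : ∀ f, Qp k E P f → Q f := by
    rintro f ⟨f', hf', hff⟩
    exact hQ f' f (fun s hs => hff ⟨s, hs⟩) hf'
  obtain ⟨c, hc⟩ := hsol
  obtain ⟨v, hv, hvQ⟩ := hK k E P ⟨c, fun g => hP1 _ (hc g)⟩
  refine ⟨v, ?_, fun x => hP2 _ (hvQ x)⟩
  intro b
  have : IsOpen (v ⁻¹' {b}) := (isOpen_discrete {b}).preimage hv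
  exact MeasurableSpace.measurableSet_generateFrom this

end Pool.Agent.Helper44.Sub
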