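import Pool.Agent.Helper44.Sub.Defs

set_option autoImplicit false

namespace Pool.Agent.Helper44.Sub

open Filter Topology

/-- the injection of the alphabet into the unit interval -/
noncomputable def icode (k : ℕ) (i : Fin k) : unitInterval :=
  ⟨1 / ((i : ℝ) + 1), by positivity, by
    rw [div_le_one (by positivity)]
    have : (0 : ℝ) ≤ (i : ℝ) := by positivity
    linarith⟩

theorem icode_inj (k : ℕ) : Function.Injective (icode k) := by
  intro i j h
  have h1 : 1 / ((i : ℝ) + 1) = 1 / ((j : ℝ) + 1) := congrArg Subtype.val h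
  have h2 : ((i : ℝ) + 1) = ((j : ℝ) + 1) := by
    have := congrArg (fun t : ℝ => 1 / t) h1
    simpa using this
  have h3 : (i : ℝ) = (j : ℝ) := by linarith
  exact Fin.ext (by exact_mod_cast h3)

/-- replace the `n`-th coordinate of `x` by the code of `y` -/
noncomputable def repl {G : Type} (k : ℕ) (n : ℕ) (x : G → ℕ → unitInterval) (y : G → Fin k) :
    G → ℕ → unitInterval :=
  fun h m => if m = n then icode k (y h) else x h m

theorem repl_cont {G : Type} (k n : ℕ) :
    Continuous (fun p : (G → ℕ → unitInterval) × (G → Fin k) => repl k n p.1 p.2) := by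
  refine continuous_pi fun h => continuous_pi fun m => ?_
  unfold repl
  by_cases hm : m = n
  · simp only [hm, if_true]
    have h1 : Continuous (icode k) := continuous_of_discreteTopology
    exact h1.comp ((continuous_apply h).comp continuous_snd)
  · simp only [hm, if_false]
    exact (continuous_apply m).comp ((continuous_apply h).comp continuous_fst)

theorem repl_tendsto {G : Type} (k : ℕ) :
    Tendsto (fun p : ℕ × ((G → ℕ → unitInterval) × (G → Fin k)) =>
      (p.2.1, repl k p.1 p.2.1 p.2.2)) (atTop ×ˢ 𝓟 Set.univ)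
      (uniformity (G → ℕ → unitInterval)) := by
  rw [Pi.uniformity, tendsto_iInf]
  intro h
  rw [tendsto_comap_iff, Pi.uniformity, tendsto_iInf]
  intro m
  rw [tendsto_comap_iff]
  intro V hV
  rw [mem_map]
  have : ∀ᶠ p : ℕ × ((G → ℕ → unitInterval) × (G → Fin k)) in (atTop ×ˢ 𝓟 Set.univ),
      m < p.1 := by
    have := (eventually_gt_atTop m)
    exact tendsto_fst.eventually this
  filter_upwards [this] with p hp
  have hne : m ≠ p.1 := ne_of_lt hp
  simp only [Set.mem_preimage, Function.comp_apply, repl, hne, if_false]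
  exact refl_mem_uniformity hV

theorem repl_unif {G : Type} (k : ℕ) {V : Set ((G → ℕ → unitInterval) × (G → ℕ → unitInterval))}
    (hV : V ∈ uniformity (G → ℕ → unitInterval)) :
    ∀ᶠ n in atTop, ∀ x y, (x, repl k n x y) ∈ V := by
  have h := (repl_tendsto (G := G) k).eventually hV
  rw [Filter.eventually_prod_principal_iff] at h
  filter_upwards [h] with n hn x y
  exact hn (x, y) (Set.mem_univ _)

/-- the set of solutions of the local constraint on the group -/
def sols {G : Type} [Group G] {k : ℕ} (Q : (G → Fin k) → Prop) : Set (G → Fin k) :=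
  {y | ∀ g : G, Q (fun s => y (g * s))}

theorem isOpen_loc {G : Type} {k : ℕ} (E : Finset G)
    (Q : (G → Fin k) → Prop) (hQ : ∀ f f' : G → Fin k, (∀ s ∈ E, f s = f' s) → Q f → Q f') :
    IsOpen {f | Q f} := by
  rw [isOpen_iff_mem_nhds]
  intro f hf
  have : ∀ᶠ f' in 𝓝 f, ∀ s ∈ E, f s = f' s := by
    rw [Filter.eventually_all_finset]
    intro s _
    have h1 : Tendsto (fun f' : G → Fin k => f' s) (𝓝 f) (𝓝 (f s)) :=
      (continuous_apply s).continuousAt
    have h2 : {f s} ∈ 𝓝 (f s) := by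
      rw [nhds_discrete]; exact Set.mem_singleton _
    filter_upwards [h1 h2] with f' hf'
    exact hf'.symm
  filter_upwards [this] with f' hf'
  exact hQ f f' hf' hf

theorem isClosed_loc {G : Type} {k : ℕ} (E : Finset G)
    (Q : (G → Fin k) → Prop) (hQ : ∀ f f' : G → Fin k, (∀ s ∈ E, f s = f' s) → Q f → Q f') :
    IsClosed {f | Q f} := by
  have h : IsOpen {f | ¬ Q f} := by
    refine isOpen_loc E (fun f => ¬ Q f) ?_
    intro f f' hff hf hf'
    exact hf (hQ f' f (fun s hs => (hff s hs).symm) hf')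
  rw [← isOpen_compl_iff]
  exact h

theorem isClosed_sols {G : Type} [Group G] {k : ℕ} (E : Finset G)
    (Q : (G → Fin k) → Prop) (hQ : ∀ f f' : G → Fin k, (∀ s ∈ E, f s = f' s) → Q f → Q f') :
    IsClosed (sols Q) := by
  unfold sols
  rw [Set.ofPred_forall]
  refine isClosed_iInter fun g => ?_
  have h1 : Continuous (fun y : G → Fin k => (fun s => y (g * s))) :=
    continuous_pi fun s => continuous_apply (g * s)
  exact (isClosed_loc E Q hQ).preimage h1

/-- the modified subshift -/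
noncomputable def modSh {G : Type} [Group G] {k : ℕ} (E : Finset G)
    (Q : (G → Fin k) → Prop) (hQ : ∀ f f' : G → Fin k, (∀ s ∈ E, f s = f' s) → Q f → Q f')
    (c : G → Fin k) (hc : ∀ g, Q (fun s => c (g * s))) (K : Sh G) (n : ℕ) : Sh G :=
  ⟨(fun p : (G → ℕ → unitInterval) × (G → Fin k) => repl k n p.1 p.2) '' (K.1 ×ˢ sols Q), by
    obtain ⟨x, hx⟩ := K.2.1
    exact ⟨_, (x, c), ⟨hx, hc⟩, rfl⟩, by
    apply IsCompact.isClosed
    apply IsCompact.image _ (repl_cont k n)
    exact K.2.2.1.isCompact.prod (isClosed_sols E Q hQ).isCompact, by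
    rintro g _ ⟨⟨x, y⟩, ⟨hx, hy⟩, rfl⟩
    refine ⟨(fun h => x (g⁻¹ * h), fun h => y (g⁻¹ * h)), ⟨K.2.2.2 g x hx, ?_⟩, ?_⟩
    · intro g'
      have := hy (g⁻¹ * g')
      simpa [mul_assoc] using this
    · rfl⟩

theorem modSh_mem {G : Type} [Group G] {k : ℕ} (E : Finset G)
    (Q : (G → Fin k) → Prop) (hQ : ∀ f f' : G → Fin k, (∀ s ∈ E, f s = f' s) → Q f → Q f')
    (c : G → Fin k) (hc : ∀ g, Q (fun s => c (g * s))) (K : Sh G) (n : ℕ) :
    ∃ v : ↥(modSh E Q hQ c hc K n).1 → Fin k, Continuous v ∧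
      ∀ x, Q (fun s => v (shiftAct (modSh E Q hQ c hc K n) x s)) := by
  classical
  set K' := modSh E Q hQ c hc K n with hK'
  have key : ∀ x : ↥K'.1, ∃ y : G → Fin k, y ∈ sols Q ∧ ∀ h, x.1 h n = icode k (y h) := by
    rintro ⟨x, hx⟩
    obtain ⟨⟨x0, y⟩, ⟨_, hy⟩, rfl⟩ := hx
    exact ⟨y, hy, fun h => by simp [repl]⟩
  choose y hy1 hy2 using key
  refine ⟨fun x => y x 1, ?_, ?_⟩
  · have hemb : IsEmbedding (icode k) :=
      (IsClosedEmbedding.of_continuous_injective_isClosedMap continuous_of_discreteTopology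
        (icode_inj k)
        (fun s _ => (Set.toFinite _).isClosed)).isEmbedding
    rw [hemb.continuous_iff]
    have : (icode k ∘ fun x => y x 1) = fun x : ↥K'.1 => x.1 1 n := by
      funext x
      simp [hy2]
    rw [this]
    exact (continuous_apply n).comp ((continuous_apply (1 : G)).comp continuous_subtype_val)
  · intro x
    have h1 : ∀ s, y (shiftAct K' x s) 1 = y x s := by
      intro s
      apply icode_inj k
      rw [← hy2, ← hy2]
      simp [shiftAct]
    simp only [h1]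
    have := hy1 x 1
    simpa using this

/-- the topology on all sets -/
@[reducible] def vset (G : Type) : TopologicalSpace (Set (G → ℕ → unitInterval)) :=
  TopologicalSpace.generateFrom
      ({S : Set (Set (G → ℕ → unitInterval)) |
          ∃ U : Set (G → ℕ → unitInterval), IsOpen U ∧ S = {K | K ⊆ U}} ∪
       {S : Set (Set (G → ℕ → unitInterval)) |
          ∃ U : Set (G → ℕ → unitInterval), IsOpen U ∧ S = {K | (K ∩ U).Nonempty}})

/-- density -/
theorem gen_lcl_dense (G : Type) [Group G] (k : ℕ) (E : Finset G)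
    (Q : (G → Fin k) → Prop) (hQ : ∀ f f' : G → Fin k, (∀ s ∈ E, f s = f' s) → Q f → Q f')
    (c : G → Fin k) (hc : ∀ g, Q (fun s => c (g * s))) :
    @Dense (Sh G) (vietoris G)
    {K : Sh G | ∃ v : ↥K.1 → Fin k, Continuous v ∧ ∀ x, Q (fun s => v (shiftAct K x s))} := by
  let _τ : TopologicalSpace (Set (G → ℕ → unitInterval)) := vset G
  let _σ : TopologicalSpace (Sh G) := vietoris G
  intro K
  refine mem_closure_of_tendsto (f := fun n => modSh E Q hQ c hc K n) (b := atTop) ?_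
    (Eventually.of_forall fun n => modSh_mem E Q hQ c hc K n)
  rw [nhds_induced, tendsto_comap_iff, TopologicalSpace.tendsto_nhds_generateFrom_iff]
  rintro S (⟨U, hU, rfl⟩ | ⟨U, hU, rfl⟩) hKS
  · have hKU : K.1 ⊆ U := hKS
    obtain ⟨V, hV, _, hV2⟩ := lebesgue_number_of_compact_open K.2.2.1.isCompact hU hKU
    filter_upwards [repl_unif k hV] with n hn
    show (modSh E Q hQ c hc K n).1 ⊆ U
    rintro _ ⟨⟨x, y⟩, ⟨hx, _⟩, rfl⟩
    exact hV2 x hx (hn x y)
  · obtain ⟨x, hx, hxU⟩ : (K.1 ∩ U).Nonempty := hKS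
    obtain ⟨V, hV, _, hV2⟩ := lebesgue_number_of_compact_open (isCompact_singleton (x := x)) hU
      (Set.singleton_subset_iff.2 hxU)
    filter_upwards [repl_unif k hV] with n hn
    show ((modSh E Q hQ c hc K n).1 ∩ U).Nonempty
    exact ⟨repl k n x c, ⟨(x, c), ⟨hx, hc⟩, rfl⟩, hV2 x rfl (hn x c)⟩

/-- openness -/
theorem gen_lcl_open (G : Type) [Group G] [Countable G] (k : ℕ) (E : Finset G)
    (Q : (G → Fin k) → Prop) (hQ : ∀ f f' : G → Fin k, (∀ s ∈ E, f s = f' s) → Q f → Q f') :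
    @IsOpen (Sh G) (vietoris G)
    {K : Sh G | ∃ v : ↥K.1 → Fin k, Continuous v ∧ ∀ x, Q (fun s => v (shiftAct K x s))} := by
  classical
  let _τ : TopologicalSpace (Set (G → ℕ → unitInterval)) := vset G
  let _σ : TopologicalSpace (Sh G) := vietoris G
  rw [isOpen_iff_forall_mem_open]
  rintro K ⟨v, hv, hvQ⟩
  -- extend `v` to a real function
  have hvr : Continuous (fun x : ↥K.1 => ((v x : ℕ) : ℝ)) :=
    (continuous_of_discreteTopology (f := fun i : Fin k => ((i : ℕ) : ℝ))).comp hv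
  obtain ⟨V, hV⟩ := ContinuousMap.exists_restrict_eq K.2.2.1
    (⟨fun x : ↥K.1 => ((v x : ℕ) : ℝ), hvr⟩ : C(↥K.1, ℝ))
  have hV' : ∀ x : ↥K.1, V x.1 = ((v x : ℕ) : ℝ) := fun x => congrArg (fun f => f x) hV
  obtain ⟨x0, hx0⟩ := K.2.1
  let i0 : Fin k := v ⟨x0, hx0⟩
  let w : (G → ℕ → unitInterval) → Fin k := fun x =>
    if h : ∃ i : Fin k, |V x - ((i : ℕ) : ℝ)| < 1 / 2 then h.choose else i0
  have huniq : ∀ (t : ℝ) (i j : Fin k), |t - ((i : ℕ) : ℝ)| < 1 / 2 → |t - ((j : ℕ) : ℝ)| < 1 / 2 →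
      i = j := by
    intro t i j hi hj
    have h1 : |((i : ℕ) : ℝ) - ((j : ℕ) : ℝ)| < 1 := by
      rw [abs_lt] at *
      constructor <;> linarith [hi.1, hi.2, hj.1, hj.2]
    apply Fin.ext
    have h2 : |(((i : ℕ) : ℤ) - ((j : ℕ) : ℤ) : ℤ)| < 1 := by
      exact_mod_cast h1
    have h3 : ((i : ℕ) : ℤ) - ((j : ℕ) : ℤ) = 0 := Int.abs_lt_one_iff.1 h2
    omega
  have hw : ∀ x (i : Fin k), |V x - ((i : ℕ) : ℝ)| < 1 / 2 → w x = i := by
    intro x i hi
    have hex : ∃ i : Fin k, |V x - ((i : ℕ) : ℝ)| < 1 / 2 := ⟨i, hi⟩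
    have : w x = hex.choose := dif_pos hex
    rw [this]
    exact huniq _ _ _ hex.choose_spec hi
  let O : Set (G → ℕ → unitInterval) := {x | ∃ i : Fin k, |V x - ((i : ℕ) : ℝ)| < 1 / 2}
  have hwO : ∀ x ∈ O, ∀ᶠ y in 𝓝 x, y ∈ O ∧ w y = w x := by
    rintro x ⟨i, hi⟩
    have h1 : Tendsto (fun y => |V y - ((i : ℕ) : ℝ)|) (𝓝 x) (𝓝 (|V x - ((i : ℕ) : ℝ)|)) := by
      have : Continuous (fun y => |V y - ((i : ℕ) : ℝ)|) := by fun_prop
      exact this.continuousAt
    filter_upwards [h1.eventually (gt_mem_nhds hi)] with y hy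
    exact ⟨⟨i, hy⟩, by rw [hw y i hy, hw x i hi]⟩
  have hsh : ∀ s : G, Continuous (fun (x : G → ℕ → unitInterval) => fun h => x (s * h)) := by
    intro s
    exact continuous_pi fun h => continuous_apply (s * h)
  let Ω : Set (G → ℕ → unitInterval) :=
    {x | x ∈ O ∧ (∀ s ∈ E, (fun h => x (s * h)) ∈ O) ∧ Q (fun s => w (fun h => x (s * h)))}
  have hΩ : IsOpen Ω := by
    rw [isOpen_iff_mem_nhds]
    rintro x ⟨hx1, hx2, hx3⟩
    have h1 : ∀ᶠ y in 𝓝 x, ∀ s ∈ E, ((fun h => y (s * h)) ∈ O ∧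
        w (fun h => y (s * h)) = w (fun h => x (s * h))) := by
      rw [Filter.eventually_all_finset]
      intro s hs
      exact (hsh s).continuousAt.eventually (hwO _ (hx2 s hs))
    filter_upwards [h1, hwO x hx1] with y hy1 hy2
    refine ⟨hy2.1, fun s hs => (hy1 s hs).1, ?_⟩
    exact hQ _ _ (fun s hs => (hy1 s hs).2.symm) hx3
  have hKO : ∀ x ∈ K.1, x ∈ O ∧ ∀ hx : x ∈ K.1, w x = v ⟨x, hx⟩ := by
    intro x hx
    have h1 : |V x - ((v ⟨x, hx⟩ : ℕ) : ℝ)| < 1 / 2 := by
      have := hV' ⟨x, hx⟩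
      simp only at this
      rw [this]; norm_num
    exact ⟨⟨_, h1⟩, fun _ => hw x _ h1⟩
  have hKΩ : K.1 ⊆ Ω := by
    intro x hx
    refine ⟨(hKO x hx).1, fun s _ => (hKO _ (shiftAct K ⟨x, hx⟩ s).2).1, ?_⟩
    have h2 : (fun s => w (fun h => x (s * h))) = fun s => v (shiftAct K ⟨x, hx⟩ s) := by
      funext s
      exact (hKO _ (shiftAct K ⟨x, hx⟩ s).2).2 (shiftAct K ⟨x, hx⟩ s).2
    rw [h2]
    exact hvQ ⟨x, hx⟩
  refine ⟨{K' : Sh G | K'.1 ⊆ Ω}, ?_, ?_, hKΩ⟩
  · intro K' hK'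
    refine ⟨fun x => w x.1, ?_, ?_⟩
    · rw [continuous_iff_continuousAt]
      intro x
      have h1 := hwO x.1 (hK' x.2).1
      have h2 : ∀ᶠ y : ↥K'.1 in 𝓝 x, w y.1 = w x.1 := by
        have := (continuous_subtype_val (p := fun y => y ∈ K'.1)).continuousAt (x := x)
        filter_upwards [this.eventually h1] with y hy
        exact hy.2
      exact (continuousAt_const (y := w x.1)).congr (h2.mono fun y hy => hy.symm)
    · intro x
      exact (hK' x.2).2.2
  · refine isOpen_induced_iff.2 ⟨{K' | K' ⊆ Ω}, ?_, rfl⟩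
    exact TopologicalSpace.isOpen_generateFrom_of_mem (Or.inl ⟨Ω, hΩ, rfl⟩)

/-- B9 (genericity of a solvable finite local constraint). -/
theorem gen_lcl (G : Type) [Group G] [Countable G] (k : ℕ) (E : Finset G)
    (Q : (G → Fin k) → Prop) (hQ : ∀ f f' : G → Fin k, (∀ s ∈ E, f s = f' s) → Q f → Q f')
    (c : G → Fin k) (hc : ∀ g, Q (fun s => c (g * s))) :
    {K : Sh G | ∃ v : ↥K.1 → Fin k, Continuous v ∧ ∀ x, Q (fun s => v (shiftAct K x s))} ∈
      @residual (Sh G) (vietoris G) :=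
  @residual_of_dense_open (Sh G) (vietoris G) _ (gen_lcl_open G k E Q hQ)
    (gen_lcl_dense G k E Q hQ c hc)

end Pool.Agent.Helper44.Sub
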