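import Mathlib

set_option autoImplicit false

/-!
Common definitions for generic hyperfiniteness of subshifts (MP_bdf835_lc).
-/

namespace Pool.Agent.Helper44.Sub

/-- A right action of a group on a measurable space by measurable maps. -/
structure RAct (X G : Type) [MeasurableSpace X] [Group G] where
  act : X → G → X
  one : ∀ x, act x 1 = x
  mul : ∀ x s t, act (act x s) t = act x (s * t)
  meas : ∀ s, Measurable (fun x => act x s)

/-- Level sets are measurable (used for maps into countable sets). -/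
def MF {X B : Type} [MeasurableSpace X] (f : X → B) : Prop :=
  ∀ b, MeasurableSet {x | f x = b}

/-- A measurable subgroupoid of the action groupoid `X × G`. -/
structure Gpd {X G : Type} [MeasurableSpace X] [Group G] (A : RAct X G) where
  rel : X → G → Prop
  one : ∀ x, rel x 1
  mul : ∀ x s t, rel x s → rel (A.act x s) t → rel x (s * t)
  inv : ∀ x s, rel x s → rel (A.act x s) s⁻¹
  meas : ∀ s, MeasurableSet {x | rel x s}

/-- Finite asymptotic dimension of the groupoid `J` (`D` colours), with leader maps inside `J`. -/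
def FA {X G : Type} [MeasurableSpace X] [Group G] {A : RAct X G} (J : Gpd A) (D : ℕ) : Prop :=
  ∀ R : Finset G, ∃ (T : Finset G) (c : X → Fin D) (χ : X → G),
    MF c ∧ MF χ ∧ (∀ x, χ x ∈ T) ∧ (∀ x, J.rel x (χ x)) ∧
    ∀ x, ∀ r ∈ R, J.rel x r → c x = c (A.act x r) → χ x = r * χ (A.act x r)

/-- Property (H): a sequence of finite-range leader maps such that every pair is cut by only
finitely many of them. -/
def HH {X G : Type} [MeasurableSpace X] [Group G] (A : RAct X G) : Prop :=
  ∃ w : ℕ → X → G, (∀ m, MF (w m)) ∧ (∀ m, ∃ T : Finset G, ∀ x, w m x ∈ T) ∧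
    ∀ x s, {m | w m x ≠ s * w m (A.act x s)}.Finite

/-- The action has measurable colourings separating `x` from `x s`, `s ∈ E`. -/
def Sep {X G : Type} [MeasurableSpace X] [Group G] (A : RAct X G) : Prop :=
  ∀ E : Finset G, (1 : G) ∉ E → ∃ (q : ℕ) (v : X → Fin q), MF v ∧
    ∀ x, ∀ s ∈ E, v (A.act x s) ≠ v x

/-- The action solves measurably every finite local constraint which is solvable on the group. -/
def Rich {X G : Type} [MeasurableSpace X] [Group G] (A : RAct X G) : Prop :=
  ∀ (k : ℕ) (E : Finset G) (Q : (G → Fin k) → Prop),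
    (∀ f f' : G → Fin k, (∀ s ∈ E, f s = f' s) → Q f → Q f') →
    (∃ c : G → Fin k, ∀ g, Q (fun s => c (g * s))) →
    ∃ v : X → Fin k, MF v ∧ ∀ x, Q (fun s => v (A.act x s))

/-- Finite asymptotic dimension of a countable group (`D` colours), leader form. -/
def GAs (Q : Type) [Group Q] (D : ℕ) : Prop :=
  ∀ R : Finset Q, ∃ (B : Finset Q) (c : Q → Fin D) (χ : Q → Q),
    (∀ q, χ q ∈ B) ∧ ∀ q, ∀ r ∈ R, c q = c (q * r) → χ q = r * χ (q * r)

/-- Doubling subgroup. -/
def Doubling {G : Type} [Group G] (M : Subgroup G) : Prop :=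
  ∃ C : ℕ, ∀ R : Set G, R.Finite → R ⊆ M → ∃ B : Set G, B.Finite ∧ R ⊆ B ∧ (1 : G) ∈ B ∧ B ⊆ M ∧
    (∀ b ∈ B, b⁻¹ ∈ B) ∧
    {g | ∃ a ∈ B, ∃ b ∈ B, ∃ c ∈ B, ∃ d ∈ B, ∃ e ∈ B, ∃ f ∈ B, g = a * b * c * d * e * f}.ncard
      ≤ C * B.ncard

/-- Every finitely generated subgroup is doubling. -/
def LocDoubling {G : Type} [Group G] (N : Subgroup G) : Prop :=
  ∀ S : Set G, S.Finite → S ⊆ N → Doubling (Subgroup.closure S)

/-- The space of nonempty subshifts of the Hilbert cube shift. -/
abbrev Sh (G : Type) [Group G] : Type :=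
  {K : Set (G → ℕ → unitInterval) //
    K.Nonempty ∧ IsClosed K ∧ ∀ g : G, ∀ x ∈ K, (fun h => x (g⁻¹ * h)) ∈ K}

/-- The Vietoris topology on the space of subshifts. -/
@[reducible] def vietoris (G : Type) [Group G] : TopologicalSpace (Sh G) :=
  TopologicalSpace.induced Subtype.val
    (TopologicalSpace.generateFrom
      ({S : Set (Set (G → ℕ → unitInterval)) |
          ∃ U : Set (G → ℕ → unitInterval), IsOpen U ∧ S = {K | K ⊆ U}} ∪
       {S : Set (Set (G → ℕ → unitInterval)) |
          ∃ U : Set (G → ℕ → unitInterval), IsOpen U ∧ S = {K | (K ∩ U).Nonempty}}))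

/-- The right shift on a subshift. -/
def shiftAct {G : Type} [Group G] (K : Sh G) (x : ↥K.1) (s : G) : ↥K.1 :=
  ⟨fun h => x.1 (s * h), by
    have := K.2.2.2 s⁻¹ x.1 x.2
    simpa using this⟩

/-- the right shift as an action on the Borel space of the subshift -/
noncomputable def shiftRAct {G : Type} [Group G] (K : Sh G) :
    @RAct ↥K.1 G (borel ↥K.1) _ :=
  letI : MeasurableSpace ↥K.1 := borel ↥K.1
  { act := shiftAct K
    one := by
      intro x; apply Subtype.ext; funext h; simp [shiftAct]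
    mul := by
      intro x s t; apply Subtype.ext; funext h; simp [shiftAct, mul_assoc]
    meas := by
      intro s
      have : BorelSpace ↥K.1 := ⟨rfl⟩
      apply Continuous.measurable
      refine Continuous.subtype_mk ?_ _
      refine continuous_pi fun h => ?_
      exact (continuous_apply (s * h)).comp continuous_subtype_val }

/-- The orbit equivalence relation of the subshift is hyperfinite. -/
def HypF {G : Type} [Group G] (K : Sh G) : Prop :=
  ∃ F : ℕ → Set (↥K.1 × ↥K.1),
    (∀ n, @MeasurableSet (↥K.1 × ↥K.1) (borel (↥K.1 × ↥K.1)) (F n)) ∧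
    (∀ n x, (x, x) ∈ F n) ∧
    (∀ n x y, (x, y) ∈ F n → (y, x) ∈ F n) ∧
    (∀ n x y z, (x, y) ∈ F n → (y, z) ∈ F n → (x, z) ∈ F n) ∧
    (∀ n x, {y | (x, y) ∈ F n}.Finite) ∧
    (∀ n, F n ⊆ F (n + 1)) ∧
    ∀ x y : ↥K.1, (∃ n, (x, y) ∈ F n) ↔ ∃ g : G, y.1 = fun h => x.1 (g⁻¹ * h)

end Pool.Agent.Helper44.Sub
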