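import Mathlib
import Pool.Agent.Helper44.Sub.Defs

/-!
# Greedy colouring of a measurable graph given by a free-like labelling
-/

set_option autoImplicit false

namespace Pool.Agent.Helper44.Sub

variable {X G : Type} [MeasurableSpace X] [Group G]

/-- the greedy colour, by recursion on the value of `v` -/
noncomputable def gK {q : ℕ} (A : RAct X G) (Adj : X → G → Prop) (v : X → Fin q) : X → ℕ :=
  WellFounded.fix (InvImage.wf v wellFounded_lt)
    (fun x ih => sInf {n | ∀ s (h : v (A.act x s) < v x), Adj x s → ih (A.act x s) h ≠ n})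

lemma gK_eq {q : ℕ} (A : RAct X G) (Adj : X → G → Prop) (v : X → Fin q) (x : X) :
    gK A Adj v x = sInf {n | ∀ s, v (A.act x s) < v x → Adj x s → gK A Adj v (A.act x s) ≠ n} := by
  unfold gK
  rw [WellFounded.fix_eq]

lemma gK_le {q : ℕ} (A : RAct X G) (Adj : X → G → Prop) (v : X → Fin q) (x : X) :
    gK A Adj v x ≤ (v x : ℕ) := by
  have key : ∀ n : ℕ, ∀ x, (v x : ℕ) = n → gK A Adj v x ≤ n := by
    intro n
    induction n using Nat.strong_induction_on with
    | _ n ih =>
      intro x hx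
      rw [gK_eq]
      refine Nat.sInf_le ?_
      intro s hs _ h
      have h1 := ih (v (A.act x s) : ℕ) (by rw [← hx]; exact hs) (A.act x s) rfl
      have h2 : (v (A.act x s) : ℕ) < n := by rw [← hx]; exact hs
      omega
  exact key _ x rfl

lemma gK_mem {q : ℕ} (A : RAct X G) (Adj : X → G → Prop) (v : X → Fin q) (x : X) :
    ∀ s, v (A.act x s) < v x → Adj x s → gK A Adj v (A.act x s) ≠ gK A Adj v x := by
  have hne : {n | ∀ s, v (A.act x s) < v x → Adj x s → gK A Adj v (A.act x s) ≠ n}.Nonempty := by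
    refine ⟨(v x : ℕ), fun s hs _ h => ?_⟩
    have h1 := gK_le A Adj v (A.act x s)
    have h2 : (v (A.act x s) : ℕ) < (v x : ℕ) := hs
    omega
  have h := Nat.sInf_mem hne
  rw [← gK_eq] at h
  exact h

lemma gK_lt {q : ℕ} (A : RAct X G) (Adj : X → G → Prop) (v : X → Fin q) (x : X) (c : ℕ)
    (hc : c < gK A Adj v x) :
    ∃ s, v (A.act x s) < v x ∧ Adj x s ∧ gK A Adj v (A.act x s) = c := by
  rw [gK_eq] at hc
  have h := Nat.notMem_of_lt_sInf hc
  simp only [Set.mem_setOf_eq, not_forall, not_not] at h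
  obtain ⟨s, h1, h2, h3⟩ := h
  exact ⟨s, h1, h2, h3⟩

lemma gK_iff {q : ℕ} (A : RAct X G) (Adj : X → G → Prop) (v : X → Fin q) (x : X) (c : ℕ) :
    gK A Adj v x = c ↔
      (∀ s, v (A.act x s) < v x → Adj x s → gK A Adj v (A.act x s) ≠ c) ∧
      ∀ d < c, ∃ s, v (A.act x s) < v x ∧ Adj x s ∧ gK A Adj v (A.act x s) = d := by
  constructor
  · rintro rfl
    exact ⟨gK_mem A Adj v x, fun d hd => gK_lt A Adj v x d hd⟩
  · rintro ⟨h1, h2⟩
    rcases lt_trichotomy (gK A Adj v x) c with h | h | h
    · obtain ⟨s, h3, h4, h5⟩ := h2 _ h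
      exact absurd h5 (gK_mem A Adj v x s h3 h4)
    · exact h
    · obtain ⟨s, h3, h4, h5⟩ := gK_lt A Adj v x c h
      exact absurd h5 (h1 s h3 h4)

/-- B3 (greedy colouring). -/
theorem greedy [Countable G] (A : RAct X G) (Adj : X → G → Prop)
    (hm : ∀ s, MeasurableSet {x | Adj x s})
    (hsymm : ∀ x s, Adj x s → Adj (A.act x s) s⁻¹) (q : ℕ) (v : X → Fin q) (hv : MF v)
    (hsep : ∀ x s, Adj x s → v (A.act x s) ≠ v x) :
    ∃ K : X → ℕ, MF K ∧ (∀ x s, Adj x s → K (A.act x s) ≠ K x) ∧
      ∀ x, ∀ c < K x, ∃ s, Adj x s ∧ K (A.act x s) = c := by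
  refine ⟨gK A Adj v, ?_, ?_, ?_⟩
  · have key : ∀ n : ℕ, ∀ j : Fin q, (j : ℕ) = n → ∀ c,
        MeasurableSet {x | v x = j ∧ gK A Adj v x = c} := by
      intro n
      induction n using Nat.strong_induction_on with
      | _ n ih =>
        intro j hj c
        have hlow : ∀ s d, MeasurableSet {x | v (A.act x s) < j ∧ gK A Adj v (A.act x s) = d} := by
          intro s d
          have h1 : {x | v (A.act x s) < j ∧ gK A Adj v (A.act x s) = d}
              = (fun x => A.act x s) ⁻¹'
                (⋃ i : {i : Fin q // i < j}, {x | v x = i ∧ gK A Adj v x = d}) := by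
            ext x
            simp only [Set.mem_setOf_eq, Set.mem_preimage, Set.mem_iUnion, Subtype.exists]
            constructor
            · rintro ⟨h2, h3⟩
              exact ⟨_, h2, rfl, h3⟩
            · rintro ⟨i, h2, h3, h4⟩
              exact ⟨h3 ▸ h2, h4⟩
          rw [h1]
          refine A.meas s (MeasurableSet.iUnion fun i => ?_)
          exact ih (i.1 : ℕ) (by rw [← hj]; exact i.2) i.1 rfl d
        have h1 : {x | v x = j ∧ gK A Adj v x = c}
            = {x | v x = j} ∩
              ((⋂ s : G, ({x | v (A.act x s) < j ∧ gK A Adj v (A.act x s) = c} ∩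
                {x | Adj x s})ᶜ) ∩
              (⋂ d : {d : ℕ // d < c}, ⋃ s : G,
                {x | v (A.act x s) < j ∧ gK A Adj v (A.act x s) = d} ∩ {x | Adj x s})) := by
          ext x
          simp only [Set.mem_setOf_eq, Set.mem_inter_iff, Set.mem_iInter, Set.mem_compl_iff,
            Set.mem_iUnion, Subtype.forall]
          constructor
          · rintro ⟨h2, h3⟩
            rw [gK_iff] at h3
            rw [h2] at h3
            refine ⟨h2, fun s hs => h3.1 s hs.1.1 hs.2 hs.1.2, fun d hd => ?_⟩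
            obtain ⟨s, h4, h5, h6⟩ := h3.2 d hd
            exact ⟨s, ⟨h4, h6⟩, h5⟩
          · rintro ⟨h2, h3, h4⟩
            refine ⟨h2, ?_⟩
            rw [gK_iff, h2]
            refine ⟨fun s hs ha hc => h3 s ⟨⟨hs, hc⟩, ha⟩, fun d hd => ?_⟩
            obtain ⟨s, h5, h6⟩ := h4 d hd
            exact ⟨s, h5.1, h6, h5.2⟩
        rw [h1]
        refine (hv j).inter (MeasurableSet.inter ?_ ?_)
        · exact MeasurableSet.iInter fun s => ((hlow s c).inter (hm s)).compl
        · exact MeasurableSet.iInter fun d => MeasurableSet.iUnion fun s =>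
            (hlow s d).inter (hm s)
    intro c
    have h1 : {x | gK A Adj v x = c} = ⋃ j : Fin q, {x | v x = j ∧ gK A Adj v x = c} := by
      ext x
      simp only [Set.mem_setOf_eq, Set.mem_iUnion]
      exact ⟨fun h => ⟨_, rfl, h⟩, fun ⟨_, _, h⟩ => h⟩
    rw [h1]
    exact MeasurableSet.iUnion fun j => key _ j rfl c
  · intro x s hs
    rcases lt_or_gt_of_ne (hsep x s hs) with h | h
    · exact gK_mem A Adj v x s h hs
    · have h1 : A.act (A.act x s) s⁻¹ = x := by rw [A.mul, mul_inv_cancel, A.one]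
      have h2 := gK_mem A Adj v (A.act x s) s⁻¹ (by rw [h1]; exact h) (hsymm x s hs)
      rw [h1] at h2
      exact h2.symm
  · intro x c hc
    obtain ⟨s, _, h2, h3⟩ := gK_lt A Adj v x c hc
    exact ⟨s, h2, h3⟩

end Pool.Agent.Helper44.Sub
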