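import Mathlib
import Pool.Agent.Helper44.Sub.Defs
import Pool.Agent.Helper44.Sub.Greedy

/-!
# Finite asymptotic dimension of a groupoid modelled on a doubling group
-/

set_option autoImplicit false

open scoped Pointwise

namespace Pool.Agent.Helper44.Sub

variable {X G : Type} [MeasurableSpace X] [Group G]

namespace DoubAux

lemma mf_choice [Countable G] (Q : X → G → Prop) (hQ : ∀ s, MeasurableSet {x | Q x s})
    (h : ∀ x, ∃ s, Q x s) : ∃ χ : X → G, MF χ ∧ ∀ x, Q x (χ x) := by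
  classical
  obtain ⟨e, he⟩ := exists_surjective_nat G
  have h' : ∀ x, ∃ n, Q x (e n) := by
    intro x
    obtain ⟨s, hs⟩ := h x
    obtain ⟨n, rfl⟩ := he s
    exact ⟨n, hs⟩
  refine ⟨fun x => e (Nat.find (h' x)), fun b => ?_, fun x => Nat.find_spec (h' x)⟩
  have h1 : {x | e (Nat.find (h' x)) = b} = ⋃ n : {n : ℕ // e n = b},
      ({x | Q x (e n)} ∩ ⋂ m : {m : ℕ // m < n}, {x | Q x (e m)}ᶜ) := by
    ext x
    simp only [Set.mem_ofPred_eq, Set.mem_iUnion, Set.mem_inter_iff, Set.mem_iInter,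
      Set.mem_compl_iff, Subtype.forall, Subtype.exists]
    constructor
    · intro hx
      exact ⟨_, hx, Nat.find_spec (h' x), fun m hm => Nat.find_min (h' x) hm⟩
    · rintro ⟨n, hn, h2, h3⟩
      have h4 : Nat.find (h' x) = n := by
        rw [Nat.find_eq_iff]
        exact ⟨h2, h3⟩
      rw [h4]; exact hn
  rw [h1]
  exact MeasurableSet.iUnion fun n => (hQ _).inter (MeasurableSet.iInter fun m => (hQ _).compl)

/-- the cocycle -/
def cc (A : RAct X G) (σ : X → G) (x : X) (s : G) : G := (σ x)⁻¹ * s * σ (A.act x s)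

lemma cc_one (A : RAct X G) (σ : X → G) (x : X) : cc A σ x 1 = 1 := by
  simp [cc, A.one]

lemma cc_mul (A : RAct X G) (σ : X → G) (x : X) (s t : G) :
    cc A σ x (s * t) = cc A σ x s * cc A σ (A.act x s) t := by
  unfold cc
  rw [A.mul]
  group

lemma act_inv (A : RAct X G) (x : X) (s : G) : A.act (A.act x s) s⁻¹ = x := by
  rw [A.mul, mul_inv_cancel, A.one]

lemma cc_inv (A : RAct X G) (σ : X → G) (x : X) (s : G) :
    cc A σ (A.act x s) s⁻¹ = (cc A σ x s)⁻¹ := by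
  have h := cc_mul A σ x s s⁻¹
  rw [mul_inv_cancel, cc_one] at h
  exact eq_inv_of_mul_eq_one_right h.symm

lemma cc_meas [Countable G] (A : RAct X G) {σ : X → G} (hσ : MF σ) (s : G) (P : Set G) :
    MeasurableSet {x | cc A σ x s ∈ P} := by
  have h1 : {x | cc A σ x s ∈ P} = ⋃ p : {p : G × G // p.1⁻¹ * s * p.2 ∈ P},
      ({x | σ x = p.1.1} ∩ (fun x => A.act x s) ⁻¹' {x | σ x = p.1.2}) := by
    ext x
    simp only [Set.mem_ofPred_eq, Set.mem_iUnion, Set.mem_inter_iff, Set.mem_preimage,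
      Subtype.exists, Prod.exists]
    constructor
    · intro h
      exact ⟨_, _, h, rfl, rfl⟩
    · rintro ⟨a, b, h, h2, h3⟩
      unfold cc
      rw [h2, h3]; exact h
  rw [h1]
  exact MeasurableSet.iUnion fun p => (hσ _).inter (A.meas s (hσ _))

/-- near of order `k` -/
def Near {A : RAct X G} (J : Gpd A) (σ : X → G) (B : Set G) (k : ℕ) (x : X) (s : G) : Prop :=
  J.rel x s ∧ cc A σ x s ∈ B ^ k

section

variable {A : RAct X G} (J : Gpd A) (σ : X → G) (B : Set G)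

lemma near_meas [Countable G] (hσ : MF σ) (k : ℕ) (s : G) :
    MeasurableSet {x | Near J σ B k x s} :=
  (J.meas s).inter (cc_meas A hσ s (B ^ k))

lemma near_inv (hB : B⁻¹ = B) {k : ℕ} {x : X} {s : G} (h : Near J σ B k x s) :
    Near J σ B k (A.act x s) s⁻¹ := by
  refine ⟨J.inv x s h.1, ?_⟩
  rw [cc_inv]
  have h1 : (cc A σ x s)⁻¹ ∈ (B ^ k)⁻¹ := Set.inv_mem_inv.mpr h.2
  rwa [← inv_pow, hB] at h1

lemma near_mul {k l : ℕ} {x : X} {s t : G} (h : Near J σ B k x s)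
    (h' : Near J σ B l (A.act x s) t) : Near J σ B (k + l) x (s * t) := by
  refine ⟨J.mul x s t h.1 h'.1, ?_⟩
  rw [cc_mul, pow_add]
  exact Set.mul_mem_mul h.2 h'.2

lemma near_one (hB1 : (1 : G) ∈ B) (k : ℕ) (x : X) : Near J σ B k x 1 := by
  refine ⟨J.one x, ?_⟩
  rw [cc_one]
  exact Set.one_mem_pow hB1

lemma near_mem {S : Finset G} (hS : ∀ x, σ x ∈ S) {k : ℕ} {x : X} {s : G}
    (h : Near J σ B k x s) : s ∈ (S : Set G) * B ^ k * (S : Set G)⁻¹ := by
  have h1 : s = σ x * cc A σ x s * (σ (A.act x s))⁻¹ := by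
    unfold cc; group
  rw [h1]
  exact Set.mul_mem_mul (Set.mul_mem_mul (by exact_mod_cast hS x) h.2)
    (Set.inv_mem_inv.mpr (by exact_mod_cast hS _))

end

lemma pow_finite {B : Set G} (hB : B.Finite) (k : ℕ) : (B ^ k).Finite := by
  induction k with
  | zero => rw [pow_zero]; exact Set.finite_one
  | succ k ih => rw [pow_succ]; exact ih.mul hB

lemma sep_near [Countable G] {A : RAct X G} (hsep : Sep A) (J : Gpd A) (σ : X → G)
    (S : Finset G) (hS : ∀ x, σ x ∈ S) (B : Set G) (hB : B.Finite) (k : ℕ) :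
    ∃ (q : ℕ) (v : X → Fin q), MF v ∧
      ∀ x s, Near J σ B k x s → s ≠ 1 → v (A.act x s) ≠ v x := by
  classical
  have hfin : (((S : Set G) * B ^ k * (S : Set G)⁻¹) \ {1}).Finite :=
    ((S.finite_toSet.mul (pow_finite hB k)).mul S.finite_toSet.inv).subset Set.sdiff_subset
  obtain ⟨q, v, hv, hv2⟩ := hsep hfin.toFinset (by simp)
  refine ⟨q, v, hv, fun x s hs h1 => hv2 x s ?_⟩
  rw [Set.Finite.mem_toFinset]
  exact ⟨near_mem J σ B hS hs, by simpa using h1⟩

/-- the six-fold product set -/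
lemma six_eq (B : Set G) :
    {g | ∃ a ∈ B, ∃ b ∈ B, ∃ c ∈ B, ∃ d ∈ B, ∃ e ∈ B, ∃ f ∈ B, g = a * b * c * d * e * f}
      = B ^ 6 := by
  ext g
  simp only [Set.mem_ofPred_eq, pow_succ, pow_zero, one_mul, Set.mem_mul]
  constructor
  · rintro ⟨a, ha, b, hb, c, hc, d, hd, e, he, f, hf, rfl⟩
    exact ⟨_, ⟨_, ⟨_, ⟨_, ⟨a, ha, b, hb, rfl⟩, c, hc, rfl⟩, d, hd, rfl⟩, e, he, rfl⟩, f, hf, rfl⟩
  · rintro ⟨_, ⟨_, ⟨_, ⟨_, ⟨a, ha, b, hb, rfl⟩, c, hc, rfl⟩, d, hd, rfl⟩, e, he, rfl⟩, f, hf, rfl⟩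
    exact ⟨a, ha, b, hb, c, hc, d, hd, e, he, f, hf, rfl⟩

/-- packing bound -/
lemma packing {A : RAct X G} (J : Gpd A) (σ : X → G) (B : Set G) (hBf : B.Finite)
    (hB1 : (1 : G) ∈ B) (hBi : B⁻¹ = B) (C : ℕ) (hC : (B ^ 6).ncard ≤ C * B.ncard)
    (Y : Set X) (hY : ∀ x s, x ∈ Y → A.act x s ∈ Y → Near J σ B 2 x s → s = 1) (x : X) :
    {s | A.act x s ∈ Y ∧ Near J σ B 5 x s}.ncard ≤ C := by
  set N := {s | A.act x s ∈ Y ∧ Near J σ B 5 x s} with hN
  have hBpos : 0 < B.ncard := (Set.ncard_pos hBf).mpr ⟨1, hB1⟩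
  have h1 : (N ×ˢ B).ncard ≤ (B ^ 6).ncard := by
    refine Set.ncard_le_ncard_of_injOn (fun p => cc A σ x p.1 * p.2) ?_ ?_ (pow_finite hBf 6)
    · rintro ⟨s, b⟩ ⟨hs, hb⟩
      have h2 : (6 : ℕ) = 5 + 1 := rfl
      rw [h2, pow_succ]
      exact Set.mul_mem_mul hs.2.2 hb
    · rintro ⟨s, b⟩ ⟨hs, hb⟩ ⟨s', b'⟩ ⟨hs', hb'⟩ heq
      simp only at heq hs hb hs' hb'
      have h2 : cc A σ (A.act x s) (s⁻¹ * s') = b * b'⁻¹ := by
        have h3 := cc_mul A σ x s (s⁻¹ * s')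
        rw [mul_inv_cancel_left] at h3
        rw [h3, mul_assoc] at heq
        have h4 := mul_left_cancel heq
        rw [h4]; group
      have h3 : Near J σ B 2 (A.act x s) (s⁻¹ * s') := by
        refine ⟨?_, ?_⟩
        · refine J.mul _ _ _ (J.inv _ _ hs.2.1) ?_
          rw [act_inv]; exact hs'.2.1
        · rw [h2, pow_two]
          refine Set.mul_mem_mul hb ?_
          rw [← hBi]; exact Set.inv_mem_inv.mpr hb'
      have h4 : s⁻¹ * s' = 1 := by
        refine hY _ _ hs.1 ?_ h3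
        rw [A.mul, mul_inv_cancel_left]
        exact hs'.1
      have h5 : s = s' := by rw [inv_mul_eq_one] at h4; exact h4
      subst h5
      rw [mul_right_inj] at heq
      rw [heq]
  rw [Set.ncard_prod] at h1
  exact Nat.le_of_mul_le_mul_right (h1.trans hC) hBpos

end DoubAux

open DoubAux

/-- B4 (finite asymptotic dimension of a groupoid modelled on a doubling group). -/
theorem FA_of_doubling [Countable G] {A : RAct X G} (hsep : Sep A) (J : Gpd A) (σ : X → G)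
    (hσ : MF σ) (S : Finset G) (hS : ∀ x, σ x ∈ S) (M : Subgroup G) (hM : Doubling M)
    (hJ : ∀ x s, J.rel x s → (σ x)⁻¹ * s * σ (A.act x s) ∈ M) : ∃ D, FA J D := by
  classical
  obtain ⟨C, hC⟩ := hM
  refine ⟨C + 1, fun R => ?_⟩
  -- the finite set of possible cocycle values
  set R0 : Set G := ((S : Set G)⁻¹ * (R : Set G) * (S : Set G)) ∩ M with hR0
  have hR0f : R0.Finite :=
    ((S.finite_toSet.inv.mul R.finite_toSet).mul S.finite_toSet).subset Set.inter_subset_left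
  obtain ⟨B, hBf, hRB, hB1, _, hBi0, hB6⟩ := hC R0 hR0f Set.inter_subset_right
  rw [six_eq] at hB6
  have hBi : B⁻¹ = B := by
    ext b
    rw [Set.mem_inv]
    exact ⟨fun h => by simpa using hBi0 _ h, fun h => hBi0 _ h⟩
  -- the maximal separated set
  obtain ⟨q, v, hv, hv2⟩ := sep_near hsep J σ S hS B hBf 2
  obtain ⟨K, hK, hK1, hK2⟩ := greedy A (fun x s => Near J σ B 2 x s ∧ s ≠ 1)
    (fun s => (near_meas J σ B hσ 2 s).inter (MeasurableSet.const _))
    (fun x s h => ⟨near_inv J σ B hBi h.1, by simpa using h.2⟩) q v hv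
    (fun x s h => hv2 x s h.1 h.2)
  set Y : Set X := {x | K x = 0} with hYdef
  have hYm : MeasurableSet Y := hK 0
  have hY : ∀ x s, x ∈ Y → A.act x s ∈ Y → Near J σ B 2 x s → s = 1 := by
    intro x s h1 h2 h3
    by_contra h4
    refine hK1 x s ⟨h3, h4⟩ ?_
    have h5 : K (A.act x s) = 0 := h2
    have h6 : K x = 0 := h1
    rw [h5, h6]
  have hYex : ∀ x, ∃ s, A.act x s ∈ Y ∧ Near J σ B 2 x s := by
    intro x
    by_cases h : K x = 0
    · exact ⟨1, by rw [A.one]; exact h, near_one J σ B hB1 2 x⟩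
    · obtain ⟨s, h1, h2⟩ := hK2 x 0 (Nat.pos_of_ne_zero h)
      exact ⟨s, h2, h1.1⟩
  obtain ⟨χ, hχ, hχ2⟩ := mf_choice (fun x s => A.act x s ∈ Y ∧ Near J σ B 2 x s)
    (fun s => (A.meas s hYm).inter (near_meas J σ B hσ 2 s)) hYex
  -- the second colouring
  obtain ⟨q', v', hv', hv2'⟩ := sep_near hsep J σ S hS B hBf 5
  obtain ⟨K', hK', hK1', hK2'⟩ := greedy A
    (fun x s => (x ∈ Y ∧ A.act x s ∈ Y) ∧ Near J σ B 5 x s ∧ s ≠ 1)
    (fun s => (hYm.inter (A.meas s hYm)).inter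
      ((near_meas J σ B hσ 5 s).inter (MeasurableSet.const _)))
    (fun x s h => ⟨⟨h.1.2, by rw [act_inv]; exact h.1.1⟩, near_inv J σ B hBi h.2.1,
      by simpa using h.2.2⟩) q' v' hv' (fun x s h => hv2' x s h.2.1 h.2.2)
  have hK'le : ∀ x, K' x < C + 1 := by
    intro x
    have hNf : {s | A.act x s ∈ Y ∧ Near J σ B 5 x s}.Finite := by
      refine ((S.finite_toSet.mul (pow_finite hBf 5)).mul S.finite_toSet.inv).subset ?_
      rintro s ⟨_, hs⟩
      exact near_mem J σ B hS hs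
    have hp := packing J σ B hBf hB1 hBi C hB6 Y hY x
    have h1 : ∀ d : Fin (K' x), ∃ s, s ∈ {s | A.act x s ∈ Y ∧ Near J σ B 5 x s} ∧
        K' (A.act x s) = d := by
      intro d
      obtain ⟨s, h2, h3⟩ := hK2' x d d.2
      exact ⟨s, ⟨h2.1.2, h2.2.1⟩, h3⟩
    choose g hg1 hg2 using h1
    have h2 : K' x ≤ {s | A.act x s ∈ Y ∧ Near J σ B 5 x s}.ncard := by
      have hinj : Function.Injective g := by
        intro d d' hdd
        have := hg2 d
        rw [hdd, hg2 d'] at this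
        exact (Fin.ext this).symm
      have h3 : (Set.range g).ncard = K' x := by
        rw [← Set.image_univ, Set.ncard_image_of_injective _ hinj, Set.ncard_univ,
          Nat.card_eq_fintype_card, Fintype.card_fin]
      rw [← h3]
      exact Set.ncard_le_ncard (by rintro _ ⟨d, rfl⟩; exact hg1 d) hNf
    omega
  have hTf : ((S : Set G) * B ^ 2 * (S : Set G)⁻¹).Finite :=
    (S.finite_toSet.mul (pow_finite hBf 2)).mul S.finite_toSet.inv
  refine ⟨hTf.toFinset, fun x => ⟨K' (A.act x (χ x)), hK'le _⟩, χ, ?_, hχ, ?_, ?_, ?_⟩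
  · intro d
    have h1 : {x | (⟨K' (A.act x (χ x)), hK'le _⟩ : Fin (C + 1)) = d}
        = ⋃ s : G, ({x | χ x = s} ∩ (fun x => A.act x s) ⁻¹' {x | K' x = (d : ℕ)}) := by
      ext x
      simp only [Set.mem_ofPred_eq, Set.mem_iUnion, Set.mem_inter_iff, Set.mem_preimage]
      constructor
      · intro h
        exact ⟨χ x, rfl, by rw [← h]⟩
      · rintro ⟨s, h2, h3⟩
        apply Fin.ext
        simp only
        rw [h2]; exact h3
    rw [h1]
    exact MeasurableSet.iUnion fun s => (hχ s).inter (A.meas s (hK' _))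
  · intro x
    rw [Set.Finite.mem_toFinset]
    exact near_mem J σ B hS (hχ2 x).2
  · exact fun x => (hχ2 x).2.1
  · intro x r hr hJr hc
    have hc' : K' (A.act x (χ x)) = K' (A.act (A.act x r) (χ (A.act x r))) := by
      have := congrArg Fin.val hc
      exact this
    have hccr : Near J σ B 1 x r := by
      refine ⟨hJr, ?_⟩
      rw [pow_one]
      apply hRB
      refine ⟨?_, hJ x r hJr⟩
      unfold cc
      exact Set.mul_mem_mul (Set.mul_mem_mul (Set.inv_mem_inv.mpr (by exact_mod_cast hS x))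
        (by exact_mod_cast hr)) (by exact_mod_cast hS _)
    have h1 : Near J σ B 2 (A.act x (χ x)) (χ x)⁻¹ := near_inv J σ B hBi (hχ2 x).2
    have h2 : Near J σ B 3 (A.act x (χ x)) ((χ x)⁻¹ * r) := by
      refine near_mul J σ B (k := 2) (l := 1) h1 ?_
      rw [act_inv]; exact hccr
    have h3 : Near J σ B 5 (A.act x (χ x)) ((χ x)⁻¹ * r * χ (A.act x r)) := by
      refine near_mul J σ B (k := 3) (l := 2) h2 ?_
      have h4 : A.act (A.act x (χ x)) ((χ x)⁻¹ * r) = A.act x r := by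
        rw [A.mul]; congr 1; group
      rw [h4]
      exact (hχ2 _).2
    have h5 : A.act (A.act x (χ x)) ((χ x)⁻¹ * r * χ (A.act x r))
        = A.act (A.act x r) (χ (A.act x r)) := by
      rw [A.mul, A.mul]; congr 1; group
    have h6 : (χ x)⁻¹ * r * χ (A.act x r) = 1 := by
      by_contra hne
      refine hK1' (A.act x (χ x)) _ ⟨⟨(hχ2 x).1, ?_⟩, h3, hne⟩ ?_
      · rw [h5]; exact (hχ2 _).1
      · rw [h5, hc']
    rw [mul_assoc, inv_mul_eq_one] at h6
    exact h6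

end Pool.Agent.Helper44.Sub
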