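import Pool.Agent.Helper44.Sub.Defs

set_option autoImplicit false

/-! Block B6 of the project on generic hyperfiniteness (MP_bdf835_lc): the extension step, without
the engine. -/

namespace Pool.Agent.Helper44.Sub

variable {X G : Type} [MeasurableSpace X] [Group G]

/-- an increasing sequence of finite sets exhausting a countable group -/
theorem exists_exhaust (G : Type) [Group G] [Countable G] :
    ∃ S : ℕ → Finset G, (∀ m, S m ⊆ S (m + 1)) ∧ ∀ g, ∃ m, g ∈ S m := by
  classical
  obtain ⟨e, he⟩ := exists_surjective_nat G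
  refine ⟨fun m => (Finset.range (m + 1)).image e, ?_, ?_⟩
  · intro m
    exact Finset.image_subset_image (Finset.range_mono (by omega))
  · intro g
    obtain ⟨m, rfl⟩ := he g
    exact ⟨m, Finset.mem_image_of_mem e (by simp)⟩

/-- the cocycle of a leader map takes values in a set on a measurable set -/
theorem measurableSet_cocycle [Countable G] (A : RAct X G) (σ : X → G) (hσ : MF σ) (s : G)
    (M : Set G) : MeasurableSet {x | (σ x)⁻¹ * s * σ (A.act x s) ∈ M} := by
  have : {x | (σ x)⁻¹ * s * σ (A.act x s) ∈ M} =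
      ⋃ (a : G) (b : G) (_ : a⁻¹ * s * b ∈ M), {x | σ x = a} ∩ {x | σ (A.act x s) = b} := by
    ext x
    simp only [Set.mem_ofPred_eq, Set.mem_iUnion, Set.mem_inter_iff, exists_prop]
    constructor
    · intro h
      exact ⟨σ x, σ (A.act x s), h, rfl, rfl⟩
    · rintro ⟨a, b, h, rfl, rfl⟩
      exact h
  rw [this]
  refine MeasurableSet.iUnion fun a => MeasurableSet.iUnion fun b => MeasurableSet.iUnion fun _ => ?_
  exact (hσ a).inter ((A.meas s) (hσ b))

theorem cocycle_one (A : RAct X G) (σ : X → G) (x : X) : (σ x)⁻¹ * 1 * σ (A.act x 1) = 1 := by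
  rw [A.one]; simp

theorem cocycle_mul (A : RAct X G) (σ : X → G) (x : X) (s t : G) :
    (σ x)⁻¹ * (s * t) * σ (A.act x (s * t)) =
      ((σ x)⁻¹ * s * σ (A.act x s)) *
        ((σ (A.act x s))⁻¹ * t * σ (A.act (A.act x s) t)) := by
  rw [A.mul]; group

theorem cocycle_inv (A : RAct X G) (σ : X → G) (x : X) (s : G) :
    (σ (A.act x s))⁻¹ * s⁻¹ * σ (A.act (A.act x s) s⁻¹) =
      ((σ x)⁻¹ * s * σ (A.act x s))⁻¹ := by
  rw [A.mul, mul_inv_cancel, A.one]; group

/-- B6, the groupoids of the extension step. -/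
theorem ext_gpd {X' G' : Type} [MeasurableSpace X'] [Group G'] [Countable G] (A : RAct X G)
    (A' : RAct X' G') (π : G →* G') (hπ : Function.Surjective π) (f : X → X') (hf : Measurable f)
    (hfe : ∀ x s, f (A.act x s) = A'.act (f x) (π s)) (hH : HH A')
    (hFA : ∀ (J : Gpd A) (σ : X → G) (S : Finset G) (M : Subgroup G), MF σ → (∀ x, σ x ∈ S) →
      M ≤ π.ker → M.FG → (∀ x s, J.rel x s → (σ x)⁻¹ * s * σ (A.act x s) ∈ M) → ∃ D, FA J D) :
    ∃ J : ℕ → Gpd A, (∀ t x s, (J t).rel x s → (J (t + 1)).rel x s) ∧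
      (∀ t, ∃ D, FA (J t) D) ∧ ∀ x s, ∃ t, (J t).rel x s := by
  classical
  obtain ⟨w, hw1, hw2, hw3⟩ := hH
  choose T hT using hw2
  set l : G' → G := Function.surjInv hπ with hl
  have hlπ : ∀ g', π (l g') = g' := Function.surjInv_eq hπ
  set σ : ℕ → X → G := fun m x => l (w m (f x)) with hσdef
  have hσ : ∀ m, MF (σ m) := by
    intro m g
    by_cases h : l (π g) = g
    · have : {x | σ m x = g} = f ⁻¹' {y | w m y = π g} := by
        ext x
        simp only [Set.mem_ofPred_eq, Set.mem_preimage, hσdef]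
        constructor
        · intro h'
          rw [← h', hlπ]
        · intro h'
          rw [h', h]
      rw [this]
      exact hf (hw1 m (π g))
    · have : {x | σ m x = g} = ∅ := by
        ext x
        simp only [Set.mem_ofPred_eq, Set.mem_empty_iff_false, hσdef, iff_false]
        intro h'
        apply h
        rw [← h', hlπ]
      rw [this]
      exact MeasurableSet.empty
  set Sg : ℕ → Finset G := fun m => (T m).image l with hSg
  have hσS : ∀ m x, σ m x ∈ Sg m := fun m x => Finset.mem_image_of_mem l (hT m (f x))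
  obtain ⟨S, hSmono, hSex⟩ := exists_exhaust G
  have hSmono' : ∀ m n, m ≤ n → S m ⊆ S n := fun m n h => monotone_nat_of_le_succ hSmono h
  set F : ℕ → Set G := fun m => {g | g ∈ π.ker ∧ ∃ a ∈ Sg m, ∃ s ∈ S m, ∃ b ∈ Sg m, g = a⁻¹ * s * b}
    with hF
  have hFfin : ∀ m, (F m).Finite := by
    intro m
    refine ((((Sg m) ×ˢ ((S m) ×ˢ (Sg m))).image
      (fun p : G × G × G => p.1⁻¹ * p.2.1 * p.2.2)).finite_toSet).subset ?_
    rintro g ⟨_, a, ha, s, hs, b, hb, rfl⟩
    rw [Finset.mem_coe, Finset.mem_image]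
    exact ⟨(a, s, b), by simp [ha, hs, hb], rfl⟩
  set M : ℕ → Subgroup G := fun m => Subgroup.closure (F m) with hM
  have hMker : ∀ m, M m ≤ π.ker := fun m => (Subgroup.closure_le _).2 fun g hg => hg.1
  have hMfg : ∀ m, (M m).FG := fun m => (Subgroup.fg_iff _).2 ⟨F m, rfl, hFfin m⟩
  set J : ℕ → Gpd A := fun t =>
    { rel := fun x s => ∀ m, t ≤ m → (σ m x)⁻¹ * s * σ m (A.act x s) ∈ M m
      one := by
        intro x m _
        rw [cocycle_one]
        exact (M m).one_mem
      mul := by
        intro x s s' h h' m hm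
        rw [cocycle_mul]
        exact (M m).mul_mem (h m hm) (h' m hm)
      inv := by
        intro x s h m hm
        rw [cocycle_inv]
        exact (M m).inv_mem (h m hm)
      meas := by
        intro s
        have : {x | ∀ m, t ≤ m → (σ m x)⁻¹ * s * σ m (A.act x s) ∈ M m} =
            ⋂ (m : ℕ) (_ : t ≤ m), {x | (σ m x)⁻¹ * s * σ m (A.act x s) ∈ (M m : Set G)} := by
          ext x
          simp
        rw [this]
        exact MeasurableSet.iInter fun m => MeasurableSet.iInter fun _ =>
          measurableSet_cocycle A (σ m) (hσ m) s _ } with hJ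
  refine ⟨J, ?_, ?_, ?_⟩
  · intro t x s h m hm
    exact h m (by omega)
  · intro t
    exact hFA (J t) (σ t) (Sg t) (M t) (hσ t) (hσS t) (hMker t) (hMfg t)
      fun x s h => h t le_rfl
  · intro x s
    have hfin := hw3 (f x) (π s)
    obtain ⟨t0, ht0⟩ := hfin.bddAbove
    obtain ⟨t1, ht1⟩ := hSex s
    refine ⟨max (t0 + 1) t1, fun m hm => ?_⟩
    have h1 : t0 < m := by have := le_max_left (t0 + 1) t1; omega
    have h2 : s ∈ S m := hSmono' t1 m ((le_max_right _ _).trans hm) ht1
    apply Subgroup.subset_closure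
    refine ⟨?_, σ m x, hσS m x, s, h2, σ m (A.act x s), hσS m _, rfl⟩
    have huncut : w m (f x) = π s * w m (A'.act (f x) (π s)) := by
      by_contra hne
      have := ht0 hne
      omega
    rw [MonoidHom.mem_ker, map_mul, map_mul, map_inv]
    simp only [hσdef]
    rw [hlπ, hlπ, hfe, huncut]
    group

end Pool.Agent.Helper44.Sub
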