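import Pool.Agent.Helper44.Sub.Defs
import Pool.Agent.Helper44.Sub.Doub
import Pool.Agent.Helper44.Sub.ExtGpd

set_option autoImplicit false
set_option linter.style.haveILetI false

/-!
Block B8 of MP_bdf835_lc: products of finite quotients along a chain of normal subgroups.
-/

namespace Pool.Agent.Helper44.Sub

namespace Chain

/-- The right action of `Q` on a product of groups through homomorphisms. -/
def prodAct {ι Q : Type} [Group Q] (H : ι → Type) [∀ p, Group (H p)] (ρ : ∀ p, Q →* H p) :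
    @RAct (∀ p, H p) Q (@MeasurableSpace.pi ι H (fun _ => ⊤)) _ :=
  letI : ∀ p, MeasurableSpace (H p) := fun _ => ⊤
  { act := fun x q p => x p * ρ p q
    one := by
      intro x; funext p; simp
    mul := by
      intro x s t; funext p; simp [mul_assoc]
    meas := by
      intro s
      refine measurable_pi_iff.2 fun p => ?_
      exact (measurable_from_top (f := fun y : H p => y * ρ p s)).comp (measurable_pi_apply p) }

/-- The product action separates points if the homomorphisms separate and the groups are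
finite. -/
theorem sep_prodAct {ι Q : Type} [Group Q] (H : ι → Type) [∀ p, Group (H p)]
    (ρ : ∀ p, Q →* H p) (hfin : ∀ p, Finite (H p)) (hs : ∀ q : Q, q ≠ 1 → ∃ p, ρ p q ≠ 1) :
    @Sep (∀ p, H p) Q (@MeasurableSpace.pi ι H (fun _ => ⊤)) _ (prodAct H ρ) := by
  classical
  letI : ∀ p, MeasurableSpace (H p) := fun _ => ⊤
  intro E hE
  have hp : ∀ s : E, ∃ p, ρ p s.1 ≠ 1 := fun s => hs s.1 (fun h => hE (h ▸ s.2))
  choose p hp using hp
  haveI : Finite (∀ s : E, H (p s)) := inferInstance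
  obtain ⟨q, ⟨e⟩⟩ := Finite.exists_equiv_fin (∀ s : E, H (p s))
  refine ⟨q, fun x => e (fun s => x (p s)), ?_, ?_⟩
  · intro b
    have h1 : {x : ∀ p, H p | e (fun s => x (p s)) = b} =
        ⋂ s : E, (fun x : ∀ p, H p => x (p s)) ⁻¹' {(e.symm b) s} := by
      ext x
      simp only [Set.mem_ofPred_eq, Set.mem_iInter, Set.mem_preimage, Set.mem_singleton_iff]
      rw [← Equiv.eq_symm_apply, funext_iff]
    rw [h1]
    refine MeasurableSet.iInter fun s => ?_
    exact (measurable_pi_apply (p s)) trivial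
  · intro x s hsE h
    have h2 := congrFun (e.injective h) ⟨s, hsE⟩
    have h3 : x (p ⟨s, hsE⟩) * ρ (p ⟨s, hsE⟩) s = x (p ⟨s, hsE⟩) := h2
    exact hp ⟨s, hsE⟩ (by simpa using h3)

variable {G : Type} [Group G]

/-- index set -/
abbrev Idx (G : Type) (i : ℕ) : Type := {p : ℕ × G // 0 < p.1 ∧ p.1 ≤ i}

theorem anti (N : ℕ → Subgroup G) (hanti : ∀ i, N (i + 1) ≤ N i) {i j : ℕ} (h : j ≤ i) :
    N i ≤ N j := by
  induction h with
  | refl => exact le_rfl
  | step _ ih => exact (hanti _).trans ih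

end Chain

/-- The statement of B2 (engine). -/
def EngineStmt : Prop :=
  ∀ (X G : Type) [MeasurableSpace X] [Group G] [Countable G] (A : RAct X G) (J : ℕ → Gpd A),
    (∀ t x s, (J t).rel x s → (J (t + 1)).rel x s) → (∀ t, ∃ D, FA (J t) D) →
    ∃ w : ℕ → X → G, (∀ m, MF (w m)) ∧ (∀ m, ∃ T : Finset G, ∀ x, w m x ∈ T) ∧
      ∀ x s, (∃ t, (J t).rel x s) → {m | w m x ≠ s * w m (A.act x s)}.Finite

/-- B6 from the engine. -/
theorem ext_core_of (heng : EngineStmt) {X G X' G' : Type} [MeasurableSpace X] [Group G]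
    [MeasurableSpace X'] [Group G'] [Countable G] (A : RAct X G)
    (A' : RAct X' G') (π : G →* G') (hπ : Function.Surjective π) (f : X → X') (hf : Measurable f)
    (hfe : ∀ x s, f (A.act x s) = A'.act (f x) (π s)) (hH : HH A')
    (hFA : ∀ (J : Gpd A) (σ : X → G) (S : Finset G) (M : Subgroup G), MF σ → (∀ x, σ x ∈ S) →
      M ≤ π.ker → M.FG → (∀ x s, J.rel x s → (σ x)⁻¹ * s * σ (A.act x s) ∈ M) → ∃ D, FA J D) :
    HH A := by
  obtain ⟨J, h1, h2, h3⟩ := ext_gpd A A' π hπ f hf hfe hH hFA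
  obtain ⟨w, w1, w2, w3⟩ := heng X G A J h1 h2
  exact ⟨w, w1, w2, fun x s => w3 x s (h3 x s)⟩

open Chain in
/-- B8 (chain of normal subgroups with separated finite quotients), from the engine. -/
theorem chain_of (heng : EngineStmt) {G : Type} [Group G] [Countable G] (ℓ : ℕ)
    (N : ℕ → Subgroup G)
    [∀ i, (N i).Normal] (h0 : N 0 = ⊤) (hanti : ∀ i, N (i + 1) ≤ N i)
    (hd : ∀ i < ℓ, LocDoubling ((N i).map (QuotientGroup.mk' (N (i + 1)))))
    (K : ℕ → G → Subgroup G) [∀ j g, (K j g).Normal] (hK : ∀ j g, (K j g).FiniteIndex)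
    (hNK : ∀ j g, N j ≤ K j g) (hsepK : ∀ j g, 0 < j → j ≤ ℓ → g ∉ N j → g ∉ K j g) :
    ∃ (X' : Type) (_ : MeasurableSpace X') (A' : RAct X' (G ⧸ N ℓ)), HH A' ∧
      ∀ (X : Type) [MeasurableSpace X] (A : RAct X G) (φ : ∀ j g, X → G ⧸ K j g),
        (∀ j g, MF (φ j g)) →
        (∀ j g x s, φ j g (A.act x s) = φ j g x * (s : G ⧸ K j g)) →
        ∃ f : X → X', Measurable f ∧ ∀ x s, f (A.act x s) = A'.act (f x) (s : G ⧸ N ℓ) := by
  classical
  -- the homomorphisms
  have hle : ∀ (i : ℕ) (p : Idx G i), N i ≤ K p.1.1 p.1.2 := fun i p =>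
    (anti N hanti p.2.2).trans (hNK _ _)
  let ρ : ∀ (i : ℕ) (p : Idx G i), G ⧸ N i →* G ⧸ K p.1.1 p.1.2 := fun i p =>
    QuotientGroup.map (N i) (K p.1.1 p.1.2) (MonoidHom.id G) (by
      intro x hx; exact hle i p hx)
  have hρ : ∀ (i : ℕ) (p : Idx G i) (g : G), ρ i p (g : G ⧸ N i) = (g : G ⧸ K p.1.1 p.1.2) := by
    intro i p g; rfl
  let Y : ℕ → Type := fun i => ∀ p : Idx G i, G ⧸ K p.1.1 p.1.2
  let mY : ∀ i, MeasurableSpace (Y i) := fun i => @MeasurableSpace.pi (Idx G i) _ (fun _ => ⊤)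
  let B : ∀ i, @RAct (Y i) (G ⧸ N i) (mY i) _ := fun i =>
    prodAct (fun p : Idx G i => G ⧸ K p.1.1 p.1.2) (ρ i)
  have hfin : ∀ (i : ℕ) (p : Idx G i), Finite (G ⧸ K p.1.1 p.1.2) := by
    intro i p
    haveI := hK p.1.1 p.1.2
    infer_instance
  have hsep : ∀ i, 0 < i → i ≤ ℓ → @Sep (Y i) (G ⧸ N i) (mY i) _ (B i) := by
    intro i hi hiℓ
    refine sep_prodAct _ _ (hfin i) ?_
    intro q hq
    obtain ⟨g, rfl⟩ := QuotientGroup.mk_surjective q
    have hg : g ∉ N i := fun h => hq ((QuotientGroup.eq_one_iff g).2 h)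
    refine ⟨⟨(i, g), hi, le_rfl⟩, ?_⟩
    rw [hρ]
    intro h
    exact hsepK i g hi hiℓ hg ((QuotientGroup.eq_one_iff g).1 h)
  have hHH : ∀ i, i ≤ ℓ → @HH (Y i) (G ⧸ N i) (mY i) _ (B i) := by
    intro i
    induction i with
    | zero =>
      intro _
      letI := mY 0
      haveI : Subsingleton (G ⧸ N 0) := by
        refine ⟨fun a b => ?_⟩
        obtain ⟨g, rfl⟩ := QuotientGroup.mk_surjective a
        obtain ⟨h, rfl⟩ := QuotientGroup.mk_surjective b
        refine QuotientGroup.eq.2 ?_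
        rw [h0]; exact Subgroup.mem_top _
      refine ⟨fun _ _ => 1, ?_, ?_, ?_⟩
      · intro m b
        exact MeasurableSet.const _
      · intro m
        exact ⟨{1}, fun x => by simp⟩
      · intro x s
        have : {m : ℕ | (fun (_ : ℕ) (_ : Y 0) => (1 : G ⧸ N 0)) m x ≠
            s * (fun (_ : ℕ) (_ : Y 0) => (1 : G ⧸ N 0)) m ((B 0).act x s)} = ∅ := by
          ext m
          simp only [Set.mem_ofPred_eq, Set.mem_empty_iff_false, iff_false, not_not]
          exact Subsingleton.elim _ _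
        rw [this]
        exact Set.finite_empty
    | succ i ih =>
      intro hi
      letI := mY i
      letI := mY (i + 1)
      let π : G ⧸ N (i + 1) →* G ⧸ N i :=
        QuotientGroup.map (N (i + 1)) (N i) (MonoidHom.id G) (by
          intro x hx; exact hanti i hx)
      have hπ : ∀ g : G, π (g : G ⧸ N (i + 1)) = (g : G ⧸ N i) := fun g => rfl
      have hπs : Function.Surjective π := by
        intro q
        obtain ⟨g, rfl⟩ := QuotientGroup.mk_surjective q
        exact ⟨(g : G ⧸ N (i + 1)), hπ g⟩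
      let f : Y (i + 1) → Y i := fun x p => x ⟨p.1, p.2.1, p.2.2.trans (Nat.le_succ i)⟩
      have hf : Measurable f := by
        letI : ∀ p : Idx G i, MeasurableSpace (G ⧸ K p.1.1 p.1.2) := fun _ => ⊤
        letI : ∀ p : Idx G (i + 1), MeasurableSpace (G ⧸ K p.1.1 p.1.2) := fun _ => ⊤
        refine measurable_pi_iff.2 fun p => ?_
        exact measurable_pi_apply (X := fun p : Idx G (i + 1) => G ⧸ K p.1.1 p.1.2)
          (⟨p.1, p.2.1, p.2.2.trans (Nat.le_succ i)⟩ : Idx G (i + 1))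
      have hfe : ∀ x s, f ((B (i + 1)).act x s) = (B i).act (f x) (π s) := by
        intro x s
        obtain ⟨g, rfl⟩ := QuotientGroup.mk_surjective s
        funext p
        rfl
      have hcount : Countable (G ⧸ N (i + 1)) :=
        (QuotientGroup.mk_surjective (s := N (i + 1))).countable
      refine ext_core_of heng (B (i + 1)) (B i) π hπs f hf hfe (ih (Nat.le_of_succ_le hi)) ?_
      intro J σ S M hσ hS hM hfg hJ
      refine FA_of_doubling (hsep (i + 1) (Nat.succ_pos i) hi) J σ hσ S hS M ?_ hJ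
      obtain ⟨T, hT⟩ := hfg
      rw [← hT]
      refine hd i (Nat.lt_of_succ_le hi) (T : Set (G ⧸ N (i + 1))) T.finite_toSet ?_
      intro q hq
      have hqM : q ∈ M := hT ▸ Subgroup.subset_closure hq
      have hqk := hM hqM
      obtain ⟨g, rfl⟩ := QuotientGroup.mk_surjective q
      have hg : g ∈ N i := by
        have : π (g : G ⧸ N (i + 1)) = 1 := hqk
        rw [hπ] at this
        exact (QuotientGroup.eq_one_iff g).1 this
      exact ⟨g, hg, rfl⟩
  refine ⟨Y ℓ, mY ℓ, B ℓ, hHH ℓ le_rfl, ?_⟩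
  intro X _ A φ hφ hφe
  letI := mY ℓ
  refine ⟨fun x p => φ p.1.1 p.1.2 x, ?_, ?_⟩
  · letI : ∀ p : Idx G ℓ, MeasurableSpace (G ⧸ K p.1.1 p.1.2) := fun _ => ⊤
    refine measurable_pi_iff.2 fun p => ?_
    haveI := hfin ℓ p
    refine measurable_to_countable' fun b => ?_
    exact hφ p.1.1 p.1.2 b
  · intro x s
    funext p
    exact hφe p.1.1 p.1.2 x s

end Pool.Agent.Helper44.Sub
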