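import Pool.Agent.Helper44.Sub.Main

set_option autoImplicit false

/-!
Density of hyperfinite subshifts for groups with a finite normal series whose factors have locally
finite asymptotic dimension (MP_bdf835_lc).
-/

namespace Pool.Agent.Helper44.Sub

open Filter Topology

/-- Rich actions pull back along equivariant measurable maps. -/
theorem Rich.pull {X Y G : Type} [MeasurableSpace X] [MeasurableSpace Y] [Group G] {A : RAct X G}
    {B : RAct Y G} (hB : Rich B) (f : X → Y) (hf : Measurable f)
    (hfe : ∀ x s, f (A.act x s) = B.act (f x) s) : Rich A := by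
  intro k E Q hQ hsol
  obtain ⟨v, hv, hvQ⟩ := hB k E Q hQ hsol
  refine ⟨fun x => v (f x), fun b => hf (hv b), fun x => ?_⟩
  have := hvQ (f x)
  simp only [← hfe] at this
  exact this

/-- Property (H) pulls back along equivariant maps over an injective homomorphism. -/
theorem HH.pull {X Y G G' : Type} [MeasurableSpace X] [MeasurableSpace Y] [Group G] [Group G']
    [Countable G'] {A : RAct X G} {B : RAct Y G'} (hB : HH B) (π : G →* G')
    (hπ : Function.Surjective π) (hker : ∀ g, π g = 1 → g = 1) (f : X → Y) (hf : Measurable f)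
    (hfe : ∀ x s, f (A.act x s) = B.act (f x) (π s)) : HH A := by
  classical
  obtain ⟨w, h1, h2, h3⟩ := hB
  have hl : ∀ q, π (Function.surjInv hπ q) = q := Function.surjInv_eq hπ
  refine ⟨fun m x => Function.surjInv hπ (w m (f x)), ?_, ?_, ?_⟩
  · intro m b
    have h4 : MF (fun y => Function.surjInv hπ (w m y)) :=
      B5.MF.map (h1 m) (Function.surjInv hπ)
    exact hf (h4 b)
  · intro m
    obtain ⟨T, hT⟩ := h2 m
    exact ⟨T.image (Function.surjInv hπ), fun x => Finset.mem_image_of_mem _ (hT (f x))⟩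
  · intro x s
    refine (h3 (f x) (π s)).subset ?_
    intro m hm
    simp only [Set.mem_ofPred_eq] at hm ⊢
    intro heq
    apply hm
    have h5 : (Function.surjInv hπ (w m (f x)))⁻¹ *
        (s * Function.surjInv hπ (w m (f (A.act x s)))) = 1 := by
      apply hker
      rw [map_mul, map_mul, map_inv, hl, hl, hfe, heq]
      group
    rw [inv_mul_eq_one] at h5
    exact h5

/-! ### A rich subshift -/

section rich

variable (G : Type) [Group G]

/-- finite local constraints -/
abbrev Cst : Type := Σ k : ℕ, Σ E : Finset G, Set (↥E → Fin k)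

variable {G}

/-- the constraint as a predicate -/
def Cst.Q (τ : Cst G) (f : G → Fin τ.1) : Prop := (fun s : ↥τ.2.1 => f s.1) ∈ τ.2.2

omit [Group G] in
theorem Cst.loc (τ : Cst G) (f f' : G → Fin τ.1) (h : ∀ s ∈ τ.2.1, f s = f' s) (hf : τ.Q f) :
    τ.Q f' := by
  have : (fun s : ↥τ.2.1 => f' s.1) = fun s : ↥τ.2.1 => f s.1 := by
    funext s; exact (h s.1 s.2).symm
  show (fun s : ↥τ.2.1 => f' s.1) ∈ τ.2.2
  rw [this]; exact hf

/-- the set of solutions coded in the interval -/
def Cst.cod (τ : Cst G) : Set (G → unitInterval) :=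
  (fun y : G → Fin τ.1 => fun h => icode τ.1 (y h)) '' sols τ.Q

theorem Cst.cod_closed (τ : Cst G) : IsClosed τ.cod := by
  apply IsCompact.isClosed
  refine IsCompact.image (isClosed_sols τ.2.1 τ.Q τ.loc).isCompact ?_
  refine continuous_pi fun h => ?_
  exact (continuous_of_discreteTopology (f := icode τ.1)).comp (continuous_apply h)

theorem Cst.cod_inv (τ : Cst G) (g : G) (y : G → unitInterval) (hy : y ∈ τ.cod) :
    (fun h => y (g⁻¹ * h)) ∈ τ.cod := by
  obtain ⟨z, hz, rfl⟩ := hy
  refine ⟨fun h => z (g⁻¹ * h), ?_, rfl⟩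
  intro g'
  have := hz (g⁻¹ * g')
  simpa [mul_assoc] using this

theorem exists_rich (G : Type) [Group G] [Countable G] :
    ∃ Z : Sh G, @Rich ↥Z.1 G (borel ↥Z.1) _ (shiftRAct Z) := by
  classical
  have hc : Countable (Cst G) := by
    have : ∀ (k : ℕ) (E : Finset G), Countable (Set (↥E → Fin k)) :=
      fun k E => Finite.to_countable
    infer_instance
  obtain ⟨e, he⟩ := exists_injective_nat (Cst G)
  let K : Set (G → ℕ → unitInterval) :=
    {x | ∀ τ : Cst G, (sols τ.Q).Nonempty → (fun h => x h (e τ)) ∈ τ.cod}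
  have hKne : K.Nonempty := by
    let F : Cst G → G → unitInterval := fun τ h =>
      if hne : (sols τ.Q).Nonempty then icode τ.1 (hne.some h) else 0
    refine ⟨fun h n => if hn : ∃ τ, e τ = n then F hn.choose h else 0, ?_⟩
    intro τ hne
    have h1 : ∃ τ', e τ' = e τ := ⟨τ, rfl⟩
    have h2 : h1.choose = τ := he h1.choose_spec
    refine ⟨hne.some, hne.some_mem, ?_⟩
    funext h
    show icode τ.1 (hne.some h) = if hn : ∃ τ', e τ' = e τ then F hn.choose h else 0
    rw [dif_pos h1, h2]
    show icode τ.1 (hne.some h) =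
      if hne : (sols τ.Q).Nonempty then icode τ.1 (hne.some h) else 0
    rw [dif_pos hne]
  have hKc : IsClosed K := by
    have : K = ⋂ (τ : Cst G) (_ : (sols τ.Q).Nonempty),
        (fun x : G → ℕ → unitInterval => fun h => x h (e τ)) ⁻¹' τ.cod := by
      ext x
      simp only [K, Set.mem_ofPred_eq, Set.mem_iInter, Set.mem_preimage]
    rw [this]
    refine isClosed_iInter fun τ => isClosed_iInter fun _ => ?_
    refine τ.cod_closed.preimage ?_
    exact continuous_pi fun h => (continuous_apply (e τ)).comp (continuous_apply h)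
  have hKi : ∀ g : G, ∀ x ∈ K, (fun h => x (g⁻¹ * h)) ∈ K := by
    intro g x hx τ hne
    exact τ.cod_inv g _ (hx τ hne)
  refine ⟨⟨K, hKne, hKc, hKi⟩, ?_⟩
  intro k E Q hQ hsol
  let P : Set (↥E → Fin k) := {p | ∃ f : G → Fin k, Q f ∧ ∀ s : ↥E, f s.1 = p s}
  let τ : Cst G := ⟨k, E, P⟩
  have hP1 : ∀ f, Q f → τ.Q f := fun f hf => ⟨f, hf, fun _ => rfl⟩
  have hP2 : ∀ f, τ.Q f → Q f := by
    rintro f ⟨f', hf', hff⟩
    exact hQ f' f (fun s hs => hff ⟨s, hs⟩) hf'
  obtain ⟨c, hc⟩ := hsol
  have hne : (sols τ.Q).Nonempty := ⟨c, fun g => hP1 _ (hc g)⟩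
  have key : ∀ x : ↥K, ∃ y : G → Fin k, y ∈ sols τ.Q ∧ ∀ h, x.1 h (e τ) = icode k (y h) := by
    rintro ⟨x, hx⟩
    obtain ⟨y, hy, hy2⟩ := hx τ hne
    exact ⟨y, hy, fun h => (congrFun hy2 h).symm⟩
  choose y hy1 hy2 using key
  refine ⟨fun x => y x 1, ?_, ?_⟩
  · have hemb : IsEmbedding (icode k) :=
      (IsClosedEmbedding.of_continuous_injective_isClosedMap continuous_of_discreteTopology
        (icode_inj k)
        (fun s _ => (Set.toFinite _).isClosed)).isEmbedding
    have hcont : Continuous (fun x : ↥K => y x 1) := by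
      rw [hemb.continuous_iff]
      have : (icode k ∘ fun x => y x 1) = fun x : ↥K => x.1 1 (e τ) := by
        funext x
        simp [hy2]
      rw [this]
      exact (continuous_apply (e τ)).comp ((continuous_apply (1 : G)).comp continuous_subtype_val)
    intro b
    have : IsOpen ((fun x : ↥K => y x 1) ⁻¹' {b}) := (isOpen_discrete {b}).preimage hcont
    exact MeasurableSpace.measurableSet_generateFrom this
  · intro x
    have h1 : ∀ s, y (shiftAct ⟨K, hKne, hKc, hKi⟩ x s) 1 = y x s := by
      intro s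
      apply icode_inj k
      rw [← hy2, ← hy2]
      simp [shiftAct]
    show Q (fun s => y (shiftAct ⟨K, hKne, hKc, hKi⟩ x s) 1)
    simp only [h1]
    have := hy1 x 1
    apply hP2
    simpa using this

end rich

end Pool.Agent.Helper44.Sub
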