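import Pool.Agent.Helper44.Sub.Dens

set_option autoImplicit false

namespace Pool.Agent.Helper44.Sub

open Filter Topology

/-! ### Combination of subshifts -/

/-- interleave a configuration over a quotient and a configuration -/
def comb {G Q : Type} (π : G → Q) (y : Q → ℕ → unitInterval) (z : G → ℕ → unitInterval) :
    G → ℕ → unitInterval :=
  fun h n => if n % 2 = 0 then y (π h) (n / 2) else z h (n / 2)

theorem comb_cont {G Q : Type} (π : G → Q) :
    Continuous (fun p : (Q → ℕ → unitInterval) × (G → ℕ → unitInterval) => comb π p.1 p.2) := by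
  refine continuous_pi fun h => continuous_pi fun n => ?_
  unfold comb
  by_cases hn : n % 2 = 0
  · simp only [hn, if_true]
    exact (continuous_apply (n / 2)).comp ((continuous_apply (π h)).comp continuous_fst)
  · simp only [hn, if_false]
    exact (continuous_apply (n / 2)).comp ((continuous_apply h).comp continuous_snd)

theorem exists_comb {G Q : Type} [Group G] [Group Q] (π : G →* Q) (hπ : Function.Surjective π)
    (Y : Sh Q) (Z : Sh G) :
    ∃ (W : Sh G) (f : ↥W.1 → ↥Y.1) (g : ↥W.1 → ↥Z.1), Continuous f ∧ Continuous g ∧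
      (∀ x s, f (shiftAct W x s) = shiftAct Y (f x) (π s)) ∧
      (∀ x s, g (shiftAct W x s) = shiftAct Z (g x) s) := by
  classical
  have hl : ∀ q, π (Function.surjInv hπ q) = q := Function.surjInv_eq hπ
  have e1 : ∀ (y : Q → ℕ → unitInterval) (z : G → ℕ → unitInterval),
      (fun q n => comb π y z (Function.surjInv hπ q) (2 * n)) = y := by
    intro y z; funext q n
    have h1 : 2 * n % 2 = 0 := by omega
    have h2 : 2 * n / 2 = n := by omega
    simp only [comb, h1, if_true, h2, hl]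
  have e2 : ∀ (y : Q → ℕ → unitInterval) (z : G → ℕ → unitInterval),
      (fun h n => comb π y z h (2 * n + 1)) = z := by
    intro y z; funext h n
    have h1 : (2 * n + 1) % 2 ≠ 0 := by omega
    have h2 : (2 * n + 1) / 2 = n := by omega
    simp only [comb, h1, if_false, h2]
  let W : Sh G := ⟨(fun p : (Q → ℕ → unitInterval) × (G → ℕ → unitInterval) => comb π p.1 p.2) ''
      (Y.1 ×ˢ Z.1), by
    obtain ⟨y, hy⟩ := Y.2.1
    obtain ⟨z, hz⟩ := Z.2.1
    exact ⟨_, (y, z), ⟨hy, hz⟩, rfl⟩, by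
    apply IsCompact.isClosed
    apply IsCompact.image _ (comb_cont π)
    exact Y.2.2.1.isCompact.prod Z.2.2.1.isCompact, by
    rintro g _ ⟨⟨y, z⟩, ⟨hy, hz⟩, rfl⟩
    refine ⟨(fun q => y ((π g)⁻¹ * q), fun h => z (g⁻¹ * h)),
      ⟨Y.2.2.2 (π g) y hy, Z.2.2.2 g z hz⟩, ?_⟩
    funext h n
    simp only [comb, map_mul, map_inv]⟩
  refine ⟨W, fun x => ⟨fun q n => x.1 (Function.surjInv hπ q) (2 * n), ?_⟩,
    fun x => ⟨fun h n => x.1 h (2 * n + 1), ?_⟩, ?_, ?_, ?_, ?_⟩
  · obtain ⟨x, ⟨y, z⟩, ⟨hy, hz⟩, rfl⟩ := x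
    show (fun q n => comb π y z (Function.surjInv hπ q) (2 * n)) ∈ Y.1
    rw [e1]; exact hy
  · obtain ⟨x, ⟨y, z⟩, ⟨hy, hz⟩, rfl⟩ := x
    show (fun h n => comb π y z h (2 * n + 1)) ∈ Z.1
    rw [e2]; exact hz
  · refine Continuous.subtype_mk ?_ _
    exact continuous_pi fun q => continuous_pi fun n =>
      (continuous_apply (2 * n)).comp ((continuous_apply _).comp continuous_subtype_val)
  · refine Continuous.subtype_mk ?_ _
    exact continuous_pi fun h => continuous_pi fun n =>
      (continuous_apply (2 * n + 1)).comp ((continuous_apply _).comp continuous_subtype_val)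
  · rintro ⟨x, ⟨y, z⟩, ⟨hy, hz⟩, rfl⟩ s
    apply Subtype.ext
    show (fun q n => comb π y z (s * Function.surjInv hπ q) (2 * n)) =
      fun q n => comb π y z (Function.surjInv hπ (π s * q)) (2 * n)
    funext q n
    have h1 : 2 * n % 2 = 0 := by omega
    simp only [comb, h1, if_true, map_mul, hl]
  · rintro ⟨x, ⟨y, z⟩, ⟨hy, hz⟩, rfl⟩ s
    rfl

/-! ### Perturbation -/

/-- replace the coordinates from `n` on -/
def near {G Q : Type} (π : G → Q) (n : ℕ) (x : G → ℕ → unitInterval) (y : Q → ℕ → unitInterval) :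
    G → ℕ → unitInterval :=
  fun h m => if m < n then x h m else y (π h) (m - n)

theorem near_cont {G Q : Type} (π : G → Q) (n : ℕ) :
    Continuous (fun p : (G → ℕ → unitInterval) × (Q → ℕ → unitInterval) =>
      near π n p.1 p.2) := by
  refine continuous_pi fun h => continuous_pi fun m => ?_
  unfold near
  by_cases hm : m < n
  · simp only [hm, if_true]
    exact (continuous_apply m).comp ((continuous_apply h).comp continuous_fst)
  · simp only [hm, if_false]
    exact (continuous_apply (m - n)).comp ((continuous_apply (π h)).comp continuous_snd)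

theorem near_unif {G Q : Type} (π : G → Q)
    {V : Set ((G → ℕ → unitInterval) × (G → ℕ → unitInterval))}
    (hV : V ∈ uniformity (G → ℕ → unitInterval)) :
    ∀ᶠ n in atTop, ∀ x y, (x, near π n x y) ∈ V := by
  have ht : Tendsto (fun p : ℕ × ((G → ℕ → unitInterval) × (Q → ℕ → unitInterval)) =>
      (p.2.1, near π p.1 p.2.1 p.2.2)) (atTop ×ˢ 𝓟 Set.univ)
      (uniformity (G → ℕ → unitInterval)) := by
    rw [Pi.uniformity, tendsto_iInf]
    intro h
    rw [tendsto_comap_iff, Pi.uniformity, tendsto_iInf]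
    intro m
    rw [tendsto_comap_iff]
    intro V hV
    rw [mem_map]
    have : ∀ᶠ p : ℕ × ((G → ℕ → unitInterval) × (Q → ℕ → unitInterval)) in
        (atTop ×ˢ 𝓟 Set.univ), m < p.1 := by
      have := (eventually_gt_atTop m)
      exact tendsto_fst.eventually this
    filter_upwards [this] with p hp
    simp only [Set.mem_preimage, Function.comp_apply, near, hp, if_true]
    exact refl_mem_uniformity hV
  have h := ht.eventually hV
  rw [Filter.eventually_prod_principal_iff] at h
  filter_upwards [h] with n hn x y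
  exact hn (x, y) (Set.mem_univ _)

/-- the perturbed subshift -/
def nearSh {G Q : Type} [Group G] [Group Q] (π : G →* Q) (K : Sh G) (Y : Sh Q) (n : ℕ) : Sh G :=
  ⟨(fun p : (G → ℕ → unitInterval) × (Q → ℕ → unitInterval) => near π n p.1 p.2) ''
      (K.1 ×ˢ Y.1), by
    obtain ⟨x, hx⟩ := K.2.1
    obtain ⟨y, hy⟩ := Y.2.1
    exact ⟨_, (x, y), ⟨hx, hy⟩, rfl⟩, by
    apply IsCompact.isClosed
    apply IsCompact.image _ (near_cont π n)
    exact K.2.2.1.isCompact.prod Y.2.2.1.isCompact, by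
    rintro g _ ⟨⟨x, y⟩, ⟨hx, hy⟩, rfl⟩
    refine ⟨(fun h => x (g⁻¹ * h), fun q => y ((π g)⁻¹ * q)),
      ⟨K.2.2.2 g x hx, Y.2.2.2 (π g) y hy⟩, ?_⟩
    funext h m
    simp only [near, map_mul, map_inv]⟩

theorem nearSh_map {G Q : Type} [Group G] [Group Q] (π : G →* Q) (hπ : Function.Surjective π)
    (K : Sh G) (Y : Sh Q) (n : ℕ) :
    ∃ f : ↥(nearSh π K Y n).1 → ↥Y.1, Continuous f ∧
      ∀ x s, f (shiftAct (nearSh π K Y n) x s) = shiftAct Y (f x) (π s) := by
  have hl : ∀ q, π (Function.surjInv hπ q) = q := Function.surjInv_eq hπ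
  refine ⟨fun x => ⟨fun q m => x.1 (Function.surjInv hπ q) (m + n), ?_⟩, ?_, ?_⟩
  · obtain ⟨x, ⟨x0, y⟩, ⟨hx, hy⟩, rfl⟩ := x
    have : (fun q m => near π n x0 y (Function.surjInv hπ q) (m + n)) = y := by
      funext q m
      have h1 : ¬ (m + n < n) := by omega
      have h2 : m + n - n = m := by omega
      simp only [near, h1, if_false, h2, hl]
    show (fun q m => near π n x0 y (Function.surjInv hπ q) (m + n)) ∈ Y.1
    rw [this]; exact hy
  · refine Continuous.subtype_mk ?_ _
    exact continuous_pi fun q => continuous_pi fun m =>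
      (continuous_apply (m + n)).comp ((continuous_apply _).comp continuous_subtype_val)
  · rintro ⟨x, ⟨x0, y⟩, ⟨hx, hy⟩, rfl⟩ s
    apply Subtype.ext
    show (fun q m => near π n x0 y (s * Function.surjInv hπ q) (m + n)) =
      fun q m => near π n x0 y (Function.surjInv hπ (π s * q)) (m + n)
    funext q m
    have h1 : ¬ (m + n < n) := by omega
    simp only [near, h1, if_false, map_mul, hl]

theorem nearSh_tendsto {G Q : Type} [Group G] [Group Q] (π : G →* Q) (K : Sh G) (Y : Sh Q) :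
    @Tendsto ℕ (Sh G) (fun n => nearSh π K Y n) atTop (@nhds (Sh G) (vietoris G) K) := by
  let _τ : TopologicalSpace (Set (G → ℕ → unitInterval)) := vset G
  let _σ : TopologicalSpace (Sh G) := vietoris G
  rw [nhds_induced, tendsto_comap_iff, TopologicalSpace.tendsto_nhds_generateFrom_iff]
  rintro S (⟨U, hU, rfl⟩ | ⟨U, hU, rfl⟩) hKS
  · have hKU : K.1 ⊆ U := hKS
    obtain ⟨V, hV, _, hV2⟩ := lebesgue_number_of_compact_open K.2.2.1.isCompact hU hKU
    filter_upwards [near_unif π hV] with n hn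
    show (nearSh π K Y n).1 ⊆ U
    rintro _ ⟨⟨x, y⟩, ⟨hx, _⟩, rfl⟩
    exact hV2 x hx (hn x y)
  · obtain ⟨x, hx, hxU⟩ : (K.1 ∩ U).Nonempty := hKS
    obtain ⟨y, hy⟩ := Y.2.1
    obtain ⟨V, hV, _, hV2⟩ := lebesgue_number_of_compact_open (isCompact_singleton (x := x)) hU
      (Set.singleton_subset_iff.2 hxU)
    filter_upwards [near_unif π hV] with n hn
    show ((nearSh π K Y n).1 ∩ U).Nonempty
    exact ⟨near π n x y, ⟨(x, y), ⟨hx, hy⟩, rfl⟩, hV2 x rfl (hn x y)⟩

/-! ### The tower -/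

/-- property (H) for the shift action of a subshift -/
def ShH {G : Type} [Group G] (Y : Sh G) : Prop := @HH ↥Y.1 G (borel ↥Y.1) _ (shiftRAct Y)

/-- one step of the tower -/
theorem tower_step {G Q : Type} [Group G] [Group Q] [Countable G] (π : G →* Q)
    (hπ : Function.Surjective π)
    (hloc : ∀ M : Subgroup G, M ≤ π.ker → M.FG → FinAsdim ↥M) (h : ∃ Y : Sh Q, ShH Y) :
    ∃ W : Sh G, ShH W := by
  obtain ⟨Y, hY⟩ := h
  obtain ⟨Z, hZ⟩ := exists_rich G
  obtain ⟨W, f, g, hf, hg, hfe, hge⟩ := exists_comb π hπ Y Z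
  refine ⟨W, ?_⟩
  let _ : MeasurableSpace ↥W.1 := borel ↥W.1
  let _ : MeasurableSpace ↥Y.1 := borel ↥Y.1
  let _ : MeasurableSpace ↥Z.1 := borel ↥Z.1
  have : BorelSpace ↥W.1 := ⟨rfl⟩
  have : BorelSpace ↥Y.1 := ⟨rfl⟩
  have : BorelSpace ↥Z.1 := ⟨rfl⟩
  have hr : Rich (shiftRAct W) := Rich.pull (B := shiftRAct Z) hZ g hg.measurable hge
  refine ext_core (shiftRAct W) (shiftRAct Y) π hπ f hf.measurable hfe hY ?_
  intro J σ S M hσ hS hM hfg hJ
  obtain ⟨D, hD⟩ := GAs_of_FinAsdim (hloc M hM hfg)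
  exact FA_of_rich hr J σ hσ S hS M D hD hJ

theorem dense_of_ShH {G Q : Type} [Group G] [Group Q] [Countable G] [Countable Q] (π : G →* Q)
    (hπ : Function.Surjective π) (hker : ∀ g, π g = 1 → g = 1) (h : ∃ Y : Sh Q, ShH Y) :
    @Dense (Sh G) (vietoris G) {K : Sh G | HypF K} := by
  obtain ⟨Y, hY⟩ := h
  let _σ : TopologicalSpace (Sh G) := vietoris G
  intro K
  refine mem_closure_of_tendsto (f := fun n => nearSh π K Y n) (b := atTop)
    (nearSh_tendsto π K Y) (Eventually.of_forall fun n => ?_)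
  show HypF (nearSh π K Y n)
  obtain ⟨f, hf, hfe⟩ := nearSh_map π hπ K Y n
  let _ : MeasurableSpace ↥(nearSh π K Y n).1 := borel ↥(nearSh π K Y n).1
  let _ : MeasurableSpace ↥Y.1 := borel ↥Y.1
  have : BorelSpace ↥(nearSh π K Y n).1 := ⟨rfl⟩
  have : BorelSpace ↥Y.1 := ⟨rfl⟩
  exact hypF_of_HH _ (HH.pull (B := shiftRAct Y) hY π hπ hker f hf.measurable hfe)

theorem ShH_of_subsingleton {Q : Type} [Group Q] [Subsingleton Q] : ∃ Y : Sh Q, ShH Y := by
  refine ⟨⟨Set.univ, Set.univ_nonempty, isClosed_univ, fun _ _ _ => Set.mem_univ _⟩, ?_⟩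
  let _ : MeasurableSpace ↥(Set.univ : Set (Q → ℕ → unitInterval)) := borel _
  refine ⟨fun _ _ => 1, fun m b => ?_, fun m => ⟨{1}, fun x => by simp⟩, fun x s => ?_⟩
  · by_cases hb : (1 : Q) = b
    · have : {x : ↥(Set.univ : Set (Q → ℕ → unitInterval)) | (1 : Q) = b} = Set.univ := by
        ext x; simp [hb]
      rw [this]; exact MeasurableSet.univ
    · have : {x : ↥(Set.univ : Set (Q → ℕ → unitInterval)) | (1 : Q) = b} = ∅ := by
        ext x; simp [hb]
      rw [this]; exact MeasurableSet.empty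
  · have : {m : ℕ | (1 : Q) ≠ s * 1} = ∅ := by
      ext m; simp [Subsingleton.elim s 1]
    exact this ▸ Set.finite_empty

/-- finitely generated subgroups of the kernel lift -/
theorem lift_fg {G Q : Type} [Group G] [Group Q] (φ : G →* Q) (N : Subgroup G)
    (M : Subgroup Q) (hM : M ≤ N.map φ) (hfg : M.FG) :
    ∃ M₀ : Subgroup G, M₀ ≤ N ∧ M₀.FG ∧ M₀.map φ = M := by
  classical
  obtain ⟨S, hS⟩ := hfg
  have h1 : ∀ s : ↥S, ∃ g ∈ N, φ g = s.1 := by
    intro s
    have : s.1 ∈ M := by rw [← hS]; exact Subgroup.subset_closure s.2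
    obtain ⟨g, hg, hg2⟩ := hM this
    exact ⟨g, hg, hg2⟩
  choose g hg1 hg2 using h1
  refine ⟨Subgroup.closure (Set.range g), ?_, ?_, ?_⟩
  · rw [Subgroup.closure_le]
    rintro _ ⟨s, rfl⟩
    exact hg1 s
  · exact (Subgroup.fg_iff _).2 ⟨Set.range g, rfl, Set.finite_range g⟩
  · rw [MonoidHom.map_closure, ← hS]
    congr 1
    ext q
    constructor
    · rintro ⟨_, ⟨s, rfl⟩, rfl⟩
      rw [hg2]; exact s.2
    · intro hq
      exact ⟨g ⟨q, hq⟩, ⟨⟨q, hq⟩, rfl⟩, hg2 _⟩

/-- Density for finite normal series with factors of locally finite asymptotic dimension. -/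
theorem dense_of_series (G : Type) [Group G] [Countable G] (k : ℕ) (N : ℕ → Subgroup G)
    [∀ i, (N i).Normal] (h0 : N 0 = ⊤) (hk : N k = ⊥) (hanti : ∀ i, N (i + 1) ≤ N i)
    (hfac : ∀ i < k, ∀ M : Subgroup G, M ≤ N i → M.FG →
      FinAsdim ↥(M.map (QuotientGroup.mk' (N (i + 1))))) :
    @Dense (Sh G) (vietoris G) {K : Sh G | HypF K} := by
  have hcount : ∀ i, Countable (G ⧸ N i) :=
    fun i => (QuotientGroup.mk_surjective (s := N i)).countable
  have key : ∀ i, i ≤ k → ∃ Y : Sh (G ⧸ N i), ShH Y := by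
    intro i
    induction i with
    | zero =>
      intro _
      have : Subsingleton (G ⧸ N 0) := by
        rw [h0]; exact QuotientGroup.subsingleton_quotient_top
      exact ShH_of_subsingleton
    | succ i ih =>
      intro hi
      have hle : N (i + 1) ≤ (N i).comap (MonoidHom.id G) := by
        rw [Subgroup.comap_id]; exact hanti i
      let π : G ⧸ N (i + 1) →* G ⧸ N i := QuotientGroup.map (N (i + 1)) (N i) (MonoidHom.id G) hle
      have hπ : Function.Surjective π := by
        intro q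
        obtain ⟨g, rfl⟩ := QuotientGroup.mk_surjective q
        exact ⟨(g : G ⧸ N (i + 1)), rfl⟩
      refine tower_step π hπ ?_ (ih (by omega))
      intro M hM hfg
      have hM' : M ≤ (N i).map (QuotientGroup.mk' (N (i + 1))) := by
        intro q hq
        obtain ⟨g, rfl⟩ := QuotientGroup.mk_surjective q
        have h1 : π (g : G ⧸ N (i + 1)) = 1 := hM hq
        have h2 : (g : G ⧸ N i) = 1 := h1
        exact ⟨g, (QuotientGroup.eq_one_iff g).1 h2, rfl⟩
      obtain ⟨M₀, h1, h2, h3⟩ := lift_fg (QuotientGroup.mk' (N (i + 1))) (N i) M hM' hfg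
      rw [← h3]
      exact hfac i (by omega) M₀ h1 h2
  refine dense_of_ShH (QuotientGroup.mk' (N k)) (QuotientGroup.mk'_surjective _) ?_
    (key k le_rfl)
  intro g hg
  have h1 : g ∈ N k := (QuotientGroup.eq_one_iff g).1 hg
  rw [hk] at h1
  exact h1

end Pool.Agent.Helper44.Sub
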