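import Mathlib
import Pool.Agent.Helper44.Sub.Defs

/-!
Block B13a (MP_bdf835_lc): one layer pulled back from the quotient.
-/

set_option autoImplicit false

namespace Pool.Agent.Helper44.Sub

variable {X G : Type} [MeasurableSpace X] [Group G]

theorem MF.compFin {B C : Type} [Finite B] {v : X → B} (hv : MF v) (F : B → C) :
    MF (fun x => F (v x)) := by
  intro b
  have h : {x | F (v x) = b} = ⋃ i ∈ {i : B | F i = b}, {x | v x = i} := by
    ext x; simp
  rw [h]
  exact MeasurableSet.biUnion (Set.to_countable _) (fun i _ => hv i)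

/-- The layer on the quotient group: a cover by `D` sets of multiplicity controlled by the
colouring, with coherent leader maps. -/
theorem layer_quot {Q : Type} [Group Q] (D : ℕ) (hD : GAs Q D) (R : Finset Q) :
    ∃ (B : Finset Q) (c : Q → Fin D) (W : Fin D → Set Q) (χ : Fin D → Q → Q),
      (∀ a q, χ a q ∈ B) ∧ (∀ q, ∀ s ∈ R, q ∈ W (c (q * s))) ∧
      ∀ a q, ∀ r ∈ R, q ∈ W a → q * r ∈ W a → χ a q = r * χ a (q * r) := by
  classical
  set R1 : Finset Q := (R ∪ R.image (fun r => r⁻¹)) ∪ {1} with hR1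
  have hRR1 : ∀ r ∈ R, r ∈ R1 := by
    intro r hr; simp [hR1, hr]
  have hR1inv : ∀ r ∈ R1, r⁻¹ ∈ R1 := by
    intro r hr
    simp only [hR1, Finset.mem_union, Finset.mem_image, Finset.mem_singleton] at hr ⊢
    rcases hr with (hr | ⟨s, hs, rfl⟩) | rfl
    · left; right; exact ⟨r, hr, rfl⟩
    · left; left; simpa using hs
    · right; simp
  set R3 : Finset Q := ((R1 ×ˢ R1) ×ˢ R1).image (fun p => p.1.1 * p.1.2 * p.2) with hR3
  have hmem3 : ∀ a ∈ R1, ∀ b ∈ R1, ∀ c ∈ R1, a * b * c ∈ R3 := by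
    intro a ha b hb c hc
    rw [hR3, Finset.mem_image]
    exact ⟨((a, b), c), by simp [ha, hb, hc], rfl⟩
  obtain ⟨B, c, χ, hB, hχ⟩ := hD R3
  let W : Fin D → Set Q := fun a => {q | ∃ s ∈ R1, c (q * s) = a}
  let ch : Fin D → Q → Q := fun a q => if h : ∃ s ∈ R1, c (q * s) = a then h.choose else 1
  have hch : ∀ a q, q ∈ W a → ch a q ∈ R1 ∧ c (q * ch a q) = a := by
    intro a q hq
    have h : ∃ s ∈ R1, c (q * s) = a := hq
    simp only [ch, dif_pos h]
    exact h.choose_spec
  have hch1 : ∀ a q, ch a q ∈ R1 := by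
    intro a q
    by_cases hq : q ∈ W a
    · exact (hch a q hq).1
    · have h : ¬ ∃ s ∈ R1, c (q * s) = a := hq
      simp only [ch, dif_neg h]
      simp [hR1]
  refine ⟨(R1 ×ˢ B).image (fun p => p.1 * p.2), c, W, fun a q => ch a q * χ (q * ch a q), ?_, ?_,
    ?_⟩
  · intro a q
    rw [Finset.mem_image]
    exact ⟨(ch a q, χ (q * ch a q)), by simp [hch1 a q, hB], rfl⟩
  · intro q s hs
    exact ⟨s, hRR1 s hs, rfl⟩
  · intro a q r hr hq hqr
    obtain ⟨h1, h2⟩ := hch a q hq
    obtain ⟨h3, h4⟩ := hch a (q * r) hqr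
    set s := ch a q with hs
    set s' := ch a (q * r) with hs'
    have h5 := hχ (q * s) (s⁻¹ * r * s') (hmem3 _ (hR1inv _ h1) _ (hRR1 _ hr) _ h3) (by
      rw [h2, show q * s * (s⁻¹ * r * s') = q * r * s' by group, h4])
    rw [show q * s * (s⁻¹ * r * s') = q * r * s' by group] at h5
    show s * χ (q * s) = r * (s' * χ (q * r * s'))
    rw [h5]
    group

/-- B13a (one layer pulled back from the quotient). -/
theorem layer [Countable G] (A : RAct X G) (hr : Rich A) (N : Subgroup G) [N.Normal] (D : ℕ)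
    (hD : GAs (G ⧸ N) D) (R : Finset G) (V : Subgroup G) (hVN : V ≤ N) (hV : V.FG) :
    ∃ (Ψ : Finset G) (c : X → Fin D) (W : Fin D → Set X) (ψ : Fin D → X → G),
      MF c ∧ (∀ a, MeasurableSet (W a)) ∧ (∀ a, MF (ψ a)) ∧ (∀ a x, ψ a x ∈ Ψ) ∧
      (∀ x, ∀ s ∈ R, x ∈ W (c (A.act x s))) ∧
      (∀ a x, ∀ r ∈ R, x ∈ W a → A.act x r ∈ W a →
        (ψ a x)⁻¹ * r * ψ a (A.act x r) ∈ N) ∧
      ∀ a x, ∀ v ∈ V, (A.act x v ∈ W a ↔ x ∈ W a) ∧ ψ a (A.act x v) = ψ a x := by
  classical
  obtain ⟨B, c0, W0, χ0, hB, h1, h2⟩ := layer_quot D hD (R.image (fun r : G => (r : G ⧸ N)))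
  obtain ⟨S, hS⟩ := hV
  let lift : G ⧸ N → G := Quotient.out
  have hlift : ∀ q : G ⧸ N, ((lift q : G) : G ⧸ N) = q := fun q => Quotient.out_eq' q
  let Ψ : Finset G := B.image lift
  let Λ := Fin D × (Fin D → Bool) × (Fin D → ↥Ψ)
  let e : Λ ≃ Fin (Fintype.card Λ) := Fintype.equivFin Λ
  let P : (G → Λ) → Prop := fun f =>
    (∀ s ∈ R, (f 1).2.1 (f s).1 = true) ∧
    (∀ a, ∀ r ∈ R, (f 1).2.1 a = true → (f r).2.1 a = true →
      ((f 1).2.2 a : G)⁻¹ * r * ((f r).2.2 a : G) ∈ N) ∧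
    (∀ v ∈ S, (f v).2.1 = (f 1).2.1 ∧ (f v).2.2 = (f 1).2.2)
  have hsol : ∃ f : G → Λ, ∀ g, P (fun s => f (g * s)) := by
    refine ⟨fun g => (c0 (g : G ⧸ N), fun a => decide ((g : G ⧸ N) ∈ W0 a),
      fun a => ⟨lift (χ0 a (g : G ⧸ N)), Finset.mem_image_of_mem _ (hB _ _)⟩), ?_⟩
    intro g
    refine ⟨?_, ?_, ?_⟩
    · intro s hs
      simp only [mul_one, decide_eq_true_eq, QuotientGroup.mk_mul]
      exact h1 _ _ (Finset.mem_image_of_mem (fun r : G => (r : G ⧸ N)) hs)
    · intro a r hr' ha hb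
      simp only [mul_one, decide_eq_true_eq, QuotientGroup.mk_mul] at ha hb ⊢
      have h3 := h2 a _ _ (Finset.mem_image_of_mem (fun r : G => (r : G ⧸ N)) hr') ha hb
      rw [← QuotientGroup.eq_one_iff]
      rw [QuotientGroup.mk_mul, QuotientGroup.mk_mul, QuotientGroup.mk_inv, hlift, hlift, h3]
      group
    · intro v hv
      have hvN : v ∈ N := hVN (by rw [← hS]; exact Subgroup.subset_closure hv)
      have h3 : ((g * v : G) : G ⧸ N) = (g : G ⧸ N) := by
        rw [QuotientGroup.mk_mul, (QuotientGroup.eq_one_iff v).mpr hvN, mul_one]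
      simp only [mul_one, h3, and_self]
  obtain ⟨f0, hf0⟩ := hsol
  obtain ⟨v, hv, hv2⟩ := hr (Fintype.card Λ) (insert 1 (R ∪ S)) (fun f => P (fun s => e.symm (f s)))
    (by
      intro f f' hff hf
      have e1 : f' 1 = f 1 := (hff 1 (by simp)).symm
      obtain ⟨p1, p2, p3⟩ := hf
      refine ⟨?_, ?_, ?_⟩
      · intro s hs
        have e2 : f' s = f s := (hff s (by simp [hs])).symm
        simp only [e1, e2]
        exact p1 s hs
      · intro a s hs
        have e2 : f' s = f s := (hff s (by simp [hs])).symm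
        simp only [e1, e2]
        exact p2 a s hs
      · intro s hs
        have e2 : f' s = f s := (hff s (by simp [hs])).symm
        simp only [e1, e2]
        exact p3 s hs)
    ⟨fun g => e (f0 g), by
      intro g
      have := hf0 g
      simpa using this⟩
  refine ⟨Ψ, fun x => (e.symm (v x)).1, fun a => {x | (e.symm (v x)).2.1 a = true},
    fun a x => ((e.symm (v x)).2.2 a : G), hv.compFin (fun i => (e.symm i).1), ?_, ?_, ?_, ?_, ?_, ?_⟩
  · intro a
    exact hv.compFin (fun i => (e.symm i).2.1 a) true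
  · intro a
    exact hv.compFin (fun i => ((e.symm i).2.2 a : G))
  · intro a x
    exact ((e.symm (v x)).2.2 a).2
  · intro x s hs
    have h3 := (hv2 x).1 s hs
    simpa [A.one] using h3
  · intro a x r hr' ha hb
    have h3 := (hv2 x).2.1 a r hr'
    simp only [A.one] at h3
    exact h3 ha hb
  · have hgen : ∀ u ∈ S, ∀ x, (e.symm (v (A.act x u))).2.1 = (e.symm (v x)).2.1 ∧
        (e.symm (v (A.act x u))).2.2 = (e.symm (v x)).2.2 := by
      intro u hu x
      have h3 := (hv2 x).2.2 u hu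
      simp only [A.one] at h3
      exact h3
    have hall : ∀ u ∈ V, ∀ x, (e.symm (v (A.act x u))).2.1 = (e.symm (v x)).2.1 ∧
        (e.symm (v (A.act x u))).2.2 = (e.symm (v x)).2.2 := by
      intro u hu
      rw [← hS] at hu
      induction hu using Subgroup.closure_induction with
      | mem u hu => exact hgen u hu
      | one => intro x; rw [A.one]; exact ⟨rfl, rfl⟩
      | mul u w _ _ ihu ihw =>
        intro x
        rw [← A.mul]
        exact ⟨(ihw _).1.trans (ihu _).1, (ihw _).2.trans (ihu _).2⟩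
      | inv u _ ih =>
        intro x
        have h4 := ih (A.act x u⁻¹)
        rw [A.mul, inv_mul_cancel, A.one] at h4
        exact ⟨h4.1.symm, h4.2.symm⟩
    intro a x u hu
    obtain ⟨h3, h4⟩ := hall u hu x
    constructor
    · simp only [Set.mem_setOf_eq, h3]
    · show ((e.symm (v (A.act x u))).2.2 a : G) = ((e.symm (v x)).2.2 a : G)
      rw [h4]

end Pool.Agent.Helper44.Sub
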