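import Mathlib
import Pool.Agent.Helper44.Sub.Defs
import Pool.Agent.Helper44.Sub.Defs2
import Pool.Agent.Helper44.Sub.Layer

/-!
Block S3 (MP_bdf835_lc, stage 2): the orbit groupoid of a subgroup over a rich action.
-/

set_option autoImplicit false

namespace Pool.Agent.Helper44.Sub

variable {X G : Type} [MeasurableSpace X] [Group G]

/-- The pull back to the group of the colouring and of the leader map of a quotient of a
subgroup. -/
theorem group_FAN (N : Subgroup G) [N.Normal] (M : Subgroup G) (D : ℕ)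
    (hM : GAs ↥(M.map (QuotientGroup.mk' N)) D) (R : Finset G) :
    ∃ (T : Finset G) (c : G → Fin D) (χ : G → G), (∀ g, χ g ∈ T) ∧ (∀ t ∈ T, t ∈ M) ∧
      (∀ g, ∀ r ∈ R, r ∈ M → c g = c (g * r) → (χ g)⁻¹ * r * χ (g * r) ∈ N) ∧
      ∀ g ν, ν ∈ N → ν ∈ M → c (g * ν) = c g ∧ χ (g * ν) = χ g := by
  classical
  have hmem : ∀ r : ↥M, QuotientGroup.mk' N (r : G) ∈ M.map (QuotientGroup.mk' N) :=
    fun r => Subgroup.mem_map_of_mem _ r.2
  let im : ↥M →* ↥(M.map (QuotientGroup.mk' N)) :=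
    { toFun := fun r => ⟨QuotientGroup.mk' N (r : G), hmem r⟩
      map_one' := by apply Subtype.ext; simp
      map_mul' := by intro a b; apply Subtype.ext; simp }
  have him : ∀ r : ↥M, ((im r : ↥(M.map (QuotientGroup.mk' N))) : G ⧸ N) = ((r : G) : G ⧸ N) :=
    fun r => rfl
  have hsurj : Function.Surjective im := by
    rintro ⟨b, hb⟩
    obtain ⟨a, ha, rfl⟩ := hb
    exact ⟨⟨a, ha⟩, rfl⟩
  let l : ↥(M.map (QuotientGroup.mk' N)) → ↥M := Function.surjInv hsurj
  have hl : ∀ b, im (l b) = b := Function.surjInv_eq hsurj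
  -- the scale
  let R' : Finset ↥(M.map (QuotientGroup.mk' N)) :=
    (R.subtype (fun r => r ∈ M)).image (fun r => im r)
  obtain ⟨B, c, χ, hB, hχ⟩ := hM R'
  -- the coset representative
  let t : G → G := fun g => ((g : G) : G ⧸ M).out
  have ht : ∀ g, (t g)⁻¹ * g ∈ M := by
    intro g
    have h : ((t g : G) : G ⧸ M) = (g : G ⧸ M) := Quotient.out_eq' _
    exact QuotientGroup.eq.mp h
  have ht2 : ∀ g, ∀ r ∈ M, t (g * r) = t g := by
    intro g r hr
    have h : ((g * r : G) : G ⧸ M) = (g : G ⧸ M) := QuotientGroup.mk_mul_of_mem g hr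
    simp only [t, h]
  let m : G → ↥M := fun g => ⟨(t g)⁻¹ * g, ht g⟩
  have hm : ∀ g (r : ↥M), m (g * r) = m g * r := by
    intro g r
    apply Subtype.ext
    show (t (g * (r : G)))⁻¹ * (g * r) = (t g)⁻¹ * g * r
    rw [ht2 g r r.2, mul_assoc]
  refine ⟨B.image (fun b => (l b : G)), fun g => c (im (m g)), fun g => (l (χ (im (m g))) : G),
    ?_, ?_, ?_, ?_⟩
  · intro g
    exact Finset.mem_image_of_mem (fun b => (l b : G)) (hB _)
  · intro s hs
    obtain ⟨b, _, rfl⟩ := Finset.mem_image.mp hs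
    exact (l b).2
  · intro g r hr hrM hc
    have hr' : im ⟨r, hrM⟩ ∈ R' := by
      refine Finset.mem_image_of_mem (fun r => im r) ?_
      simpa using hr
    have e1 : m (g * r) = m g * ⟨r, hrM⟩ := hm g ⟨r, hrM⟩
    have h3 := hχ (im (m g)) (im ⟨r, hrM⟩) hr' (by
      simp only [e1, map_mul] at hc
      exact hc)
    simp only [e1, map_mul]
    rw [← QuotientGroup.eq_one_iff, QuotientGroup.mk_mul, QuotientGroup.mk_mul,
      QuotientGroup.mk_inv, ← him, ← him, hl, hl, h3, Subgroup.coe_mul]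
    have h4 : ((im ⟨r, hrM⟩ : ↥(M.map (QuotientGroup.mk' N))) : G ⧸ N) = (r : G ⧸ N) := him _
    rw [h4]
    group
  · intro g ν hνN hνM
    have e1 : m (g * ν) = m g * ⟨ν, hνM⟩ := hm g ⟨ν, hνM⟩
    have e2 : im ⟨ν, hνM⟩ = 1 := by
      apply Subtype.ext
      show ((ν : G) : G ⧸ N) = 1
      exact (QuotientGroup.eq_one_iff ν).mpr hνN
    simp only [e1, map_mul, e2, mul_one, and_self]

/-- S3 (orbit groupoids over a rich action). -/
theorem FAN_orb [Countable G] {A : RAct X G} (hr : Rich A) (N : Subgroup G) [N.Normal]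
    (M : Subgroup G) (D : ℕ) (hM : GAs ↥(M.map (QuotientGroup.mk' N)) D) :
    FAN N (orbG A M) D := by
  classical
  intro R F
  obtain ⟨T, c0, χ0, h1, h2, h3, h4⟩ := group_FAN N M D hM R
  let Λ := Fin D × ↥T
  let e : Λ ≃ Fin (Fintype.card Λ) := Fintype.equivFin Λ
  let P : (G → Λ) → Prop := fun f =>
    (∀ r ∈ R, r ∈ M → (f 1).1 = (f r).1 → ((f 1).2 : G)⁻¹ * r * ((f r).2 : G) ∈ N) ∧
    (∀ ν ∈ F, ν ∈ N → ν ∈ M → f ν = f 1)
  have hsol : ∃ f : G → Λ, ∀ g, P (fun s => f (g * s)) := by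
    refine ⟨fun g => (c0 g, ⟨χ0 g, h1 g⟩), ?_⟩
    intro g
    refine ⟨?_, ?_⟩
    · intro r hr hrM hc
      simp only [mul_one] at hc ⊢
      exact h3 g r hr hrM hc
    · intro ν _ hνN hνM
      obtain ⟨e1, e2⟩ := h4 g ν hνN hνM
      simp only [mul_one, e1, e2]
  obtain ⟨f0, hf0⟩ := hsol
  obtain ⟨v, hv, hv2⟩ := hr (Fintype.card Λ) (insert 1 (R ∪ F)) (fun f => P (fun s => e.symm (f s)))
    (by
      intro f f' hff hf
      have e1 : f' 1 = f 1 := (hff 1 (by simp)).symm
      obtain ⟨p1, p2⟩ := hf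
      refine ⟨?_, ?_⟩
      · intro s hs
        have e2 : f' s = f s := (hff s (by simp [hs])).symm
        simp only [e1, e2]
        exact p1 s hs
      · intro s hs
        have e2 : f' s = f s := (hff s (by simp [hs])).symm
        simp only [e1, e2]
        exact p2 s hs)
    ⟨fun g => e (f0 g), by
      intro g
      have := hf0 g
      simpa using this⟩
  refine ⟨T, fun x => (e.symm (v x)).1, fun x => ((e.symm (v x)).2 : G),
    hv.compFin (fun i => (e.symm i).1), hv.compFin (fun i => ((e.symm i).2 : G)),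
    fun x => (e.symm (v x)).2.2, fun x => h2 _ (e.symm (v x)).2.2, ?_, ?_⟩
  · intro x r hr hJ hc
    have h5 := (hv2 x).1 r hr hJ
    simp only [A.one] at h5
    exact h5 hc
  · intro x ν hν hνN hJ
    have h5 := (hv2 x).2 ν hν hνN hJ
    simp only [A.one] at h5
    simp only [h5, and_self]

end Pool.Agent.Helper44.Sub
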