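import Pool.Agent.Helper44.Sub.Defs

/-!
Block B5 of MP_bdf835_lc (helper84): finite asymptotic dimension of a groupoid modelled on a group of
finite asymptotic dimension, over a rich action.
-/

set_option autoImplicit false

namespace Pool.Agent.Helper44.Sub

namespace B5

variable {X G : Type} [MeasurableSpace X] [Group G]

theorem MF.set {B : Type} [Countable B] {f : X → B} (hf : MF f) (S : Set B) :
    MeasurableSet {x | f x ∈ S} := by
  have h : {x | f x ∈ S} = ⋃ b ∈ S, {x | f x = b} := by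
    ext x; simp
  rw [h]
  exact MeasurableSet.biUnion (Set.to_countable S) fun b _ => hf b

theorem MF.map {B C : Type} [Countable B] {f : X → B} (hf : MF f) (g : B → C) :
    MF (fun x => g (f x)) := fun c => MF.set hf {b | g b = c}

theorem MF.bind {B C : Type} [Countable B] {f : X → B} (hf : MF f) {F : B → X → C}
    (hF : ∀ b, MF (F b)) : MF (fun x => F (f x) x) := by
  intro c
  have h : {x | F (f x) x = c} = ⋃ b, ({x | f x = b} ∩ {x | F b x = c}) := by
    ext x; simp
  rw [h]
  exact MeasurableSet.iUnion fun b => (hf b).inter (hF b c)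

theorem MF.act {C : Type} {f : X → C} (hf : MF f) (A : RAct X G) (s : G) :
    MF (fun x => f (A.act x s)) := fun c => A.meas s (hf c)

theorem MF.rel₂ {B C : Type} [Countable B] [Countable C] {f : X → B} {g : X → C} (hf : MF f)
    (hg : MF g) (r : B → C → Prop) : MeasurableSet {x | r (f x) (g x)} := by
  have h : {x | r (f x) (g x)} = ⋃ b, ({x | f x = b} ∩ {x | g x ∈ {c | r b c}}) := by
    ext x; simp
  rw [h]
  exact MeasurableSet.iUnion fun b => (hf b).inter (MF.set hg _)

/-- the model on the group: colouring and leaders on all of `G` along the left cosets of `M` -/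
theorem model (M : Subgroup G) (D : ℕ) (hM : GAs ↥M D) (RM : Finset ↥M) :
    ∃ (B : Finset ↥M) (c : G → Fin D) (χ : G → ↥M), (∀ g, χ g ∈ B) ∧
      ∀ g, ∀ r ∈ RM, c g = c (g * (r : G)) → χ g = r * χ (g * (r : G)) := by
  obtain ⟨B, c, χ, h1, h2⟩ := hM RM
  have hq : ∀ g : G, ((g : G ⧸ M).out)⁻¹ * g ∈ M := fun g =>
    QuotientGroup.leftRel_apply.1 (Quotient.exact (Quotient.out_eq (g : G ⧸ M)))
  have hco : ∀ (g : G) (r : ↥M), ((g * (r : G) : G) : G ⧸ M) = (g : G ⧸ M) := by
    intro g r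
    exact (QuotientGroup.eq.2 (by simp)).symm
  let q : G → ↥M := fun g => ⟨((g : G ⧸ M).out)⁻¹ * g, hq g⟩
  have hqr : ∀ (g : G) (r : ↥M), q (g * (r : G)) = q g * r := by
    intro g r
    apply Subtype.ext
    show (((g * (r : G) : G) : G ⧸ M).out)⁻¹ * (g * (r : G)) = ((g : G ⧸ M).out)⁻¹ * g * r
    rw [hco, mul_assoc]
  refine ⟨B, fun g => c (q g), fun g => χ (q g), fun g => h1 _, ?_⟩
  intro g r hr h
  show χ (q g) = r * χ (q (g * (r : G)))
  have h' : c (q g) = c (q (g * (r : G))) := h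
  rw [hqr] at h' ⊢
  exact h2 (q g) r hr h'

/-- the model is transported to the space by richness -/
theorem transport {A : RAct X G} (hr : Rich A) (M : Subgroup G) (D : ℕ) (hM : GAs ↥M D)
    (RM : Finset ↥M) :
    ∃ (B : Finset ↥M) (c : X → Fin D) (χ : X → ↥M), MF c ∧ MF χ ∧ (∀ x, χ x ∈ B) ∧
      ∀ x, ∀ r ∈ RM, c x = c (A.act x (r : G)) → χ x = r * χ (A.act x (r : G)) := by
  classical
  obtain ⟨B, c, χ, h1, h2⟩ := model M D hM RM
  let e : (Fin D × ↥B) ≃ Fin (Fintype.card (Fin D × ↥B)) := Fintype.equivFin _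
  obtain ⟨v, hv, hvQ⟩ := hr (Fintype.card (Fin D × ↥B)) (insert 1 (RM.image (fun r : ↥M => (r : G))))
    (fun f => ∀ r ∈ RM, (e.symm (f 1)).1 = (e.symm (f (r : G))).1 →
      ((e.symm (f 1)).2 : ↥M) = r * ((e.symm (f (r : G))).2 : ↥M))
    (by
      intro f f' hff hf r hrm
      have e1 : f 1 = f' 1 := hff 1 (by simp)
      have e2 : f (r : G) = f' (r : G) := hff (r : G)
        (Finset.mem_insert_of_mem (Finset.mem_image_of_mem _ hrm))
      rw [← e1, ← e2]
      exact hf r hrm)
    ⟨fun g => e (c g, ⟨χ g, h1 g⟩), by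
      intro g r hrm
      simp only [mul_one, Equiv.symm_apply_apply]
      exact h2 g r hrm⟩
  refine ⟨B, fun x => (e.symm (v x)).1, fun x => ((e.symm (v x)).2 : ↥M), ?_, ?_, ?_, ?_⟩
  · exact MF.map hv (fun k => (e.symm k).1)
  · exact MF.map hv (fun k => ((e.symm k).2 : ↥M))
  · intro x
    exact (e.symm (v x)).2.2
  · intro x r hrm h
    have := hvQ x r hrm
    simp only [A.one] at this
    exact this h

end B5

open B5 in
/-- B5 (finite asymptotic dimension of a groupoid modelled on a group of finite asymptotic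
dimension, over a rich action). The separation property of the action is assumed here. -/
theorem FA_of_rich_sep {X G : Type} [MeasurableSpace X] [Group G] [Countable G] {A : RAct X G}
    (hr : Rich A) (hsep : Sep A) (J : Gpd A) (σ : X → G)
    (hσ : MF σ) (S : Finset G) (hS : ∀ x, σ x ∈ S) (M : Subgroup G) (D : ℕ) (hM : GAs ↥M D)
    (hJ : ∀ x s, J.rel x s → (σ x)⁻¹ * s * σ (A.act x s) ∈ M) : ∃ D, FA J D := by
  classical
  refine ⟨D, fun R => ?_⟩
  -- the finite set of cocycle values
  let P : Finset G := (S ×ˢ R ×ˢ S).image (fun p => p.1⁻¹ * p.2.1 * p.2.2)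
  let RM : Finset ↥M := P.subtype (fun g => g ∈ M)
  obtain ⟨B, c', χ', hc', hχ', hB, hcoh⟩ := transport hr M D hM RM
  let c : X → Fin D := fun x => c' (A.act x (σ x))
  let χh : X → G := fun x => σ x * (χ' (A.act x (σ x)) : G)
  have hc : MF c := MF.bind hσ (F := fun a x => c' (A.act x a)) (fun a => MF.act hc' A a)
  have hχh : MF χh := by
    refine MF.bind hσ (F := fun a x => a * (χ' (A.act x a) : G)) (fun a => ?_)
    exact MF.map (MF.act hχ' A a) (fun m : ↥M => a * (m : G))
  have hkey : ∀ x, ∀ r ∈ R, J.rel x r → c x = c (A.act x r) → χh x = r * χh (A.act x r) := by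
    intro x r hrR hJr hcc
    have hm := hJ x r hJr
    set m : ↥M := ⟨(σ x)⁻¹ * r * σ (A.act x r), hm⟩ with hmdef
    have hmRM : m ∈ RM := by
      rw [Finset.mem_subtype]
      refine Finset.mem_image.2 ⟨(σ x, r, σ (A.act x r)), ?_, rfl⟩
      simp only [Finset.mem_product]
      exact ⟨hS x, hrR, hS _⟩
    have hpt : A.act (A.act x (σ x)) (m : G) = A.act (A.act x r) (σ (A.act x r)) := by
      rw [A.mul, A.mul]
      congr 1
      simp [hmdef, mul_assoc]
    have h1 := hcoh (A.act x (σ x)) m hmRM (by rw [hpt]; exact hcc)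
    rw [hpt] at h1
    show σ x * (χ' (A.act x (σ x)) : G) = r * (σ (A.act x r) * (χ' (A.act (A.act x r)
      (σ (A.act x r))) : G))
    rw [h1]
    simp [hmdef, mul_assoc]
  -- finite ranges
  let Th : Finset G := (S ×ˢ B).image (fun p => p.1 * (p.2 : G))
  have hTh : ∀ x, χh x ∈ Th := fun x =>
    Finset.mem_image.2 ⟨(σ x, χ' (A.act x (σ x))), Finset.mem_product.2 ⟨hS x, hB _⟩, rfl⟩
  let T : Finset G := (Th ×ˢ Th).image (fun p => p.1 * p.2⁻¹)
  have hT : ∀ x y, χh x * (χh y)⁻¹ ∈ T := fun x y =>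
    Finset.mem_image.2 ⟨(χh x, χh y), Finset.mem_product.2 ⟨hTh x, hTh y⟩, rfl⟩
  obtain ⟨q, v, hv, hvs⟩ := hsep (T.erase 1) (by simp)
  -- candidates
  let Cand : X → G → Prop := fun x s => J.rel x s ∧ χh x = s * χh (A.act x s)
  have hCT : ∀ x s, Cand x s → s ∈ T := by
    rintro x s ⟨_, h⟩
    have := hT x (A.act x s)
    rwa [h, mul_assoc, mul_inv_cancel, mul_one] at this
  have hC1 : ∀ x, Cand x 1 := fun x => ⟨J.one x, by rw [A.one, one_mul]⟩
  have hinj : ∀ x s s', Cand x s → Cand x s' → v (A.act x s) = v (A.act x s') → s = s' := by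
    rintro x s s' ⟨h1, h2⟩ ⟨h3, h4⟩ hvv
    by_contra hne
    have e1 : s⁻¹ * s' = χh (A.act x s) * (χh (A.act x s'))⁻¹ := by
      have e2 : χh (A.act x s) = s⁻¹ * χh x := by rw [h2]; simp
      rw [e2, h4]
      simp [mul_assoc]
    have e3 : s⁻¹ * s' ∈ T.erase 1 := by
      refine Finset.mem_erase.2 ⟨?_, ?_⟩
      · intro h
        exact hne (inv_mul_eq_one.1 h)
      · rw [e1]; exact hT _ _
    have e4 := hvs (A.act x s) _ e3
    rw [A.mul, mul_inv_cancel_left] at e4
    exact e4 hvv.symm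
  have hex : ∀ x, ∃ s, Cand x s ∧ ∀ s', Cand x s' → v (A.act x s) ≤ v (A.act x s') := by
    intro x
    obtain ⟨s, hs, hmin⟩ := Finset.exists_min_image (T.filter (fun s => Cand x s))
      (fun s => v (A.act x s)) ⟨1, Finset.mem_filter.2 ⟨hCT x 1 (hC1 x), hC1 x⟩⟩
    refine ⟨s, (Finset.mem_filter.1 hs).2, fun s' hs' => ?_⟩
    exact hmin s' (Finset.mem_filter.2 ⟨hCT x s' hs', hs'⟩)
  choose χ hχ1 hχ2 using hex
  have huniq : ∀ x s, Cand x s → (∀ s', Cand x s' → v (A.act x s) ≤ v (A.act x s')) → χ x = s := by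
    intro x s h1 h2
    exact hinj x _ _ (hχ1 x) h1 (le_antisymm (hχ2 x s h1) (h2 _ (hχ1 x)))
  have hCm : ∀ s, MeasurableSet {x | Cand x s} := by
    intro s
    exact (J.meas s).inter (MF.rel₂ hχh (MF.act hχh A s) (fun a b => a = s * b))
  refine ⟨T, c, χ, hc, ?_, fun x => hCT x _ (hχ1 x), fun x => (hχ1 x).1, ?_⟩
  · intro s
    have h : {x | χ x = s} = {x | Cand x s} ∩
        ⋂ s' : G, ({x | Cand x s'}ᶜ ∪ {x | v (A.act x s) ≤ v (A.act x s')}) := by
      ext x
      simp only [Set.mem_inter_iff, Set.mem_iInter, Set.mem_union, Set.mem_compl_iff,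
        Set.mem_ofPred_eq]
      constructor
      · rintro rfl
        refine ⟨hχ1 x, fun s' => ?_⟩
        by_cases h : Cand x s'
        · exact Or.inr (hχ2 x s' h)
        · exact Or.inl h
      · rintro ⟨h1, h2⟩
        refine huniq x s h1 fun s' hs' => ?_
        exact (h2 s').resolve_left (fun h => h hs')
    rw [h]
    refine (hCm s).inter (MeasurableSet.iInter fun s' => (hCm s').compl.union ?_)
    exact MF.rel₂ (MF.act hv A s) (MF.act hv A s') (fun a b => a ≤ b)
  · intro x r hrR hJr hcc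
    have hk := hkey x r hrR hJr hcc
    -- candidates are transported by r
    have htr : ∀ s, Cand (A.act x r) s ↔ Cand x (r * s) := by
      intro s
      constructor
      · rintro ⟨h1, h2⟩
        refine ⟨J.mul x r s hJr h1, ?_⟩
        rw [hk, h2, A.mul, mul_assoc]
      · rintro ⟨h1, h2⟩
        refine ⟨?_, ?_⟩
        · have h3 := J.mul (A.act x r) r⁻¹ (r * s) (J.inv x r hJr)
            (by rw [A.mul, mul_inv_cancel, A.one]; exact h1)
          rwa [inv_mul_cancel_left] at h3
        · have h4 : r * χh (A.act x r) = r * (s * χh (A.act (A.act x r) s)) := by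
            rw [← hk, h2, A.mul, mul_assoc]
          exact mul_left_cancel h4
    refine huniq x _ ((htr _).1 (hχ1 _)) fun s' hs' => ?_
    have h5 : Cand (A.act x r) (r⁻¹ * s') := (htr _).2 (by rwa [mul_inv_cancel_left])
    have h6 := hχ2 (A.act x r) _ h5
    rw [A.mul, A.mul, mul_inv_cancel_left] at h6
    exact h6

end Pool.Agent.Helper44.Sub
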