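import Pool.Agent.Helper44.Sub.Defs

/-!
B13b: toasts with sheets, from the layer lemma.
-/

set_option autoImplicit false

namespace Pool.Agent.Helper44.Sub

variable {X G : Type} [MeasurableSpace X] [Group G]

theorem MF.bindT {X B C : Type} [MeasurableSpace X] [Countable B] {f : X → B} (hf : MF f)
    {F : B → X → C} (hF : ∀ b, MF (F b)) : MF (fun x => F (f x) x) := by
  intro c
  have : {x | F (f x) x = c} = ⋃ b, ({x | f x = b} ∩ {x | F b x = c}) := by
    ext x
    simp only [Set.mem_ofPred_eq, Set.mem_iUnion, Set.mem_inter_iff]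
    constructor
    · intro h; exact ⟨f x, rfl, h⟩
    · rintro ⟨b, rfl, h⟩; exact h
  rw [this]
  exact MeasurableSet.iUnion fun b => (hf b).inter (hF b c)

theorem MF.compT {X Y C : Type} [MeasurableSpace X] [MeasurableSpace Y] {f : Y → C} (hf : MF f)
    {g : X → Y} (hg : Measurable g) : MF (fun x => f (g x)) := fun c => hg (hf c)

theorem MF.constT {X C : Type} [MeasurableSpace X] (c : C) : MF (fun _ : X => c) := by
  intro b
  by_cases h : c = b
  · simp [h]
  · simp [h]

theorem MF.mapT {X B C : Type} [MeasurableSpace X] [Countable B] {f : X → B} (hf : MF f)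
    (φ : B → C) : MF (fun x => φ (f x)) :=
  MF.bindT hf (F := fun b _ => φ b) (fun b => MF.constT (φ b))

theorem MF.map2T {X B B' C : Type} [MeasurableSpace X] [Countable B] [Countable B'] {f : X → B}
    (hf : MF f) {g : X → B'} (hg : MF g) (φ : B → B' → C) : MF (fun x => φ (f x) (g x)) :=
  MF.bindT hf (F := fun b x => φ b (g x)) (fun b => hg.mapT (φ b))

theorem MF.setT {X B : Type} [MeasurableSpace X] [Countable B] {f : X → B} (hf : MF f)
    (S : Set B) : MeasurableSet {x | f x ∈ S} := by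
  have : {x | f x ∈ S} = ⋃ b ∈ S, {x | f x = b} := by
    ext x; simp
  rw [this]
  exact MeasurableSet.biUnion (Set.to_countable S) fun b _ => hf b

open Classical in
/-- the first element of the list satisfying p -/
noncomputable def pick {G : Type} (L : List G) (p : G → Prop) : Option G :=
  L.find? (fun g => decide (p g))

theorem pick_some {G : Type} {L : List G} {p : G → Prop} {g : G} (h : pick L p = some g) :
    g ∈ L ∧ p g := by
  classical
  unfold pick at h
  exact ⟨List.mem_of_find?_eq_some h, by simpa using List.find?_some h⟩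

theorem pick_ne_none {G : Type} {L : List G} {p : G → Prop} {g : G} (h : g ∈ L) (hg : p g) :
    pick L p ≠ none := by
  classical
  unfold pick
  intro hn
  have := List.find?_eq_none.1 hn g h
  simp [hg] at this

theorem pick_congr {G : Type} {L : List G} {p q : G → Prop} (h : ∀ g ∈ L, (p g ↔ q g)) :
    pick L p = pick L q := by
  classical
  unfold pick
  induction L with
  | nil => rfl
  | cons a L ih =>
    rw [List.find?_cons, List.find?_cons]
    have h1 := h a List.mem_cons_self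
    by_cases ha : p a
    · have hb := h1.1 ha
      simp [ha, hb]
    · have hb : ¬ q a := fun hb => ha (h1.2 hb)
      simp only [ha, hb, decide_false]
      exact ih fun g hg => h g (List.mem_cons_of_mem _ hg)

theorem pick_meas {G X : Type} [MeasurableSpace X] (L : List G) (p : X → G → Prop)
    (hp : ∀ g, MeasurableSet {x | p x g}) : MF (fun x => pick L (p x)) := by
  classical
  induction L with
  | nil =>
    intro o
    show MeasurableSet {x | (none : Option G) = o}
    exact MeasurableSet.const _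
  | cons a L ih =>
    intro o
    have : {x | pick (a :: L) (p x) = o} =
        ({x | p x a} ∩ {_x | some a = o}) ∪ ({x | p x a}ᶜ ∩ {x | pick L (p x) = o}) := by
      ext x
      simp only [Set.mem_ofPred_eq, Set.mem_union, Set.mem_inter_iff, Set.mem_compl_iff]
      unfold pick
      rw [List.find?_cons]
      by_cases ha : p x a
      · simp [ha]
      · simp [ha]
    rw [this]
    exact ((hp a).inter (MeasurableSet.const _)).union ((hp a).compl.inter (ih o))

/-- membership in the closure of a conjugated generating set -/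
theorem conj_closure {F : Set G} {V : Subgroup G} (k : G) (h : ∀ f ∈ F, k * f * k⁻¹ ∈ V) :
    ∀ μ ∈ Subgroup.closure F, k * μ * k⁻¹ ∈ V := by
  intro μ hμ
  have : Subgroup.closure F ≤ V.comap (MulAut.conj k).toMonoidHom := by
    rw [Subgroup.closure_le]
    intro f hf
    simpa using h f hf
  simpa using this hμ

/-- state of the construction -/
structure St (A : RAct X G) (N : Subgroup G) (D : ℕ) where
  σ : Fin D → X → G
  S : Finset G
  F : Finset G
  hσ : ∀ a, MF (σ a)
  hS : ∀ a x, σ a x ∈ S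
  hF : ∀ f ∈ F, f ∈ N

/-- the f.g. subgroup of the state -/
def St.M {A : RAct X G} {N : Subgroup G} {D : ℕ} (st : St A N D) : Subgroup G :=
  Subgroup.closure (st.F : Set G)

/-- the layer property -/
def LayerProp (A : RAct X G) (N : Subgroup G) (D : ℕ) : Prop :=
  ∀ (R : Finset G) (V : Subgroup G), V ≤ N → V.FG →
    ∃ (Ψ : Finset G) (c : X → Fin D) (W : Fin D → Set X) (ψ : Fin D → X → G),
      MF c ∧ (∀ a, MeasurableSet (W a)) ∧ (∀ a, MF (ψ a)) ∧ (∀ a x, ψ a x ∈ Ψ) ∧
      (∀ x, ∀ s ∈ R, x ∈ W (c (A.act x s))) ∧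
      (∀ a x, ∀ r ∈ R, x ∈ W a → A.act x r ∈ W a →
        (ψ a x)⁻¹ * r * ψ a (A.act x r) ∈ N) ∧
      ∀ a x, ∀ v ∈ V, (A.act x v ∈ W a ↔ x ∈ W a) ∧ ψ a (A.act x v) = ψ a x

/-- the updated leader map -/
noncomputable def upd (A : RAct X G) (S : Finset G) (W : Set X) (σ ψ : X → G) (x : X) : G :=
  match pick S.toList (fun ρ => A.act (A.act x (σ x)) ρ⁻¹ ∈ W) with
  | none => σ x
  | some ρ => σ x * ρ⁻¹ * ψ (A.act (A.act x (σ x)) ρ⁻¹)

theorem upd_none {A : RAct X G} {S : Finset G} {W : Set X} {σ ψ : X → G} {x : X}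
    (h : pick S.toList (fun ρ => A.act (A.act x (σ x)) ρ⁻¹ ∈ W) = none) :
    upd A S W σ ψ x = σ x := by
  unfold upd; rw [h]

theorem upd_some {A : RAct X G} {S : Finset G} {W : Set X} {σ ψ : X → G} {x : X} {ρ : G}
    (h : pick S.toList (fun ρ => A.act (A.act x (σ x)) ρ⁻¹ ∈ W) = some ρ) :
    upd A S W σ ψ x = σ x * ρ⁻¹ * ψ (A.act (A.act x (σ x)) ρ⁻¹) := by
  unfold upd; rw [h]

theorem upd_meas [Countable G] (A : RAct X G) (S : Finset G) {W : Set X} (hW : MeasurableSet W)
    {σ ψ : X → G} (hσ : MF σ) (hψ : MF ψ) : MF (upd A S W σ ψ) := by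
  have h1 : ∀ g ρ : G, MF (fun x => g * ρ⁻¹ * ψ (A.act (A.act x g) ρ⁻¹)) := by
    intro g ρ
    exact (hψ.compT ((A.meas ρ⁻¹).comp (A.meas g))).mapT (fun q => g * ρ⁻¹ * q)
  have h2 : ∀ g : G, MF (fun x => pick S.toList (fun ρ => A.act (A.act x g) ρ⁻¹ ∈ W)) := by
    intro g
    exact pick_meas _ _ (fun ρ => ((A.meas ρ⁻¹).comp (A.meas g)) hW)
  have h3 : ∀ g : G, MF (fun x => (match pick S.toList (fun ρ => A.act (A.act x g) ρ⁻¹ ∈ W) with
      | none => g
      | some ρ => g * ρ⁻¹ * ψ (A.act (A.act x g) ρ⁻¹))) := by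
    intro g
    exact MF.bindT (h2 g) (F := fun o x => (match o with
      | none => g
      | some ρ => g * ρ⁻¹ * ψ (A.act (A.act x g) ρ⁻¹))) (fun o => by
        cases o with
        | none => exact MF.constT g
        | some ρ => exact h1 g ρ)
  exact MF.bindT hσ (F := fun g x => (match pick S.toList (fun ρ => A.act (A.act x g) ρ⁻¹ ∈ W) with
      | none => g
      | some ρ => g * ρ⁻¹ * ψ (A.act (A.act x g) ρ⁻¹))) h3

theorem step [Countable G] {A : RAct X G} {N : Subgroup G} [hN : N.Normal] {D : ℕ}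
    (hl : LayerProp A N D) (st : St A N D) (P : Finset G) :
    ∃ (st' : St A N D) (c : X → Fin D),
      (∀ a x s, (st.σ a x)⁻¹ * s * st.σ a (A.act x s) ∈ st.M →
        (st'.σ a x)⁻¹ * s * st'.σ a (A.act x s) ∈ st'.M) ∧
      ∀ a x s, s ∈ P → (∃ p ∈ P, c (A.act x p) = a) → (∃ p ∈ P, c (A.act (A.act x s) p) = a) →
        (st'.σ a x)⁻¹ * s * st'.σ a (A.act x s) ∈ st'.M := by
  classical
  obtain ⟨σ, S, F, hσ, hS, hF⟩ := st
  set R : Finset G := (S ×ˢ S).image (fun p => p.1 * p.2⁻¹) ∪ P with hR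
  set VF : Finset G := (S ×ˢ F).image (fun p => p.1 * p.2 * p.1⁻¹) with hVF
  have hVN : Subgroup.closure (VF : Set G) ≤ N := by
    rw [Subgroup.closure_le]
    intro v hv
    rw [Finset.mem_coe, hVF, Finset.mem_image] at hv
    obtain ⟨p, hp, rfl⟩ := hv
    rw [Finset.mem_product] at hp
    exact hN.conj_mem _ (hF _ hp.2) _
  obtain ⟨Ψ, c, W, ψ, hc, hW, hψ, hΨ, h1, h2, h3⟩ := hl R (Subgroup.closure (VF : Set G)) hVN
    ⟨VF, rfl⟩
  set F' : Finset G := F ∪ ((Ψ ×ˢ (R ×ˢ Ψ)).image (fun p => p.1⁻¹ * p.2.1 * p.2.2)).filter (· ∈ N) ∪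
    (S ×ˢ (Ψ ×ˢ F)).image (fun p => (p.1⁻¹ * p.2.1)⁻¹ * p.2.2 * (p.1⁻¹ * p.2.1)) with hF'
  set S' : Finset G := S ∪ (S ×ˢ (S ×ˢ Ψ)).image (fun p => p.1 * p.2.1⁻¹ * p.2.2) with hS'
  have hmemR : ∀ g ρ, g ∈ S → ρ ∈ S → g * ρ⁻¹ ∈ R := by
    intro g ρ hg hρ
    rw [hR]
    exact Finset.mem_union_left _ (Finset.mem_image.2 ⟨(g, ρ), Finset.mem_product.2 ⟨hg, hρ⟩, rfl⟩)
  have hFN' : ∀ f ∈ F', f ∈ N := by
    intro f hf
    rw [hF', Finset.mem_union, Finset.mem_union] at hf
    rcases hf with (hf | hf) | hf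
    · exact hF f hf
    · exact (Finset.mem_filter.1 hf).2
    · obtain ⟨p, hp, rfl⟩ := Finset.mem_image.1 hf
      rw [Finset.mem_product, Finset.mem_product] at hp
      have := hN.conj_mem _ (hF _ hp.2.2) (p.1⁻¹ * p.2.1)⁻¹
      simpa using this
  have hσS' : ∀ a x, upd A S (W a) (σ a) (ψ a) x ∈ S' := by
    intro a x
    cases hp : pick S.toList (fun ρ => A.act (A.act x (σ a x)) ρ⁻¹ ∈ W a) with
    | none =>
      rw [upd_none hp]
      exact Finset.mem_union_left _ (hS a x)
    | some ρ =>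
      rw [upd_some hp]
      refine Finset.mem_union_right _ (Finset.mem_image.2 ⟨(σ a x, ρ, _), ?_, rfl⟩)
      have := pick_some hp
      rw [Finset.mem_product, Finset.mem_product]
      exact ⟨hS a x, Finset.mem_toList.1 this.1, hΨ a _⟩
  refine ⟨⟨fun a => upd A S (W a) (σ a) (ψ a), S', F', fun a => upd_meas A S (hW a) (hσ a) (hψ a),
    hσS', hFN'⟩, c, ?_, ?_⟩
  · intro a x s hμ
    change (σ a x)⁻¹ * s * σ a (A.act x s) ∈ Subgroup.closure (F : Set G) at hμ
    show (upd A S (W a) (σ a) (ψ a) x)⁻¹ * s * upd A S (W a) (σ a) (ψ a) (A.act x s) ∈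
      Subgroup.closure (F' : Set G)
    set μ := (σ a x)⁻¹ * s * σ a (A.act x s) with hμd
    have hz : A.act (A.act x s) (σ a (A.act x s)) = A.act (A.act x (σ a x)) μ := by
      rw [A.mul, A.mul, hμd]
      congr 1
      group
    have hzρ : ∀ ρ : G, A.act (A.act (A.act x s) (σ a (A.act x s))) ρ⁻¹ =
        A.act (A.act (A.act x (σ a x)) ρ⁻¹) (ρ * μ * ρ⁻¹) := by
      intro ρ
      rw [hz, A.mul, A.mul, A.mul, A.mul]
      congr 1
      group
    have hconj : ∀ ρ ∈ S, ρ * μ * ρ⁻¹ ∈ Subgroup.closure (VF : Set G) := by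
      intro ρ hρ
      refine conj_closure ρ ?_ μ hμ
      intro f hf
      apply Subgroup.subset_closure
      rw [Finset.mem_coe, hVF]
      exact Finset.mem_image.2 ⟨(ρ, f), Finset.mem_product.2 ⟨hρ, hf⟩, rfl⟩
    have hpick : pick S.toList (fun ρ => A.act (A.act (A.act x s) (σ a (A.act x s))) ρ⁻¹ ∈ W a) =
        pick S.toList (fun ρ => A.act (A.act x (σ a x)) ρ⁻¹ ∈ W a) := by
      apply pick_congr
      intro ρ hρ
      rw [hzρ ρ]
      exact (h3 a _ _ (hconj ρ (Finset.mem_toList.1 hρ))).1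
    cases hp : pick S.toList (fun ρ => A.act (A.act x (σ a x)) ρ⁻¹ ∈ W a) with
    | none =>
      rw [upd_none hp, upd_none (hpick.trans hp)]
      refine Subgroup.closure_mono ?_ hμ
      intro f hf
      rw [Finset.mem_coe] at hf ⊢
      exact Finset.mem_union_left _ (Finset.mem_union_left _ hf)
    | some ρ =>
      have hρS : ρ ∈ S := Finset.mem_toList.1 (pick_some hp).1
      rw [upd_some hp, upd_some (hpick.trans hp), hzρ ρ, (h3 a _ _ (hconj ρ hρS)).2]
      set p := ψ a (A.act (A.act x (σ a x)) ρ⁻¹) with hpd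
      have hpΨ : p ∈ Ψ := hΨ a _
      have : (σ a x * ρ⁻¹ * p)⁻¹ * s * (σ a (A.act x s) * ρ⁻¹ * p) =
          (ρ⁻¹ * p)⁻¹ * μ * ((ρ⁻¹ * p)⁻¹)⁻¹ := by
        rw [hμd]; group
      rw [this]
      refine conj_closure _ ?_ μ hμ
      intro f hf
      apply Subgroup.subset_closure
      rw [Finset.mem_coe]
      refine Finset.mem_union_right _ (Finset.mem_image.2 ⟨(ρ, p, f), ?_, ?_⟩)
      · rw [Finset.mem_product, Finset.mem_product]
        exact ⟨hρS, hpΨ, hf⟩
      · simp
  · intro a x s hs ⟨p, hp, hpa⟩ ⟨q, hq, hqa⟩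
    show (upd A S (W a) (σ a) (ψ a) x)⁻¹ * s * upd A S (W a) (σ a) (ψ a) (A.act x s) ∈
      Subgroup.closure (F' : Set G)
    have hPR : ∀ p ∈ P, p ∈ R := fun p hp => Finset.mem_union_right _ hp
    have hxW : x ∈ W a := by rw [← hpa]; exact h1 x p (hPR p hp)
    have hyW : A.act x s ∈ W a := by rw [← hqa]; exact h1 _ q (hPR q hq)
    have hN2 : ∀ y r, r ∈ R → y ∈ W a → A.act y r ∈ W a →
        (ψ a y)⁻¹ * r * ψ a (A.act y r) ∈ Subgroup.closure (F' : Set G) := by
      intro y r hr hy hyr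
      apply Subgroup.subset_closure
      rw [Finset.mem_coe]
      refine Finset.mem_union_left _ (Finset.mem_union_right _ (Finset.mem_filter.2 ⟨?_, h2 a y r hr hy hyr⟩))
      refine Finset.mem_image.2 ⟨(ψ a y, r, ψ a (A.act y r)), ?_, rfl⟩
      rw [Finset.mem_product, Finset.mem_product]
      exact ⟨hΨ a y, hr, hΨ a _⟩
    have key : ∀ y, y ∈ W a → (ψ a y)⁻¹ * upd A S (W a) (σ a) (ψ a) y ∈
        Subgroup.closure (F' : Set G) := by
      intro y hy
      have hne : pick S.toList (fun ρ => A.act (A.act y (σ a y)) ρ⁻¹ ∈ W a) ≠ none := by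
        refine pick_ne_none (g := σ a y) (Finset.mem_toList.2 (hS a y)) ?_
        rw [A.mul, mul_inv_cancel, A.one]
        exact hy
      obtain ⟨ρ, hρ⟩ := Option.ne_none_iff_exists'.1 hne
      rw [upd_some hρ]
      have h4 := pick_some hρ
      have h5 : A.act (A.act y (σ a y)) ρ⁻¹ = A.act y (σ a y * ρ⁻¹) := A.mul _ _ _
      have h6 := h4.2
      rw [h5] at h6 ⊢
      have h7 := hN2 y (σ a y * ρ⁻¹) (hmemR _ _ (hS a y) (Finset.mem_toList.1 h4.1)) hy h6
      rwa [mul_assoc] at h7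
    have h8 := key x hxW
    have h9 := key _ hyW
    have h10 := hN2 x s (hPR s hs) hxW hyW
    have h11 := mul_mem (mul_mem (inv_mem h8) h10) h9
    convert h11 using 1
    group

/-- the groupoid of a state -/
def St.J [Countable G] {A : RAct X G} {N : Subgroup G} {D : ℕ} (st : St A N D) (a : Fin D) :
    Gpd A where
  rel x s := (st.σ a x)⁻¹ * s * st.σ a (A.act x s) ∈ st.M
  one := by
    intro x
    rw [A.one, mul_one, inv_mul_cancel]
    exact one_mem _
  mul := by
    intro x s t h1 h2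
    have := mul_mem h1 h2
    rw [A.mul] at this
    convert this using 1
    group
  inv := by
    intro x s h
    have := inv_mem h
    rw [A.mul, mul_inv_cancel, A.one]
    convert this using 1
    group
  meas := by
    intro s
    exact ((st.hσ a).map2T ((st.hσ a).compT (A.meas s)) (fun g h => g⁻¹ * s * h)).setT
      (st.M : Set G)

/-- B13b: toasts with sheets, from the layer property. -/
theorem toast_of_layer [Countable G] (A : RAct X G) (N : Subgroup G) [N.Normal] (D : ℕ)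
    (hl : LayerProp A N D) :
    ∃ J : Fin D → ℕ → Gpd A, (∀ a t x s, (J a t).rel x s → (J a (t + 1)).rel x s) ∧
      (∀ a t, ∃ (σ : X → G) (S : Finset G) (M : Subgroup G), MF σ ∧ (∀ x, σ x ∈ S) ∧ M ≤ N ∧
        M.FG ∧ ∀ x s, (J a t).rel x s → (σ x)⁻¹ * s * σ (A.act x s) ∈ M) ∧
      ∀ x, ∃ a, ∀ s s', ∃ t, (J a t).rel (A.act x s) s' := by
  classical
  obtain ⟨e, he⟩ := exists_surjective_nat G
  set P : ℕ → Finset G := fun n => (Finset.range (n + 1)).image e with hP
  have hPs : ∀ g : G, ∃ n0, ∀ n, n0 ≤ n → g ∈ P n := by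
    intro g
    obtain ⟨k, rfl⟩ := he g
    exact ⟨k, fun n hn => Finset.mem_image.2 ⟨k, Finset.mem_range.2 (by omega), rfl⟩⟩
  have hstep := fun (st : St A N D) (P : Finset G) => step hl st P
  choose nx c h1 h2 using hstep
  let init : St A N D := ⟨fun _ _ => 1, {1}, ∅, fun _ => MF.constT 1, fun _ _ => by simp, by simp⟩
  let st : ℕ → St A N D := fun n => Nat.rec init (fun n s => nx s (P n)) n
  have hst : ∀ n, st (n + 1) = nx (st n) (P n) := fun n => rfl
  refine ⟨fun a t => (st t).J a, ?_, ?_, ?_⟩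
  · intro a t x s h
    show ((st (t + 1)).σ a x)⁻¹ * s * (st (t + 1)).σ a (A.act x s) ∈ (st (t + 1)).M
    rw [hst]
    exact h1 _ _ a x s h
  · intro a t
    refine ⟨(st t).σ a, (st t).S, (st t).M, (st t).hσ a, (st t).hS a, ?_, ⟨(st t).F, rfl⟩,
      fun x s h => h⟩
    unfold St.M
    rw [Subgroup.closure_le]
    intro f hf
    exact (st t).hF f hf
  · intro x
    obtain ⟨a, ha⟩ := Finite.exists_infinite_fiber (fun n : ℕ => c (st n) (P n) x)
    have hainf : {n : ℕ | c (st n) (P n) x = a}.Infinite := Set.infinite_coe_iff.1 ha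
    refine ⟨a, fun s s' => ?_⟩
    obtain ⟨n1, hn1⟩ := hPs s⁻¹
    obtain ⟨n2, hn2⟩ := hPs (s * s')⁻¹
    obtain ⟨n3, hn3⟩ := hPs s'
    obtain ⟨n, hn, hge⟩ := hainf.exists_gt (n1 + n2 + n3)
    refine ⟨n + 1, ?_⟩
    show ((st (n + 1)).σ a (A.act x s))⁻¹ * s' * (st (n + 1)).σ a (A.act (A.act x s) s') ∈
      (st (n + 1)).M
    rw [hst]
    refine h2 _ _ a (A.act x s) s' (hn3 n (by omega)) ⟨s⁻¹, hn1 n (by omega), ?_⟩
      ⟨(s * s')⁻¹, hn2 n (by omega), ?_⟩
    · rw [A.mul, mul_inv_cancel, A.one]; exact hn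
    · rw [A.mul, A.mul, show s * (s' * (s * s')⁻¹) = 1 by group, A.one]; exact hn

end Pool.Agent.Helper44.Sub
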