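import Pool.Agent.Helper44.Sub.Layer
import Pool.Agent.Helper44.Sub.Toast

/-! B13b: the frozen statement. -/

set_option autoImplicit false

namespace Pool.Agent.Helper44.Sub

variable {X G : Type} [MeasurableSpace X] [Group G]

/-- B13 (toasts with sheets). -/
theorem toast [Countable G] (A : RAct X G) (hr : Rich A) (N : Subgroup G) [N.Normal] (D : ℕ)
    (hD : GAs (G ⧸ N) D) :
    ∃ J : Fin D → ℕ → Gpd A, (∀ a t x s, (J a t).rel x s → (J a (t + 1)).rel x s) ∧
      (∀ a t, ∃ (σ : X → G) (S : Finset G) (M : Subgroup G), MF σ ∧ (∀ x, σ x ∈ S) ∧ M ≤ N ∧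
        M.FG ∧ ∀ x s, (J a t).rel x s → (σ x)⁻¹ * s * σ (A.act x s) ∈ M) ∧
      ∀ x, ∃ a, ∀ s s', ∃ t, (J a t).rel (A.act x s) s' :=
  toast_of_layer A N D fun R V hVN hV => layer A hr N D hD R V hVN hV

end Pool.Agent.Helper44.Sub
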