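import Pool.Agent.Helper44.Sub.Assembly
import Pool.Agent.Helper44.Sub.B10
import Pool.Agent.Helper44.Sub.B11
import Pool.Agent.Helper44.Sub.B7
import Pool.Agent.Helper44.Sub.Chain
import Pool.Agent.Helper44.Sub.FArich
import Pool.Agent.Helper44.Sub.EndB14
import Pool.Agent.Helper44.Sub.ToastMain
import Pool.Agent.Helper53.Sub.Engine

set_option autoImplicit false

namespace Pool.Agent.Helper44.Sub

variable {X G : Type} [MeasurableSpace X] [Group G]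

theorem sep_of_rich [Countable G] {A : RAct X G} (hr : Rich A) : Sep A := by
  classical
  intro E hE
  obtain ⟨q, c, hc⟩ := colG G E hE
  obtain ⟨v, hv, hv2⟩ := hr q (insert 1 E) (fun f => ∀ s ∈ E, f s ≠ f 1)
    (by
      intro f f' hff hf s hs
      rw [← hff s (by simp [hs]), ← hff 1 (by simp)]
      exact hf s hs)
    ⟨c, fun g s hs => by simpa using hc g s hs⟩
  exact ⟨q, v, hv, fun x s hs => by simpa [A.one] using hv2 x s hs⟩

theorem FA_of_rich [Countable G] {A : RAct X G} (hr : Rich A) (J : Gpd A) (σ : X → G)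
    (hσ : MF σ) (S : Finset G) (hS : ∀ x, σ x ∈ S) (M : Subgroup G) (D : ℕ) (hM : GAs ↥M D)
    (hJ : ∀ x s, J.rel x s → (σ x)⁻¹ * s * σ (A.act x s) ∈ M) : ∃ D, FA J D :=
  FA_of_rich_sep hr (sep_of_rich hr) J σ hσ S hS M D hM hJ

theorem engine' : EngineStmt := fun _ _ _ _ _ _ J h1 h2 => Pool.Agent.Helper53.Sub.engine J h1 h2

theorem ext_core {X' G' : Type} [MeasurableSpace X'] [Group G'] [Countable G] (A : RAct X G)
    (A' : RAct X' G') (π : G →* G') (hπ : Function.Surjective π) (f : X → X') (hf : Measurable f)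
    (hfe : ∀ x s, f (A.act x s) = A'.act (f x) (π s)) (hH : HH A')
    (hFA : ∀ (J : Gpd A) (σ : X → G) (S : Finset G) (M : Subgroup G), MF σ → (∀ x, σ x ∈ S) →
      M ≤ π.ker → M.FG → (∀ x s, J.rel x s → (σ x)⁻¹ * s * σ (A.act x s) ∈ M) → ∃ D, FA J D) :
    HH A := ext_core_of engine' A A' π hπ f hf hfe hH hFA

theorem chain [Countable G] (ℓ : ℕ) (N : ℕ → Subgroup G)
    [∀ i, (N i).Normal] (h0 : N 0 = ⊤) (hanti : ∀ i, N (i + 1) ≤ N i)
    (hd : ∀ i < ℓ, LocDoubling ((N i).map (QuotientGroup.mk' (N (i + 1)))))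
    (K : ℕ → G → Subgroup G) [∀ j g, (K j g).Normal] (hK : ∀ j g, (K j g).FiniteIndex)
    (hNK : ∀ j g, N j ≤ K j g) (hsepK : ∀ j g, 0 < j → j ≤ ℓ → g ∉ N j → g ∉ K j g) :
    ∃ (X' : Type) (_ : MeasurableSpace X') (A' : RAct X' (G ⧸ N ℓ)), HH A' ∧
      ∀ (X : Type) [MeasurableSpace X] (A : RAct X G) (φ : ∀ j g, X → G ⧸ K j g),
        (∀ j g, MF (φ j g)) →
        (∀ j g x s, φ j g (A.act x s) = φ j g x * (s : G ⧸ K j g)) →
        ∃ f : X → X', Measurable f ∧ ∀ x s, f (A.act x s) = A'.act (f x) (s : G ⧸ N ℓ) :=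
  chain_of engine' ℓ N h0 hanti hd K hK hNK hsepK

/-- Theorem T1. -/
theorem HH_T1 [Countable G] {A : RAct X G} (hr : Rich A) (N : Subgroup G) [N.Normal]
    (hD : ∃ D, GAs (G ⧸ N) D)
    (hN : ∀ M : Subgroup G, M ≤ N → M.FG → Doubling M ∨ ∃ D, GAs ↥M D) : HH A := by
  classical
  obtain ⟨D, hD⟩ := hD
  obtain ⟨J, hmono, hsh, hex⟩ := toast A hr N D hD
  have key : ∀ a : Fin D, ∃ w : ℕ → X → G, (∀ m, MF (w m)) ∧
      (∀ m, ∃ T : Finset G, ∀ x, w m x ∈ T) ∧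
      ∀ x s, (∃ t, (J a t).rel x s) → {m | w m x ≠ s * w m (A.act x s)}.Finite := by
    intro a
    refine Pool.Agent.Helper53.Sub.engine (J a) (hmono a) ?_
    intro t
    obtain ⟨σ, S, M, hσ, hS, hMN, hMfg, hJ⟩ := hsh a t
    rcases hN M hMN hMfg with h | ⟨D', h⟩
    · exact FA_of_doubling (sep_of_rich hr) (J a t) σ hσ S hS M h hJ
    · exact FA_of_rich hr (J a t) σ hσ S hS M D' h hJ
  choose w hw1 hw2 hw3 using key
  exact HH_glue D J hex w hw1 hw2 hw3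

/-- Theorem T2. -/
theorem HH_T2 [Countable G] {A : RAct X G} (hr : Rich A) (hfg : Group.FG G)
    (ℓ : ℕ) (N : ℕ → Subgroup G)
    [∀ i, (N i).Normal] (h0 : N 0 = ⊤) (hanti : ∀ i, N (i + 1) ≤ N i)
    (hd : ∀ i < ℓ, LocDoubling ((N i).map (QuotientGroup.mk' (N (i + 1)))))
    (hRF : ∀ i, 0 < i → i ≤ ℓ → ∀ g, g ∉ N i →
      ∃ K : Subgroup G, K.Normal ∧ K.FiniteIndex ∧ N i ≤ K ∧ g ∉ K)
    (hN : ∀ M : Subgroup G, M ≤ N ℓ → M.FG → Doubling M ∨ ∃ D, GAs ↥M D) : HH A := by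
  classical
  have hK : ∀ j g, ∃ K : Subgroup G, K.Normal ∧ K.FiniteIndex ∧ N j ≤ K ∧
      (0 < j → j ≤ ℓ → g ∉ N j → g ∉ K) := by
    intro j g
    by_cases h : 0 < j ∧ j ≤ ℓ ∧ g ∉ N j
    · obtain ⟨K, h1, h2, h3, h4⟩ := hRF j h.1 h.2.1 g h.2.2
      exact ⟨K, h1, h2, h3, fun _ _ _ => h4⟩
    · refine ⟨⊤, inferInstance, inferInstance, le_top, ?_⟩
      intro h1 h2 h3
      exact absurd ⟨h1, h2, h3⟩ h
  choose K hK1 hK2 hK3 hK4 using hK
  have : ∀ j g, (K j g).Normal := hK1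
  obtain ⟨X', _, A', hA', hf⟩ := chain ℓ N h0 hanti hd K hK2 hK3 hK4
  have hφ : ∀ j g, ∃ φ : X → G ⧸ K j g, MF φ ∧
      ∀ x s, φ (A.act x s) = φ x * (s : G ⧸ K j g) :=
    fun j g => exists_equivariant hr hfg (K j g) (hK2 j g)
  choose φ hφ1 hφ2 using hφ
  obtain ⟨f, hf1, hf2⟩ := hf X A φ hφ1 hφ2
  refine ext_core A A' (QuotientGroup.mk' (N ℓ)) (QuotientGroup.mk'_surjective _) f hf1 hf2 hA' ?_
  intro J σ S M hσ hS hM hfgM hJ
  rw [QuotientGroup.ker_mk'] at hM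
  rcases hN M hM hfgM with h | ⟨D, h⟩
  · exact FA_of_doubling (sep_of_rich hr) J σ hσ S hS M h hJ
  · exact FA_of_rich hr J σ hσ S hS M D h hJ

/-- A property of rich actions which implies property (H) gives generic hyperfiniteness. -/
theorem generic_of_rich (G : Type) [Group G] [Countable G]
    (h : ∀ (X : Type) [MeasurableSpace X] (A : RAct X G), Rich A → HH A) :
    {K : Sh G | HypF K} ∈ @residual (Sh G) (vietoris G) := by
  letI : TopologicalSpace (Sh G) := vietoris G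
  refine Filter.mem_of_superset (rich_residual G) ?_
  intro K hK
  exact hypF_of_HH K (@h (↥K.1) (borel ↥K.1) (shiftRAct K) hK)

/-- Theorem T1. -/
theorem generic_T1 (G : Type) [Group G] [Countable G] (N : Subgroup G) [N.Normal]
    (hD : FinAsdim (G ⧸ N))
    (hN : ∀ M : Subgroup G, M ≤ N → M.FG → Doubling M ∨ FinAsdim ↥M) :
    {K : Sh G | HypF K} ∈ @residual (Sh G) (vietoris G) := by
  refine generic_of_rich G ?_
  intro X _ A hA
  exact HH_T1 hA N (GAs_of_FinAsdim hD)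
    (fun M h1 h2 => (hN M h1 h2).imp id (fun h => GAs_of_FinAsdim h))

/-- Theorem T2. -/
theorem generic_T2 (G : Type) [Group G] [Countable G] (hfg : Group.FG G)
    (ℓ : ℕ) (N : ℕ → Subgroup G)
    [∀ i, (N i).Normal] (h0 : N 0 = ⊤) (hanti : ∀ i, N (i + 1) ≤ N i)
    (hd : ∀ i < ℓ, LocDoubling ((N i).map (QuotientGroup.mk' (N (i + 1)))))
    (hRF : ∀ i, 0 < i → i ≤ ℓ → ∀ g, g ∉ N i →
      ∃ K : Subgroup G, K.Normal ∧ K.FiniteIndex ∧ N i ≤ K ∧ g ∉ K)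
    (hN : ∀ M : Subgroup G, M ≤ N ℓ → M.FG → Doubling M ∨ FinAsdim ↥M) :
    {K : Sh G | HypF K} ∈ @residual (Sh G) (vietoris G) := by
  refine generic_of_rich G ?_
  intro X _ A hA
  exact HH_T2 hA hfg ℓ N h0 hanti hd hRF
    (fun M h1 h2 => (hN M h1 h2).imp id (fun h => GAs_of_FinAsdim h))

end Pool.Agent.Helper44.Sub
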