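import Pool.Agent.Helper44.Sub.Defs2
import Pool.Agent.Helper44.Sub.ExtGpd
import Pool.Agent.Helper53.Sub.Engine

/-!
Block S5 of MP_bdf835_lc stage 2 (helper82): the last layer.
-/

set_option autoImplicit false

namespace Pool.Agent.Helper44.Sub

variable {X G : Type} [MeasurableSpace X] [Group G]

/-- S5 (last layer). -/
theorem HH_of_HHN [Countable G] (A : RAct X G) (N : Subgroup G) [N.Normal] (hH : HHN A N)
    (hFA : ∀ (J : Gpd A) (σ : X → G) (S : Finset G) (M : Subgroup G), MF σ → (∀ x, σ x ∈ S) →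
      M ≤ N → M.FG → (∀ x s, J.rel x s → (σ x)⁻¹ * s * σ (A.act x s) ∈ M) → ∃ D, FA J D) :
    HH A := by
  classical
  obtain ⟨σ, hσ, hw2, hw3⟩ := hH
  choose Sg hσS using hw2
  obtain ⟨S, hSmono, hSex⟩ := exists_exhaust G
  have hSmono' : ∀ m n, m ≤ n → S m ⊆ S n := fun m n h => monotone_nat_of_le_succ hSmono h
  set F : ℕ → Set G := fun m => {g | g ∈ N ∧ ∃ a ∈ Sg m, ∃ s ∈ S m, ∃ b ∈ Sg m, g = a⁻¹ * s * b}
    with hF
  have hFfin : ∀ m, (F m).Finite := by
    intro m
    refine ((((Sg m) ×ˢ ((S m) ×ˢ (Sg m))).image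
      (fun p : G × G × G => p.1⁻¹ * p.2.1 * p.2.2)).finite_toSet).subset ?_
    rintro g ⟨_, a, ha, s, hs, b, hb, rfl⟩
    rw [Finset.mem_coe, Finset.mem_image]
    exact ⟨(a, s, b), by simp [ha, hs, hb], rfl⟩
  set M : ℕ → Subgroup G := fun m => Subgroup.closure (F m) with hM
  have hMN : ∀ m, M m ≤ N := fun m => (Subgroup.closure_le _).2 fun g hg => hg.1
  have hMfg : ∀ m, (M m).FG := fun m => (Subgroup.fg_iff _).2 ⟨F m, rfl, hFfin m⟩
  set J : ℕ → Gpd A := fun t =>
    { rel := fun x s => ∀ m, t ≤ m → (σ m x)⁻¹ * s * σ m (A.act x s) ∈ M m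
      one := by
        intro x m _
        rw [cocycle_one]
        exact (M m).one_mem
      mul := by
        intro x s s' h h' m hm
        rw [cocycle_mul]
        exact (M m).mul_mem (h m hm) (h' m hm)
      inv := by
        intro x s h m hm
        rw [cocycle_inv]
        exact (M m).inv_mem (h m hm)
      meas := by
        intro s
        have : {x | ∀ m, t ≤ m → (σ m x)⁻¹ * s * σ m (A.act x s) ∈ M m} =
            ⋂ (m : ℕ) (_ : t ≤ m), {x | (σ m x)⁻¹ * s * σ m (A.act x s) ∈ (M m : Set G)} := by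
          ext x
          simp
        rw [this]
        exact MeasurableSet.iInter fun m => MeasurableSet.iInter fun _ =>
          measurableSet_cocycle A (σ m) (hσ m) s _ } with hJ
  obtain ⟨w, h1, h2, h3⟩ := Pool.Agent.Helper53.Sub.engine J
    (fun t x s h m hm => h m (by omega))
    (fun t => hFA (J t) (σ t) (Sg t) (M t) (hσ t) (hσS t) (hMN t) (hMfg t)
      fun x s h => h t le_rfl)
  refine ⟨w, h1, h2, fun x s => h3 x s ?_⟩
  have hfin := hw3 x s
  obtain ⟨t0, ht0⟩ := hfin.bddAbove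
  obtain ⟨t1, ht1⟩ := hSex s
  refine ⟨max (t0 + 1) t1, fun m hm => ?_⟩
  have h1 : t0 < m := by have := le_max_left (t0 + 1) t1; omega
  have h2 : s ∈ S m := hSmono' t1 m ((le_max_right _ _).trans hm) ht1
  apply Subgroup.subset_closure
  refine ⟨?_, σ m x, hσS m x, s, h2, σ m (A.act x s), hσS m _, rfl⟩
  by_contra hne
  have := ht0 hne
  omega

end Pool.Agent.Helper44.Sub
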