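import Mathlib

/-!
Block S8 of MP_bdf835_lc stage 2 (helper82): the chain of closures of the derived series.
-/

set_option autoImplicit false

namespace Pool.Agent.Helper44.Sub

/-- S8 (the chain of closures of the derived series in a residually finite soluble group). -/
theorem closure_chain {G : Type} [Group G] (H : Subgroup G) [H.Normal] (ℓ : ℕ)
    (hsol : derivedSeries G ℓ ≤ H)
    (hRF : ∀ g, g ∉ H → ∃ K : Subgroup G, K.Normal ∧ K.FiniteIndex ∧ H ≤ K ∧ g ∉ K) :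
    ∃ N : ℕ → Subgroup G, (∀ i, (N i).Normal) ∧ N 0 = ⊤ ∧ (∀ i, N (i + 1) ≤ N i) ∧
      (∀ i, ∀ a ∈ N i, ∀ b ∈ N i, a * b * a⁻¹ * b⁻¹ ∈ N (i + 1)) ∧
      (∀ i g, g ∉ N i → ∃ K : Subgroup G, K.Normal ∧ K.FiniteIndex ∧ N i ≤ K ∧ g ∉ K) ∧
      N ℓ = H := by
  let S : ℕ → Set (Subgroup G) := fun i =>
    {K | K.Normal ∧ K.FiniteIndex ∧ H ≤ K ∧ derivedSeries G i ≤ K}
  refine ⟨fun i => sInf (S i), ?_, ?_, ?_, ?_, ?_, ?_⟩
  · intro i
    constructor
    intro n hn g
    rw [Subgroup.mem_sInf] at hn ⊢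
    intro K hK
    have := hK.1
    exact this.conj_mem n (hn K hK) g
  · refine le_antisymm le_top (le_sInf ?_)
    intro K hK
    have := hK.2.2.2
    rwa [derivedSeries_zero] at this
  · intro i
    refine sInf_le_sInf ?_
    intro K hK
    exact ⟨hK.1, hK.2.1, hK.2.2.1, le_trans (derivedSeries_antitone G (Nat.le_succ i)) hK.2.2.2⟩
  · intro i a ha b hb
    rw [Subgroup.mem_sInf]
    rintro K ⟨hK1, hK2, hK3, hK4⟩
    have hD : (derivedSeries G i).Normal := inferInstance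
    have hmem : K ⊔ derivedSeries G i ∈ S i :=
      ⟨inferInstance, Subgroup.finiteIndex_of_le (le_sup_left (a := K)),
        le_trans hK3 le_sup_left, le_sup_right⟩
    have key : ∀ a, a ∈ sInf (S i) → ∃ d ∈ derivedSeries G i, (d : G ⧸ K) = (a : G ⧸ K) := by
      intro a ha
      have h1 : a ∈ K ⊔ derivedSeries G i := Subgroup.mem_sInf.1 ha _ hmem
      have h2 := Subgroup.mem_map_of_mem (QuotientGroup.mk' K) h1
      rw [Subgroup.map_sup, QuotientGroup.map_mk'_self, bot_sup_eq, Subgroup.mem_map] at h2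
      obtain ⟨d, hd, h⟩ := h2
      exact ⟨d, hd, h⟩
    obtain ⟨d, hd, hda⟩ := key a ha
    obtain ⟨e, he, heb⟩ := key b hb
    have h3 : d * e * d⁻¹ * e⁻¹ ∈ K := by
      apply hK4
      rw [derivedSeries_succ]
      exact Subgroup.commutator_mem_commutator hd he
    rw [← QuotientGroup.eq_one_iff] at h3 ⊢
    rw [← h3]
    simp only [QuotientGroup.mk_mul, QuotientGroup.mk_inv, hda, heb]
  · intro i g hg
    rw [Subgroup.mem_sInf] at hg
    push Not at hg
    obtain ⟨K, hK, hgK⟩ := hg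
    exact ⟨K, hK.1, hK.2.1, sInf_le hK, hgK⟩
  · refine le_antisymm ?_ (le_sInf fun K hK => hK.2.2.1)
    intro g hg
    by_contra hgH
    obtain ⟨K, h1, h2, h3, h4⟩ := hRF g hgH
    exact h4 (Subgroup.mem_sInf.1 hg K ⟨h1, h2, h3, le_trans hsol h3⟩)

end Pool.Agent.Helper44.Sub
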