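import Pool.Agent.Helper44.Sub.Layer
import Pool.Agent.Helper44.Sub.Toast
import Pool.Agent.Helper44.Sub.Defs2

/-! S4: toasts as direct systems (second stage of MP_bdf835_lc). -/

set_option autoImplicit false

namespace Pool.Agent.Helper44.Sub

variable {X G : Type} [MeasurableSpace X] [Group G]

/-- the connecting map -/
noncomputable def con (A : RAct X G) (S : Finset G) (W : Set X) (ψ : X → G) (z : X) : G :=
  match pick S.toList (fun ρ => A.act z ρ⁻¹ ∈ W) with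
  | none => 1
  | some ρ => ρ⁻¹ * ψ (A.act z ρ⁻¹)

theorem con_none {A : RAct X G} {S : Finset G} {W : Set X} {ψ : X → G} {z : X}
    (h : pick S.toList (fun ρ => A.act z ρ⁻¹ ∈ W) = none) :
    con A S W ψ z = 1 := by
  unfold con; rw [h]

theorem con_some {A : RAct X G} {S : Finset G} {W : Set X} {ψ : X → G} {z : X} {ρ : G}
    (h : pick S.toList (fun ρ => A.act z ρ⁻¹ ∈ W) = some ρ) :
    con A S W ψ z = ρ⁻¹ * ψ (A.act z ρ⁻¹) := by
  unfold con; rw [h]

theorem con_meas [Countable G] (A : RAct X G) (S : Finset G) {W : Set X} (hW : MeasurableSet W)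
    {ψ : X → G} (hψ : MF ψ) : MF (con A S W ψ) := by
  have h1 : ∀ ρ : G, MF (fun z => ρ⁻¹ * ψ (A.act z ρ⁻¹)) := by
    intro ρ
    exact (hψ.compT (A.meas ρ⁻¹)).mapT (fun q => ρ⁻¹ * q)
  have h2 : MF (fun z => pick S.toList (fun ρ => A.act z ρ⁻¹ ∈ W)) :=
    pick_meas _ _ (fun ρ => (A.meas ρ⁻¹) hW)
  exact MF.bindT h2 (F := fun o z => (match o with
      | none => 1
      | some ρ => ρ⁻¹ * ψ (A.act z ρ⁻¹))) (fun o => by
        cases o with
        | none => exact MF.constT 1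
        | some ρ => exact h1 ρ)

theorem stepD [Countable G] {A : RAct X G} {N : Subgroup G} [hN : N.Normal] {D : ℕ}
    (hl : LayerProp A N D) (st : St A N D) (P : Finset G) :
    ∃ (st' : St A N D) (c : X → Fin D) (d : Fin D → X → G),
      (∀ a, MF (d a)) ∧ (∀ a, ∃ T : Finset G, ∀ x, d a x ∈ T) ∧
      (∀ a x, st'.σ a x = st.σ a x * d a (A.act x (st.σ a x))) ∧
      (∀ a x, ∀ μ ∈ st.M, d a (A.act x μ) = d a x ∧ (d a x)⁻¹ * μ * d a x ∈ st'.M) ∧
      ∀ a x s, s ∈ P → (∃ p ∈ P, c (A.act x p) = a) → (∃ p ∈ P, c (A.act (A.act x s) p) = a) →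
        (st'.σ a x)⁻¹ * s * st'.σ a (A.act x s) ∈ st'.M := by
  classical
  obtain ⟨σ, S, F, hσ, hS, hF⟩ := st
  set R : Finset G := (S ×ˢ S).image (fun p => p.1 * p.2⁻¹) ∪ P with hR
  set VF : Finset G := (S ×ˢ F).image (fun p => p.1 * p.2 * p.1⁻¹) with hVF
  have hVN : Subgroup.closure (VF : Set G) ≤ N := by
    rw [Subgroup.closure_le]
    intro v hv
    rw [Finset.mem_coe, hVF, Finset.mem_image] at hv
    obtain ⟨p, hp, rfl⟩ := hv
    rw [Finset.mem_product] at hp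
    exact hN.conj_mem _ (hF _ hp.2) _
  obtain ⟨Ψ, c, W, ψ, hc, hW, hψ, hΨ, h1, h2, h3⟩ := hl R (Subgroup.closure (VF : Set G)) hVN
    ⟨VF, rfl⟩
  set F' : Finset G := F ∪ ((Ψ ×ˢ (R ×ˢ Ψ)).image (fun p => p.1⁻¹ * p.2.1 * p.2.2)).filter (· ∈ N) ∪
    (S ×ˢ (Ψ ×ˢ F)).image (fun p => (p.1⁻¹ * p.2.1)⁻¹ * p.2.2 * (p.1⁻¹ * p.2.1)) with hF'
  set S' : Finset G := S ∪ (S ×ˢ (S ×ˢ Ψ)).image (fun p => p.1 * p.2.1⁻¹ * p.2.2) with hS'
  have hmemR : ∀ g ρ, g ∈ S → ρ ∈ S → g * ρ⁻¹ ∈ R := by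
    intro g ρ hg hρ
    rw [hR]
    exact Finset.mem_union_left _ (Finset.mem_image.2 ⟨(g, ρ), Finset.mem_product.2 ⟨hg, hρ⟩, rfl⟩)
  have hFN' : ∀ f ∈ F', f ∈ N := by
    intro f hf
    rw [hF', Finset.mem_union, Finset.mem_union] at hf
    rcases hf with (hf | hf) | hf
    · exact hF f hf
    · exact (Finset.mem_filter.1 hf).2
    · obtain ⟨p, hp, rfl⟩ := Finset.mem_image.1 hf
      rw [Finset.mem_product, Finset.mem_product] at hp
      have := hN.conj_mem _ (hF _ hp.2.2) (p.1⁻¹ * p.2.1)⁻¹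
      simpa using this
  have hσS' : ∀ a x, upd A S (W a) (σ a) (ψ a) x ∈ S' := by
    intro a x
    cases hp : pick S.toList (fun ρ => A.act (A.act x (σ a x)) ρ⁻¹ ∈ W a) with
    | none =>
      rw [upd_none hp]
      exact Finset.mem_union_left _ (hS a x)
    | some ρ =>
      rw [upd_some hp]
      refine Finset.mem_union_right _ (Finset.mem_image.2 ⟨(σ a x, ρ, _), ?_, rfl⟩)
      have := pick_some hp
      rw [Finset.mem_product, Finset.mem_product]
      exact ⟨hS a x, Finset.mem_toList.1 this.1, hΨ a _⟩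
  refine ⟨⟨fun a => upd A S (W a) (σ a) (ψ a), S', F', fun a => upd_meas A S (hW a) (hσ a) (hψ a),
    hσS', hFN'⟩, c, fun a => con A S (W a) (ψ a), fun a => con_meas A S (hW a) (hψ a),
    ?_, ?_, ?_, ?_⟩
  · intro a
    refine ⟨insert 1 ((S ×ˢ Ψ).image (fun p => p.1⁻¹ * p.2)), fun z => ?_⟩
    show con A S (W a) (ψ a) z ∈ _
    cases hp : pick S.toList (fun ρ => A.act z ρ⁻¹ ∈ W a) with
    | none =>
      rw [con_none hp]
      exact Finset.mem_insert_self _ _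
    | some ρ =>
      rw [con_some hp]
      refine Finset.mem_insert_of_mem (Finset.mem_image.2 ⟨(ρ, _), ?_, rfl⟩)
      have := pick_some hp
      rw [Finset.mem_product]
      exact ⟨Finset.mem_toList.1 this.1, hΨ a _⟩
  · intro a x
    show upd A S (W a) (σ a) (ψ a) x = σ a x * con A S (W a) (ψ a) (A.act x (σ a x))
    cases hp : pick S.toList (fun ρ => A.act (A.act x (σ a x)) ρ⁻¹ ∈ W a) with
    | none => rw [upd_none hp, con_none hp, mul_one]
    | some ρ => rw [upd_some hp, con_some hp, mul_assoc]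
  · intro a z μ hμ
    change μ ∈ Subgroup.closure (F : Set G) at hμ
    show con A S (W a) (ψ a) (A.act z μ) = con A S (W a) (ψ a) z ∧
      (con A S (W a) (ψ a) z)⁻¹ * μ * con A S (W a) (ψ a) z ∈ Subgroup.closure (F' : Set G)
    have hzρ : ∀ ρ : G, A.act (A.act z μ) ρ⁻¹ = A.act (A.act z ρ⁻¹) (ρ * μ * ρ⁻¹) := by
      intro ρ
      rw [A.mul, A.mul]
      congr 1
      group
    have hconj : ∀ ρ ∈ S, ρ * μ * ρ⁻¹ ∈ Subgroup.closure (VF : Set G) := by
      intro ρ hρ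
      refine conj_closure ρ ?_ μ hμ
      intro f hf
      apply Subgroup.subset_closure
      rw [Finset.mem_coe, hVF]
      exact Finset.mem_image.2 ⟨(ρ, f), Finset.mem_product.2 ⟨hρ, hf⟩, rfl⟩
    have hpick : pick S.toList (fun ρ => A.act (A.act z μ) ρ⁻¹ ∈ W a) =
        pick S.toList (fun ρ => A.act z ρ⁻¹ ∈ W a) := by
      apply pick_congr
      intro ρ hρ
      rw [hzρ ρ]
      exact (h3 a _ _ (hconj ρ (Finset.mem_toList.1 hρ))).1
    cases hp : pick S.toList (fun ρ => A.act z ρ⁻¹ ∈ W a) with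
    | none =>
      rw [con_none hp, con_none (hpick.trans hp)]
      refine ⟨rfl, ?_⟩
      rw [inv_one, one_mul, mul_one]
      refine Subgroup.closure_mono ?_ hμ
      intro f hf
      rw [Finset.mem_coe] at hf ⊢
      exact Finset.mem_union_left _ (Finset.mem_union_left _ hf)
    | some ρ =>
      have hρS : ρ ∈ S := Finset.mem_toList.1 (pick_some hp).1
      rw [con_some hp, con_some (hpick.trans hp), hzρ ρ, (h3 a _ _ (hconj ρ hρS)).2]
      refine ⟨rfl, ?_⟩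
      set p := ψ a (A.act z ρ⁻¹) with hpd
      have hpΨ : p ∈ Ψ := hΨ a _
      have : (ρ⁻¹ * p)⁻¹ * μ * (ρ⁻¹ * p) = (ρ⁻¹ * p)⁻¹ * μ * ((ρ⁻¹ * p)⁻¹)⁻¹ := by
        group
      rw [this]
      refine conj_closure _ ?_ μ hμ
      intro f hf
      apply Subgroup.subset_closure
      rw [Finset.mem_coe]
      refine Finset.mem_union_right _ (Finset.mem_image.2 ⟨(ρ, p, f), ?_, ?_⟩)
      · rw [Finset.mem_product, Finset.mem_product]
        exact ⟨hρS, hpΨ, hf⟩
      · simp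
  · intro a x s hs ⟨p, hp, hpa⟩ ⟨q, hq, hqa⟩
    show (upd A S (W a) (σ a) (ψ a) x)⁻¹ * s * upd A S (W a) (σ a) (ψ a) (A.act x s) ∈
      Subgroup.closure (F' : Set G)
    have hPR : ∀ p ∈ P, p ∈ R := fun p hp => Finset.mem_union_right _ hp
    have hxW : x ∈ W a := by rw [← hpa]; exact h1 x p (hPR p hp)
    have hyW : A.act x s ∈ W a := by rw [← hqa]; exact h1 _ q (hPR q hq)
    have hN2 : ∀ y r, r ∈ R → y ∈ W a → A.act y r ∈ W a →
        (ψ a y)⁻¹ * r * ψ a (A.act y r) ∈ Subgroup.closure (F' : Set G) := by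
      intro y r hr hy hyr
      apply Subgroup.subset_closure
      rw [Finset.mem_coe]
      refine Finset.mem_union_left _ (Finset.mem_union_right _ (Finset.mem_filter.2 ⟨?_, h2 a y r hr hy hyr⟩))
      refine Finset.mem_image.2 ⟨(ψ a y, r, ψ a (A.act y r)), ?_, rfl⟩
      rw [Finset.mem_product, Finset.mem_product]
      exact ⟨hΨ a y, hr, hΨ a _⟩
    have key : ∀ y, y ∈ W a → (ψ a y)⁻¹ * upd A S (W a) (σ a) (ψ a) y ∈
        Subgroup.closure (F' : Set G) := by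
      intro y hy
      have hne : pick S.toList (fun ρ => A.act (A.act y (σ a y)) ρ⁻¹ ∈ W a) ≠ none := by
        refine pick_ne_none (g := σ a y) (Finset.mem_toList.2 (hS a y)) ?_
        rw [A.mul, mul_inv_cancel, A.one]
        exact hy
      obtain ⟨ρ, hρ⟩ := Option.ne_none_iff_exists'.1 hne
      rw [upd_some hρ]
      have h4 := pick_some hρ
      have h5 : A.act (A.act y (σ a y)) ρ⁻¹ = A.act y (σ a y * ρ⁻¹) := A.mul _ _ _
      have h6 := h4.2
      rw [h5] at h6 ⊢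
      have h7 := hN2 y (σ a y * ρ⁻¹) (hmemR _ _ (hS a y) (Finset.mem_toList.1 h4.1)) hy h6
      rwa [mul_assoc] at h7
    have h8 := key x hxW
    have h9 := key _ hyW
    have h10 := hN2 x s (hPR s hs) hxW hyW
    have h11 := mul_mem (mul_mem (inv_mem h8) h10) h9
    convert h11 using 1
    group

/-- S4 from the layer property. -/
theorem toastD_of_layer [Countable G] (A : RAct X G) (N : Subgroup G) [N.Normal] (D : ℕ)
    (hl : LayerProp A N D) :
    ∃ (M : ℕ → Subgroup G) (δ : Fin D → ℕ → X → G),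
      (∀ t, M t ≤ N) ∧ (∀ t, (M t).FG) ∧ (∀ a t, MF (δ a t)) ∧
      (∀ a t, ∃ T : Finset G, ∀ x, δ a t x ∈ T) ∧
      (∀ a t x, ∀ μ ∈ M t, δ a t (A.act x μ) = δ a t x ∧
        (δ a t x)⁻¹ * μ * δ a t x ∈ M (t + 1)) ∧
      ∀ x, ∃ a, ∀ s s', ∃ t,
        (Dl A (δ a) t (A.act x s))⁻¹ * s' * Dl A (δ a) t (A.act (A.act x s) s') ∈ M t := by
  classical
  obtain ⟨e, he⟩ := exists_surjective_nat G
  set P : ℕ → Finset G := fun n => (Finset.range (n + 1)).image e with hP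
  have hPs : ∀ g : G, ∃ n0, ∀ n, n0 ≤ n → g ∈ P n := by
    intro g
    obtain ⟨k, rfl⟩ := he g
    exact ⟨k, fun n hn => Finset.mem_image.2 ⟨k, Finset.mem_range.2 (by omega), rfl⟩⟩
  have hstep := fun (st : St A N D) (P : Finset G) => stepD hl st P
  choose nx c d hd1 hd2 hd3 hd4 h2 using hstep
  let init : St A N D := ⟨fun _ _ => 1, {1}, ∅, fun _ => MF.constT 1, fun _ _ => by simp, by simp⟩
  let st : ℕ → St A N D := fun n => Nat.rec init (fun n s => nx s (P n)) n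
  have hst : ∀ n, st (n + 1) = nx (st n) (P n) := fun n => rfl
  have hDl : ∀ a t x, Dl A (fun t => d (st t) (P t) a) t x = (st t).σ a x := by
    intro a t
    induction t with
    | zero => intro x; rfl
    | succ t ih =>
      intro x
      show Dl A (fun t => d (st t) (P t) a) t x *
        d (st t) (P t) a (A.act x (Dl A (fun t => d (st t) (P t) a) t x)) = _
      rw [ih x, hst, hd3]
  refine ⟨fun t => (st t).M, fun a t => d (st t) (P t) a, ?_, ?_, ?_, ?_, ?_, ?_⟩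
  · intro t
    unfold St.M
    rw [Subgroup.closure_le]
    intro f hf
    exact (st t).hF f hf
  · intro t
    exact ⟨(st t).F, rfl⟩
  · intro a t
    exact hd1 _ _ a
  · intro a t
    exact hd2 _ _ a
  · intro a t x μ hμ
    exact hd4 _ _ a x μ hμ
  · intro x
    obtain ⟨a, ha⟩ := Finite.exists_infinite_fiber (fun n : ℕ => c (st n) (P n) x)
    have hainf : {n : ℕ | c (st n) (P n) x = a}.Infinite := Set.infinite_coe_iff.1 ha
    refine ⟨a, fun s s' => ?_⟩
    obtain ⟨n1, hn1⟩ := hPs s⁻¹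
    obtain ⟨n2, hn2⟩ := hPs (s * s')⁻¹
    obtain ⟨n3, hn3⟩ := hPs s'
    obtain ⟨n, hn, hge⟩ := hainf.exists_gt (n1 + n2 + n3)
    refine ⟨n + 1, ?_⟩
    show (Dl A (fun t => d (st t) (P t) a) (n + 1) (A.act x s))⁻¹ * s' *
      Dl A (fun t => d (st t) (P t) a) (n + 1) (A.act (A.act x s) s') ∈ (st (n + 1)).M
    rw [hDl, hDl, hst]
    refine h2 _ _ a (A.act x s) s' (hn3 n (by omega)) ⟨s⁻¹, hn1 n (by omega), ?_⟩
      ⟨(s * s')⁻¹, hn2 n (by omega), ?_⟩
    · rw [A.mul, mul_inv_cancel, A.one]; exact hn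
    · rw [A.mul, A.mul, show s * (s' * (s * s')⁻¹) = 1 by group, A.one]; exact hn

/-- S4 (toasts as direct systems). -/
theorem toastD [Countable G] (A : RAct X G) (hr : Rich A) (N : Subgroup G) [N.Normal] (D : ℕ)
    (hD : GAs (G ⧸ N) D) :
    ∃ (M : ℕ → Subgroup G) (δ : Fin D → ℕ → X → G),
      (∀ t, M t ≤ N) ∧ (∀ t, (M t).FG) ∧ (∀ a t, MF (δ a t)) ∧
      (∀ a t, ∃ T : Finset G, ∀ x, δ a t x ∈ T) ∧
      (∀ a t x, ∀ μ ∈ M t, δ a t (A.act x μ) = δ a t x ∧
        (δ a t x)⁻¹ * μ * δ a t x ∈ M (t + 1)) ∧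
      ∀ x, ∃ a, ∀ s s', ∃ t,
        (Dl A (δ a) t (A.act x s))⁻¹ * s' * Dl A (δ a) t (A.act (A.act x s) s') ∈ M t :=
  toastD_of_layer A N D fun R V hVN hV => layer A hr N D hD R V hVN hV

end Pool.Agent.Helper44.Sub
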