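import Pool.Agent.Helper44.Sub.Main
import Pool.Agent.Helper44.Sub.Defs2
import Pool.Agent.Helper44.Sub.FANorb
import Pool.Agent.Helper44.Sub.S5
import Pool.Agent.Helper44.Sub.S8
import Pool.Agent.Helper44.Sub.ToastD
import Pool.Agent.Helper29.Sub.S7
import Pool.Agent.Helper79.Sub.GlueN
import Pool.Agent.Helper98.Sub.Exact

set_option autoImplicit false

namespace Pool.Agent.Helper44.Sub

open Pool.Agent.Helper98.Sub (EngineNStmt HHN_of_exact_of)

variable {X G : Type} [MeasurableSpace X] [Group G]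

/-- (a): finite asymptotic dimension at the top, locally finite asymptotic dimension twice. -/
theorem HH_Ta (hE : EngineNStmt) [Countable G] {A : RAct X G} (hr : Rich A)
    (N₁ N₂ : Subgroup G) [N₁.Normal]
    [N₂.Normal] (hD : ∃ D, GAs (G ⧸ N₁) D)
    (hmid : ∀ M : Subgroup G, M ≤ N₁ → M.FG → ∃ D, GAs ↥(M.map (QuotientGroup.mk' N₂)) D)
    (hbot : ∀ M : Subgroup G, M ≤ N₂ → M.FG → ∃ D, GAs ↥M D) : HH A := by
  classical
  obtain ⟨D, hD⟩ := hD
  obtain ⟨M, δ, hMN, hMfg, hδm, hδT, hδM, hex⟩ := toastD A hr N₁ D hD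
  have key : ∀ a : Fin D, ∃ w : ℕ → X → G, (∀ m, MF (w m)) ∧
      (∀ m, ∃ T : Finset G, ∀ x, w m x ∈ T) ∧
      ∀ x s, (∃ t, (orbG A (M t)).rel (A.act x (Dl A (δ a) t x))
          ((Dl A (δ a) t x)⁻¹ * s * Dl A (δ a) t (A.act x s))) →
        {m | (w m x)⁻¹ * s * w m (A.act x s) ∉ N₂}.Finite := by
    intro a
    refine hE X G A N₂ (fun t => orbG A (M t)) (δ a) (hδm a) (hδT a)
      (fun t => InvN_orbG A _ _) ?_ ?_ ?_
    · intro t x s hs
      show (δ a t x)⁻¹ * s * δ a t (A.act x s) ∈ M (t + 1)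
      rw [(hδM a t x s hs).1]
      exact (hδM a t x s hs).2
    · intro t x ν _ hν
      exact (hδM a t x ν hν).1
    · intro t
      obtain ⟨D', h⟩ := hmid (M t) (hMN t) (hMfg t)
      exact ⟨D', FAN_orb hr N₂ (M t) D' h⟩
  choose w hw1 hw2 hw3 using key
  have hHN : HHN A N₂ := by
    refine HHN_glue N₂ D (fun a x => ∀ s s', ∃ t,
        (Dl A (δ a) t (A.act x s))⁻¹ * s' * Dl A (δ a) t (A.act (A.act x s) s') ∈ M t)
      ?_ ?_ hex w hw1 hw2 ?_
    · exact fun a => meas_Dl (hδm a) M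
    · exact fun a x g => inv_Dl M x g
    · intro a x s h
      obtain ⟨t, ht⟩ := h 1 s
      rw [A.one] at ht
      exact hw3 a x s ⟨t, ht⟩
  refine HH_of_HHN A N₂ hHN ?_
  intro J σ S M' hσ hS hM' hfg hJ
  obtain ⟨D', h⟩ := hbot M' hM' hfg
  exact FA_of_rich hr J σ hσ S hS M' D' h hJ

/-- (b): residually finite quotients with locally doubling factors at the top, then locally
finite asymptotic dimension twice. -/
theorem HH_Tb (hE : EngineNStmt) [Countable G] {A : RAct X G} (hr : Rich A)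
    (hfg : Group.FG G)
    (ℓ : ℕ) (N : ℕ → Subgroup G)
    [∀ i, (N i).Normal] (h0 : N 0 = ⊤) (hanti : ∀ i, N (i + 1) ≤ N i)
    (hd : ∀ i < ℓ, LocDoubling ((N i).map (QuotientGroup.mk' (N (i + 1)))))
    (hRF : ∀ i, 0 < i → i ≤ ℓ → ∀ g, g ∉ N i →
      ∃ K : Subgroup G, K.Normal ∧ K.FiniteIndex ∧ N i ≤ K ∧ g ∉ K)
    (N₂ : Subgroup G) [N₂.Normal] (h2 : N₂ ≤ N ℓ)
    (hmid : ∀ M : Subgroup G, M ≤ N ℓ → M.FG → ∃ D, GAs ↥(M.map (QuotientGroup.mk' N₂)) D)
    (hbot : ∀ M : Subgroup G, M ≤ N₂ → M.FG → ∃ D, GAs ↥M D) : HH A := by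
  classical
  have hK : ∀ j g, ∃ K : Subgroup G, K.Normal ∧ K.FiniteIndex ∧ N j ≤ K ∧
      (0 < j → j ≤ ℓ → g ∉ N j → g ∉ K) := by
    intro j g
    by_cases h : 0 < j ∧ j ≤ ℓ ∧ g ∉ N j
    · obtain ⟨K, h1, h2, h3, h4⟩ := hRF j h.1 h.2.1 g h.2.2
      exact ⟨K, h1, h2, h3, fun _ _ _ => h4⟩
    · refine ⟨⊤, inferInstance, inferInstance, le_top, ?_⟩
      intro h1 h2 h3
      exact absurd ⟨h1, h2, h3⟩ h
  choose K hK1 hK2 hK3 hK4 using hK
  have : ∀ j g, (K j g).Normal := hK1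
  obtain ⟨X', _, A', hA', hf⟩ := chain ℓ N h0 hanti hd K hK2 hK3 hK4
  have hφ : ∀ j g, ∃ φ : X → G ⧸ K j g, MF φ ∧
      ∀ x s, φ (A.act x s) = φ x * (s : G ⧸ K j g) :=
    fun j g => exists_equivariant hr hfg (K j g) (hK2 j g)
  choose φ hφ1 hφ2 using hφ
  obtain ⟨f, hf1, hf2⟩ := hf X A φ hφ1 hφ2
  have hHN : HHN A N₂ := by
    refine HHN_of_exact_of hE hr A' (QuotientGroup.mk' (N ℓ))
      (QuotientGroup.mk'_surjective _) f hf1 hf2 hA' N₂ ?_ ?_
    · rw [QuotientGroup.ker_mk']; exact h2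
    · rw [QuotientGroup.ker_mk']; exact hmid
  refine HH_of_HHN A N₂ hHN ?_
  intro J σ S M' hσ hS hM' hfg hJ
  obtain ⟨D', h⟩ := hbot M' hM' hfg
  exact FA_of_rich hr J σ hσ S hS M' D' h hJ

theorem generic_Ta (hE : EngineNStmt) (G : Type) [Group G] [Countable G]
    (N₁ N₂ : Subgroup G) [N₁.Normal] [N₂.Normal] (hD : FinAsdim (G ⧸ N₁))
    (hmid : ∀ M : Subgroup G, M ≤ N₁ → M.FG → FinAsdim ↥(M.map (QuotientGroup.mk' N₂)))
    (hbot : ∀ M : Subgroup G, M ≤ N₂ → M.FG → FinAsdim ↥M) :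
    {K : Sh G | HypF K} ∈ @residual (Sh G) (vietoris G) := by
  refine generic_of_rich G ?_
  intro X _ A hA
  exact HH_Ta hE hA N₁ N₂ (GAs_of_FinAsdim hD) (fun M h1 h2 => GAs_of_FinAsdim (hmid M h1 h2))
    (fun M h1 h2 => GAs_of_FinAsdim (hbot M h1 h2))

theorem generic_Tb (hE : EngineNStmt) (G : Type) [Group G] [Countable G] (hfg : Group.FG G)
    (ℓ : ℕ) (N : ℕ → Subgroup G)
    [∀ i, (N i).Normal] (h0 : N 0 = ⊤) (hanti : ∀ i, N (i + 1) ≤ N i)
    (hd : ∀ i < ℓ, LocDoubling ((N i).map (QuotientGroup.mk' (N (i + 1)))))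
    (hRF : ∀ i, 0 < i → i ≤ ℓ → ∀ g, g ∉ N i →
      ∃ K : Subgroup G, K.Normal ∧ K.FiniteIndex ∧ N i ≤ K ∧ g ∉ K)
    (N₂ : Subgroup G) [N₂.Normal] (h2 : N₂ ≤ N ℓ)
    (hmid : ∀ M : Subgroup G, M ≤ N ℓ → M.FG → FinAsdim ↥(M.map (QuotientGroup.mk' N₂)))
    (hbot : ∀ M : Subgroup G, M ≤ N₂ → M.FG → FinAsdim ↥M) :
    {K : Sh G | HypF K} ∈ @residual (Sh G) (vietoris G) := by
  refine generic_of_rich G ?_
  intro X _ A hA
  exact HH_Tb hE hA hfg ℓ N h0 hanti hd hRF N₂ h2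
    (fun M h1 h2 => GAs_of_FinAsdim (hmid M h1 h2))
    (fun M h1 h2 => GAs_of_FinAsdim (hbot M h1 h2))

/-! ### Corollaries -/

theorem finAsdim_of_abelian_sub {G : Type} [Group G] (N : Subgroup G)
    (hN : ∀ a ∈ N, ∀ b ∈ N, a * b = b * a) (M : Subgroup G) (hM : M ≤ N) (hfg : M.FG) :
    FinAsdim ↥M := by
  refine finAsdim_of_comm ((Group.fg_iff_subgroup_fg M).2 hfg) ?_
  intro a b
  exact Subtype.ext (hN a (hM a.2) b (hM b.2))

theorem finAsdim_of_abelian_quot {G : Type} [Group G] (N N' : Subgroup G) [N'.Normal]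
    (hN : ∀ a ∈ N, ∀ b ∈ N, a * b * a⁻¹ * b⁻¹ ∈ N') (M : Subgroup G) (hM : M ≤ N)
    (hfg : M.FG) : FinAsdim ↥(M.map (QuotientGroup.mk' N')) := by
  have hfg' : (M.map (QuotientGroup.mk' N')).FG := by
    classical
    obtain ⟨S, rfl⟩ := hfg
    refine ⟨S.image (QuotientGroup.mk' N'), ?_⟩
    rw [Finset.coe_image, MonoidHom.map_closure]
  refine finAsdim_of_comm ((Group.fg_iff_subgroup_fg _).2 hfg') ?_
  rintro ⟨a, a', ha, rfl⟩ ⟨b, b', hb, rfl⟩
  apply Subtype.ext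
  show (QuotientGroup.mk' N') a' * (QuotientGroup.mk' N') b' =
    (QuotientGroup.mk' N') b' * (QuotientGroup.mk' N') a'
  have h := hN a' (hM ha) b' (hM hb)
  rw [← map_mul, ← map_mul]
  refine (QuotientGroup.eq_iff_div_mem).2 ?_
  have : a' * b' / (b' * a') = a' * b' * a'⁻¹ * b'⁻¹ := by rw [div_eq_mul_inv, mul_inv_rev]; simp only [mul_assoc]
  rw [this]
  exact h

theorem finAsdim_of_subsingleton {Q : Type} [Group Q] [Subsingleton Q] : FinAsdim Q := by
  refine ⟨1, fun R => ⟨{1}, fun _ => 0, fun n p _ => ?_⟩⟩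
  rw [Finset.mem_singleton]
  exact Subsingleton.elim _ _

theorem derived_comm {G : Type} [Group G] (n : ℕ) (a : G) (ha : a ∈ derivedSeries G n) (b : G)
    (hb : b ∈ derivedSeries G n) : a * b * a⁻¹ * b⁻¹ ∈ derivedSeries G (n + 1) := by
  rw [derivedSeries_succ]
  exact Subgroup.commutator_mem_commutator ha hb

/-- every countable metabelian group -/
theorem generic_metabelian (hE : EngineNStmt) (G : Type) [Group G] [Countable G]
    (h : derivedSeries G 2 = ⊥) :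
    {K : Sh G | HypF K} ∈ @residual (Sh G) (vietoris G) := by
  have : Subsingleton (G ⧸ (⊤ : Subgroup G)) := QuotientGroup.subsingleton_quotient_top
  refine generic_Ta hE G ⊤ (derivedSeries G 1) finAsdim_of_subsingleton ?_ ?_
  · intro M hM hfg
    refine finAsdim_of_abelian_quot ⊤ (derivedSeries G 1) ?_ M hM hfg
    intro a _ b _
    exact derived_comm 0 a (by simp) b (by simp)
  · intro M hM hfg
    refine finAsdim_of_abelian_sub (derivedSeries G 1) ?_ M hM hfg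
    intro a ha b hb
    have h1 := derived_comm 1 a ha b hb
    rw [h, Subgroup.mem_bot] at h1
    have h2 : a * b * a⁻¹ * b⁻¹ * b * a = 1 * b * a := by rw [h1]
    simpa using h2

/-- every finitely generated soluble group of derived length at most three -/
theorem generic_derived_three (hE : EngineNStmt) (G : Type) [Group G] [Countable G]
    (hfg : Group.FG G) (h : derivedSeries G 3 = ⊥) :
    {K : Sh G | HypF K} ∈ @residual (Sh G) (vietoris G) := by
  refine generic_Ta hE G (derivedSeries G 1) (derivedSeries G 2) ?_ ?_ ?_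
  · refine finAsdim_of_comm (QuotientGroup.fg _) ?_
    intro a b
    induction a using QuotientGroup.induction_on with
    | H a =>
      induction b using QuotientGroup.induction_on with
      | H b =>
        have h1 := derived_comm 0 a (by simp) b (by simp)
        rw [← QuotientGroup.mk_mul, ← QuotientGroup.mk_mul]
        refine (QuotientGroup.eq_iff_div_mem).2 ?_
        have : a * b / (b * a) = a * b * a⁻¹ * b⁻¹ := by rw [div_eq_mul_inv, mul_inv_rev]; simp only [mul_assoc]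
        rw [this]
        exact h1
  · intro M hM hfg
    exact finAsdim_of_abelian_quot (derivedSeries G 1) (derivedSeries G 2)
      (fun a ha b hb => derived_comm 1 a ha b hb) M hM hfg
  · intro M hM hfg
    refine finAsdim_of_abelian_sub (derivedSeries G 2) ?_ M hM hfg
    intro a ha b hb
    have h1 := derived_comm 2 a ha b hb
    rw [h, Subgroup.mem_bot] at h1
    have h2 : a * b * a⁻¹ * b⁻¹ * b * a = 1 * b * a := by rw [h1]
    simpa using h2

theorem locDoubling_of_comm {Γ : Type} [Group Γ] (N : Subgroup Γ)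
    (hN : ∀ a ∈ N, ∀ b ∈ N, a * b = b * a) : LocDoubling N := by
  intro S hS hSN
  exact doubling_of_comm S hS (fun a ha b hb => hN a (hSN ha) b (hSN hb))

/-- finitely generated groups `G` with a normal subgroup `H` such that `G ⧸ H` is soluble and
residually finite and `H` has two layers of locally finite asymptotic dimension -/
theorem generic_soluble_rf (hE : EngineNStmt) (G : Type) [Group G] [Countable G]
    (hfg : Group.FG G) (H : Subgroup G) [H.Normal] (ℓ : ℕ) (hsol : derivedSeries G ℓ ≤ H)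
    (hRF : ∀ g, g ∉ H → ∃ K : Subgroup G, K.Normal ∧ K.FiniteIndex ∧ H ≤ K ∧ g ∉ K)
    (N₂ : Subgroup G) [N₂.Normal] (h2 : N₂ ≤ H)
    (hmid : ∀ M : Subgroup G, M ≤ H → M.FG → FinAsdim ↥(M.map (QuotientGroup.mk' N₂)))
    (hbot : ∀ M : Subgroup G, M ≤ N₂ → M.FG → FinAsdim ↥M) :
    {K : Sh G | HypF K} ∈ @residual (Sh G) (vietoris G) := by
  obtain ⟨N, hn, h0, hanti, hcomm, hrf, hℓ⟩ := closure_chain H ℓ hsol hRF
  have : ∀ i, (N i).Normal := hn
  refine generic_Tb hE G hfg ℓ N h0 hanti ?_ (fun i _ _ g hg => hrf i g hg) N₂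
    (by rw [hℓ]; exact h2) (by rw [hℓ]; exact hmid) hbot
  intro i _
  refine locDoubling_of_comm _ ?_
  rintro _ ⟨a, ha, rfl⟩ _ ⟨b, hb, rfl⟩
  rw [← map_mul, ← map_mul]
  refine (QuotientGroup.eq_iff_div_mem).2 ?_
  have : a * b / (b * a) = a * b * a⁻¹ * b⁻¹ := by rw [div_eq_mul_inv, mul_inv_rev]; simp only [mul_assoc]
  rw [this]
  exact hcomm i a ha b hb

end Pool.Agent.Helper44.Sub
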