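import Pool.Agent.Helper53.Sub.Kolm
import Pool.Agent.Helper44.Sub.Defs2

set_option autoImplicit false

/-!
Block S1 of the generic hyperfiniteness project (MP_bdf835_lc), second stage: the palette modulo a
normal subgroup.
-/

namespace Pool.Agent.Helper44.Sub

open Pool.Agent.Helper53.Sub
open scoped Classical Pointwise

variable {X G : Type} [MeasurableSpace X] [Group G]

namespace KN

theorem sel_congr {ι : Type} (d : ι) (l : List ι) (p q : ι → Prop)
    (h : ∀ a ∈ l, p a ↔ q a) : sel d l p = sel d l q := by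
  induction l with
  | nil => rfl
  | cons a l ih =>
    have h1 := h a (by simp)
    have h2 := ih fun b hb => h b (List.mem_cons_of_mem _ hb)
    by_cases hp : p a
    · simp [sel, hp, h1.1 hp]
    · have hq : ¬ q a := fun hq => hp (h1.2 hq)
      simp [sel, hp, hq, h2]

/-- the conjugates of the elements of `F` by the elements of `R` -/
noncomputable def cj (R F : Finset G) : Finset G := R.biUnion fun r => F.image fun ν => r⁻¹ * ν * r

theorem mem_cj {R F : Finset G} {r ν : G} (hr : r ∈ R) (hν : ν ∈ F) : r⁻¹ * ν * r ∈ cj R F := by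
  unfold cj
  rw [Finset.mem_biUnion]
  exact ⟨r, hr, Finset.mem_image_of_mem _ hν⟩

theorem mem_cj_one {R F : Finset G} {ν : G} (hr : (1 : G) ∈ R) (hν : ν ∈ F) : ν ∈ cj R F := by
  have := mem_cj hr hν
  simpa using this

theorem conj_mem (N : Subgroup G) [hN : N.Normal] {ν : G} (hν : ν ∈ N) (r : G) :
    r⁻¹ * ν * r ∈ N := by
  have := hN.conj_mem ν hν r⁻¹
  simpa using this

variable {A : RAct X G} {N : Subgroup G} {J : Gpd A}

/-- moving along `ν` and then `r`, seen from the end of `r` -/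
theorem act_conj (A : RAct X G) (x : X) (ν r : G) :
    A.act (A.act x ν) r = A.act (A.act x r) (r⁻¹ * ν * r) := by
  rw [A.mul, A.mul]
  congr 1
  group

theorem rel_conj (hJ : InvN N J) {x : X} {ν r : G} (hν : ν ∈ N) (h1 : J.rel x ν)
    (h2 : J.rel x r) : J.rel (A.act x r) (r⁻¹ * ν * r) := by
  have h3 : A.act (A.act x r) r⁻¹ = x := by rw [A.mul, mul_inv_cancel, A.one]
  have h4 : J.rel x (ν * r) := J.mul _ _ _ h1 ((hJ x ν r hν h1).1 h2)
  have h5 := J.mul (A.act x r) r⁻¹ (ν * r) (J.inv _ _ h2) (by rw [h3]; exact h4)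
  rwa [← mul_assoc] at h5

/-- the invariance of a pair `(U, χ)` under the elements of `F ∩ N` -/
def Inva (N : Subgroup G) (J : Gpd A) (F : Finset G) (U : Set X) (χ : X → G) : Prop :=
  ∀ x, ∀ ν ∈ F, ν ∈ N → J.rel x ν → (A.act x ν ∈ U ↔ x ∈ U) ∧ χ (A.act x ν) = χ x

theorem inva_rsel [N.Normal] (hJ : InvN N J) {R1 F : Finset G} {U : Set X} {χ : X → G}
    (h : Inva N J (cj R1 F) U χ) {x : X} {ν : G} (hν : ν ∈ F) (hνN : ν ∈ N) (hJν : J.rel x ν) :
    ∀ r ∈ R1, (J.rel (A.act x ν) r ∧ A.act (A.act x ν) r ∈ U) ↔ (J.rel x r ∧ A.act x r ∈ U) := by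
  intro r hr
  have h1 := hJ x ν r hνN hJν
  constructor
  · rintro ⟨h2, h3⟩
    have h4 := h1.2 h2
    refine ⟨h4, ?_⟩
    rw [act_conj] at h3
    exact (h (A.act x r) _ (mem_cj hr hν) (conj_mem N hνN r) (rel_conj hJ hνN hJν h4)).1.1 h3
  · rintro ⟨h2, h3⟩
    refine ⟨h1.1 h2, ?_⟩
    rw [act_conj]
    exact (h (A.act x r) _ (mem_cj hr hν) (conj_mem N hνN r) (rel_conj hJ hνN hJν h2)).1.2 h3

theorem inva_plus [N.Normal] (hJ : InvN N J) {R1 F : Finset G} (h1R : (1 : G) ∈ R1) {U : Set X}
    {χ : X → G} (h : Inva N J (cj R1 F) U χ) : Inva N J F (Up J R1 U) (chp J R1 U χ) := by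
  intro x ν hν hνN hJν
  have h1 := inva_rsel hJ h hν hνN hJν
  constructor
  · constructor
    · rintro ⟨r, hr, h2⟩
      exact ⟨r, hr, (h1 r hr).1 h2⟩
    · rintro ⟨r, hr, h2⟩
      exact ⟨r, hr, (h1 r hr).2 h2⟩
  · have h2 : rsel J R1 U (A.act x ν) = rsel J R1 U x :=
      sel_congr 1 R1.toList _ _ fun r hr => h1 r (Finset.mem_toList.1 hr)
    unfold chp
    rw [h2]
    set r := rsel J R1 U x with hr
    have hrm : r ∈ R1 := rsel_mem J R1 h1R U x
    have hrJ : J.rel x r := rsel_rel J R1 U x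
    rw [act_conj, (h (A.act x r) _ (mem_cj hrm hν) (conj_mem N hνN r)
      (rel_conj hJ hνN hJν hrJ)).2]

/-- coherence of the thickened family modulo `N` -/
theorem coh_plus (R R1 : Finset G) (hRR : R ⊆ R1) (hinv : ∀ r ∈ R1, r⁻¹ ∈ R1) (U : Set X)
    (χ : X → G)
    (hcoh : ∀ x ∈ U, ∀ q ∈ R1 * R1 * R1, J.rel x q → A.act x q ∈ U →
      (χ x)⁻¹ * q * χ (A.act x q) ∈ N)
    (x : X) (hx : x ∈ Up J R1 U) (r : G) (hr : r ∈ R) (hJ : J.rel x r)
    (hxr : A.act x r ∈ Up J R1 U) :
    (chp J R1 U χ x)⁻¹ * r * chp J R1 U χ (A.act x r) ∈ N := by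
  obtain ⟨a1, a2, a3⟩ := rsel_spec J R1 U x hx
  obtain ⟨b1, b2, b3⟩ := rsel_spec J R1 U _ hxr
  unfold chp
  set p := rsel J R1 U x with hp
  set q := rsel J R1 U (A.act x r) with hq
  have e1 : A.act (A.act x p) (p⁻¹ * r * q) = A.act (A.act x r) q := by
    rw [A.mul, A.mul]; congr 1; group
  have hrel : J.rel (A.act x p) (p⁻¹ * r * q) := by
    have h1 := J.inv _ _ a2
    have h2 : J.rel x (r * q) := J.mul _ _ _ hJ b2
    have h3 : A.act (A.act x p) p⁻¹ = x := by rw [A.mul]; simp [A.one]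
    have := J.mul (A.act x p) p⁻¹ (r * q) h1 (by rw [h3]; exact h2)
    rwa [← mul_assoc] at this
  have := hcoh (A.act x p) a3 (p⁻¹ * r * q)
    (Finset.mul_mem_mul (Finset.mul_mem_mul (hinv _ a1) (hRR hr)) b1) hrel (by rw [e1]; exact b3)
  rw [e1] at this
  have e2 : (p * χ (A.act x p))⁻¹ * r * (q * χ (A.act (A.act x r) q)) =
      (χ (A.act x p))⁻¹ * (p⁻¹ * r * q) * χ (A.act (A.act x r) q) := by group
  rw [e2]
  exact this

/-! ### The families -/

theorem fams [Countable G] (N : Subgroup G) [N.Normal] (J : Gpd A) (hJ : InvN N J) (κ : ℕ)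
    (h : FAN N J (κ + 1)) (L : ℕ) (hL : κ + 1 ≤ L) : ∀ R F : Finset G,
    ∃ (T : Finset G) (U : Fin L → Set X) (χ : Fin L → X → G),
      (∀ i, MeasurableSet (U i)) ∧ (∀ i, MF (χ i)) ∧ (∀ i x, χ i x ∈ T) ∧
      (∀ i x, J.rel x (χ i x)) ∧
      (∀ i, ∀ x ∈ U i, ∀ r ∈ R, J.rel x r → A.act x r ∈ U i →
        (χ i x)⁻¹ * r * χ i (A.act x r) ∈ N) ∧
      (∀ i, Inva N J F (U i) (χ i)) ∧
      ∀ x, {i | x ∉ U i}.ncard ≤ κ := by
  induction L, hL using Nat.le_induction with
  | base =>
    intro R F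
    obtain ⟨T, c, χ, h1, h2, h3, h4, h5, h6⟩ := h R F
    refine ⟨T, fun i => {x | c x = i}, fun _ => χ, fun i => h1 i, fun _ => h2, fun _ => h3,
      fun _ => h4, ?_, ?_, ?_⟩
    · intro i x hx r hr hJ hxr
      exact h5 x r hr hJ (by rw [Set.mem_ofPred_eq] at hx hxr; rw [hx, hxr])
    · intro i x ν hν hνN hJν
      obtain ⟨h7, h8⟩ := h6 x ν hν hνN hJν
      refine ⟨?_, h8⟩
      rw [Set.mem_ofPred_eq, Set.mem_ofPred_eq, h7]
    · intro x
      have : {i | x ∉ {x | c x = i}} = {c x}ᶜ := by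
        ext i; simp [eq_comm]
      rw [this, Set.ncard_compl]
      simp
  | succ L hL ih =>
    intro R F
    set R1 : Finset G := R ∪ R⁻¹ ∪ {1} with hR1
    have h1R : (1 : G) ∈ R1 := by simp [hR1]
    have hRR : R ⊆ R1 := by intro r hr; simp [hR1, hr]
    have hinv : ∀ r ∈ R1, r⁻¹ ∈ R1 := by
      intro r hr
      simp only [hR1, Finset.mem_union, Finset.mem_inv', Finset.mem_singleton] at hr ⊢
      rcases hr with (hr | hr) | hr
      · left; right; simpa using hr
      · left; left; exact hr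
      · right; simp [hr]
    obtain ⟨T, U, χ, mU, mχ, hT, hrel, hcoh, hiv, hmiss⟩ := ih (R1 * R1 * R1) (cj R1 F)
    have hUp : ∀ i, U i ⊆ Up J R1 (U i) := by
      intro i x hx
      exact ⟨1, h1R, J.one x, by rw [A.one]; exact hx⟩
    have hivp : ∀ i, Inva N J F (Up J R1 (U i)) (chp J R1 (U i) (χ i)) :=
      fun i => inva_plus hJ h1R (hiv i)
    -- the new set
    let Un : Set X := {x | {i | x ∉ Up J R1 (U i)}.ncard = κ}
    let ix : X → Fin L := fun x => sel ⟨0, by omega⟩ (List.finRange L) (fun i => x ∈ Up J R1 (U i))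
    have mUp : ∀ i, MeasurableSet (Up J R1 (U i)) := fun i => ms_Up J R1 _ (mU i)
    have mix : MF ix := mf_sel _ _ _ (fun i _ => mUp i)
    have mUn : MeasurableSet Un := by
      have : Un = ⋃ s ∈ {s : Set (Fin L) | s.ncard = κ},
          ⋂ i, {x | (x ∉ Up J R1 (U i)) ↔ i ∈ s} := by
        ext x
        simp only [Un, Set.mem_ofPred_eq, Set.mem_iUnion, Set.mem_iInter, exists_prop]
        constructor
        · intro hx
          exact ⟨{i | x ∉ Up J R1 (U i)}, hx, fun i => Iff.rfl⟩
        · rintro ⟨s, hs, hs2⟩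
          have : {i | x ∉ Up J R1 (U i)} = s := by ext i; exact hs2 i
          rw [this]; exact hs
      rw [this]
      refine MeasurableSet.biUnion (Set.to_countable _) (fun s _ => MeasurableSet.iInter fun i => ?_)
      by_cases his : i ∈ s
      · simp only [his, iff_true]; exact (mUp i).compl
      · simp only [his, iff_false, not_not]; exact mUp i
    have hsub : ∀ x, {i | x ∉ Up J R1 (U i)} ⊆ {i | x ∉ U i} := fun x i hi hx => hi (hUp i hx)
    have hcard : ∀ x, {i | x ∉ Up J R1 (U i)}.ncard ≤ κ := fun x =>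
      (Set.ncard_le_ncard (hsub x) (Set.toFinite _)).trans (hmiss x)
    have hUn : ∀ x ∈ Un, ∀ i, x ∈ Up J R1 (U i) ↔ x ∈ U i := by
      intro x hx i
      have : {i | x ∉ Up J R1 (U i)} = {i | x ∉ U i} := by
        apply Set.eq_of_subset_of_ncard_le (hsub x) _ (Set.toFinite _)
        have hx' : {i | x ∉ Up J R1 (U i)}.ncard = κ := hx
        rw [hx']; exact hmiss x
      have h2 := Set.ext_iff.1 this i
      simp only [Set.mem_ofPred_eq] at h2
      exact not_iff_not.1 h2
    have hixx : ∀ x ∈ Un, x ∈ U (ix x) := by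
      intro x hx
      have hne : ∃ i ∈ List.finRange L, x ∈ Up J R1 (U i) := by
        by_contra hcon
        have hall : {i | x ∉ Up J R1 (U i)} = Set.univ := by
          ext i
          simp only [Set.mem_ofPred_eq, Set.mem_univ, iff_true]
          intro hi
          exact hcon ⟨i, List.mem_finRange i, hi⟩
        have := hcard x
        rw [hall, Set.ncard_univ, Nat.card_fin] at this
        omega
      have := (sel_spec (⟨0, by omega⟩ : Fin L) _ _ hne).2
      exact (hUn x hx _).1 this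
    refine ⟨R1 * T ∪ T, Fin.snoc (fun i => Up J R1 (U i)) Un,
      Fin.snoc (fun i => chp J R1 (U i) (χ i)) (fun x => χ (ix x) x), ?_, ?_, ?_, ?_, ?_, ?_, ?_⟩
    · intro i
      refine Fin.lastCases ?_ (fun j => ?_) i
      · simpa using mUn
      · simpa using mUp j
    · intro i
      refine Fin.lastCases ?_ (fun j => ?_) i
      · simp only [Fin.snoc_last]
        intro b
        exact ms_dep mix (fun x i => χ i x = b) (fun i => mχ i b)
      · simp only [Fin.snoc_castSucc]
        exact mf_chp J R1 _ (mU j) _ (mχ j)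
    · intro i x
      refine Fin.lastCases ?_ (fun j => ?_) i
      · simp only [Fin.snoc_last]
        exact Finset.mem_union_right _ (hT _ _)
      · simp only [Fin.snoc_castSucc]
        exact Finset.mem_union_left _ (chp_mem J R1 T h1R _ _ (hT j) x)
    · intro i x
      refine Fin.lastCases ?_ (fun j => ?_) i
      · simp only [Fin.snoc_last]
        exact hrel _ _
      · simp only [Fin.snoc_castSucc]
        exact chp_rel J R1 _ _ (hrel j) x
    · intro i
      refine Fin.lastCases ?_ (fun j => ?_) i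
      · simp only [Fin.snoc_last]
        intro x hx r hr hJ' hxr
        have hiff : ∀ i, x ∈ Up J R1 (U i) ↔ A.act x r ∈ Up J R1 (U i) := by
          intro i
          constructor
          · intro hi
            have hxi := (hUn x hx i).1 hi
            refine ⟨r⁻¹, hinv _ (hRR hr), J.inv _ _ hJ', ?_⟩
            rw [A.mul, mul_inv_cancel, A.one]; exact hxi
          · intro hi
            have hxi := (hUn _ hxr i).1 hi
            exact ⟨r, hRR hr, hJ', hxi⟩
        have hixe : ix x = ix (A.act x r) := by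
          show sel _ _ _ = sel _ _ _
          congr 1
          funext i
          exact propext (hiff i)
        have h1 := hixx x hx
        have h2 := hixx _ hxr
        rw [← hixe] at h2 ⊢
        refine hcoh _ x h1 r ?_ hJ' h2
        have : r = 1 * 1 * r := by simp
        rw [this]
        exact Finset.mul_mem_mul (Finset.mul_mem_mul h1R h1R) (hRR hr)
      · simp only [Fin.snoc_castSucc]
        intro x hx r hr hJ' hxr
        exact coh_plus R R1 hRR hinv (U j) (χ j)
          (fun y hy q hq hJq hyq => hcoh j y hy q hq hJq hyq) x hx r hr hJ' hxr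
    · intro i
      refine Fin.lastCases ?_ (fun j => ?_) i
      · simp only [Fin.snoc_last]
        intro x ν hν hνN hJν
        have hiff : ∀ i, A.act x ν ∈ Up J R1 (U i) ↔ x ∈ Up J R1 (U i) :=
          fun i => (hivp i x ν hν hνN hJν).1
        constructor
        · show {i | A.act x ν ∉ Up J R1 (U i)}.ncard = κ ↔ {i | x ∉ Up J R1 (U i)}.ncard = κ
          simp only [hiff]
        · have hixe : ix (A.act x ν) = ix x := by
            show sel _ _ _ = sel _ _ _
            congr 1
            funext i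
            exact propext (hiff i)
          show χ (ix (A.act x ν)) (A.act x ν) = χ (ix x) x
          rw [hixe]
          exact (hiv _ x ν (mem_cj_one h1R hν) hνN hJν).2
      · simp only [Fin.snoc_castSucc]
        exact hivp j
    · intro x
      by_cases hx : x ∈ Un
      · have : {i : Fin (L + 1) | x ∉ (Fin.snoc (fun i => Up J R1 (U i)) Un : Fin (L + 1) → Set X) i} ⊆
            Fin.castSucc '' {i | x ∉ Up J R1 (U i)} := by
          intro i
          refine Fin.lastCases ?_ (fun j => ?_) i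
          · intro hi
            simp only [Set.mem_ofPred_eq, Fin.snoc_last] at hi
            exact absurd hx hi
          · intro hi
            simp only [Set.mem_ofPred_eq, Fin.snoc_castSucc] at hi
            exact ⟨j, hi, rfl⟩
        refine (Set.ncard_le_ncard this (Set.toFinite _)).trans ?_
        refine (Set.ncard_image_le (Set.toFinite _)).trans (hcard x)
      · have : {i : Fin (L + 1) | x ∉ (Fin.snoc (fun i => Up J R1 (U i)) Un : Fin (L + 1) → Set X) i} ⊆
            insert (Fin.last L) (Fin.castSucc '' {i | x ∉ Up J R1 (U i)}) := by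
          intro i
          refine Fin.lastCases ?_ (fun j => ?_) i
          · intro _; exact Set.mem_insert _ _
          · intro hi
            simp only [Set.mem_ofPred_eq, Fin.snoc_castSucc] at hi
            exact Set.mem_insert_of_mem _ ⟨j, hi, rfl⟩
        refine (Set.ncard_le_ncard this (Set.toFinite _)).trans ?_
        refine (Set.ncard_insert_le _ _).trans ?_
        have h1 : (Fin.castSucc '' {i | x ∉ Up J R1 (U i)}).ncard ≤
          {i | x ∉ Up J R1 (U i)}.ncard := Set.ncard_image_le (Set.toFinite _)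
        have h2 := hcard x
        have h3 : {i | x ∉ Up J R1 (U i)}.ncard ≠ κ := hx
        omega

end KN

open KN in
/-- S1 (palette modulo N). -/
theorem kolmN [Countable G] {A : RAct X G} (N : Subgroup G) [N.Normal] (J : Gpd A)
    (hJ : InvN N J) (κ : ℕ) (h : FAN N J (κ + 1)) (L : ℕ) (R F : Finset G) :
    ∃ (T : Finset G) (τ : Fin L → X → G),
      (∀ i, MF (τ i)) ∧ (∀ i x, τ i x ∈ T) ∧ (∀ i x, J.rel x (τ i x)) ∧
      (∀ x, {i | ∃ r ∈ R, J.rel x r ∧ (τ i x)⁻¹ * r * τ i (A.act x r) ∉ N}.ncard ≤ κ) ∧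
      ∀ i x, ∀ ν ∈ F, ν ∈ N → J.rel x ν → τ i (A.act x ν) = τ i x := by
  by_cases hL : κ + 1 ≤ L
  · set R1 : Finset G := R ∪ R⁻¹ ∪ {1} with hR1
    have h1R : (1 : G) ∈ R1 := by simp [hR1]
    have hRR : R ⊆ R1 := by intro r hr; simp [hR1, hr]
    have hinv : ∀ r ∈ R1, r⁻¹ ∈ R1 := by
      intro r hr
      simp only [hR1, Finset.mem_union, Finset.mem_inv', Finset.mem_singleton] at hr ⊢
      rcases hr with (hr | hr) | hr
      · left; right; simpa using hr
      · left; left; exact hr
      · right; simp [hr]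
    obtain ⟨T, U, χ, mU, mχ, hT, hrel, hcoh, hiv, hmiss⟩ :=
      KN.fams N J hJ κ h L hL (R1 * R1 * R1) (cj R1 F)
    refine ⟨R1 * T, fun i => chp J R1 (U i) (χ i), fun i => mf_chp J R1 _ (mU i) _ (mχ i),
      fun i x => chp_mem J R1 T h1R _ _ (hT i) x, fun i x => chp_rel J R1 _ _ (hrel i) x, ?_,
      fun i x ν hν hνN hJν => (inva_plus hJ h1R (hiv i) x ν hν hνN hJν).2⟩
    intro x
    refine (Set.ncard_le_ncard ?_ (Set.toFinite _)).trans (hmiss x)
    rintro i ⟨r, hr, hJ', hcut⟩ hxU
    apply hcut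
    refine coh_plus R R1 hRR hinv (U i) (χ i)
      (fun y hy q hq hJq hyq => hcoh i y hy q hq hJq hyq) x ?_ r hr hJ' ?_
    · exact ⟨1, h1R, J.one x, by rw [A.one]; exact hxU⟩
    · refine ⟨r⁻¹, hinv _ (hRR hr), J.inv _ _ hJ', ?_⟩
      rw [A.mul, mul_inv_cancel, A.one]; exact hxU
  · refine ⟨{1}, fun _ _ => 1, fun _ => mf_const 1, fun _ _ => by simp, fun _ x => J.one x, ?_,
      fun _ _ _ _ _ _ => rfl⟩
    intro x
    refine (Set.ncard_le_ncard (Set.subset_univ _) (Set.toFinite _)).trans ?_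
    rw [Set.ncard_univ, Nat.card_fin]
    omega

end Pool.Agent.Helper44.Sub
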