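import Pool.Agent.Helper44.Sub.S1

set_option autoImplicit false

/-!
Block S2 of the generic hyperfiniteness project (MP_bdf835_lc), second stage: the engine modulo a
normal subgroup, with sheets.
-/

namespace Pool.Agent.Helper44.Sub

open Pool.Agent.Helper53.Sub
open scoped Classical Pointwise

variable {X G : Type} [MeasurableSpace X] [Group G]

namespace EN

open KN

/-! ### Finite sets -/

noncomputable def fQ (R T : Finset G) : Finset G := R * (T * T⁻¹)

noncomputable def fFb (R T F : Finset G) : Finset G :=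
  (T * (T⁻¹ * R * T) * T⁻¹) ∪ (T * (T⁻¹ * F * T) * T⁻¹)

noncomputable def fE (R T B : Finset G) : Finset G := B⁻¹ * ((fQ R T)⁻¹ * (R * T))

noncomputable def fFp (R T F B : Finset G) : Finset G :=
  (B⁻¹ * fFb R T F * B) ∪ (B⁻¹ * ((fQ R T)⁻¹ * fQ R T) * B)

noncomputable def fFpp (R T F B : Finset G) : Finset G :=
  fFp R T F B ∪ ((fE R T B)⁻¹ * fFp R T F B * fE R T B) ∪ (T⁻¹ * R * T) ∪ (T⁻¹ * F * T)

theorem mm3 {a b c : G} {P Q R : Finset G} (ha : a ∈ P) (hb : b ∈ Q) (hc : c ∈ R) :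
    a⁻¹ * b * c ∈ P⁻¹ * Q * R :=
  Finset.mul_mem_mul (Finset.mul_mem_mul (Finset.inv_mem_inv ha) hb) hc

/-- All the finite data used by the recursion. -/
structure SetN (A : RAct X G) (N : Subgroup G) (J : ℕ → Gpd A) (δ : ℕ → X → G) (κ : ℕ → ℕ)
    (S : ℕ → Finset G) where
  W : ℕ → Finset G
  R : ℕ → Finset G
  T : ℕ → Finset G
  B : ℕ → Finset G
  E : ℕ → Finset G
  Q : ℕ → Finset G
  F : ℕ → Finset G
  Fb : ℕ → Finset G
  Fp : ℕ → Finset G
  Fpp : ℕ → Finset G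
  τ : (t : ℕ) → Fin (κ t + 1) × Fin (κ (t + 1) + 1) → X → G
  cl : (t : ℕ) → X → Fin (κ t + 1)
  χ : (t : ℕ) → X → G
  W0 : (1 : G) ∈ W 0
  hW : ∀ t, ∀ w ∈ W t, ∀ g ∈ T t, ∀ x, w * g * δ t x ∈ W (t + 1)
  R1 : ∀ t, (1 : G) ∈ R t
  RSW : ∀ t, ∀ w ∈ W t, ∀ s ∈ S t, ∀ w' ∈ W t, w⁻¹ * s * w' ∈ R t
  RE : ∀ t, ∀ e ∈ E t, ∀ x y, (δ t x)⁻¹ * e * δ t y ∈ R (t + 1)
  mτ : ∀ t i, MF (τ t i)
  hτT : ∀ t i x, τ t i x ∈ T t
  hτJ : ∀ t i x, (J t).rel x (τ t i x)
  hcut : ∀ t x,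
    {i | ∃ r ∈ R t, (J t).rel x r ∧ (τ t i x)⁻¹ * r * τ t i (A.act x r) ∉ N}.ncard ≤ κ t
  hτF : ∀ t i x, ∀ ν ∈ F t, ν ∈ N → (J t).rel x ν → τ t i (A.act x ν) = τ t i x
  hQ : ∀ t, ∀ r ∈ R t, ∀ g ∈ T t, ∀ g' ∈ T t, r * (g * g'⁻¹) ∈ Q t
  hE : ∀ t, ∀ b ∈ B t, ∀ a ∈ Q t, ∀ r ∈ R t, ∀ g ∈ T t, b⁻¹ * (a⁻¹ * (r * g)) ∈ E t
  mcl : ∀ t, MF (cl t)
  mχ : ∀ t, MF (χ t)
  hχB : ∀ t x, χ t x ∈ B t
  hχJ : ∀ t x, (J t).rel x (χ t x)
  hcoh : ∀ t x, ∀ a ∈ Q t, ∀ a' ∈ Q t, (J t).rel x (a⁻¹ * a') →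
    cl t x = cl t (A.act x (a⁻¹ * a')) → (χ t x)⁻¹ * (a⁻¹ * a') * χ t (A.act x (a⁻¹ * a')) ∈ N
  hχF : ∀ t x, ∀ ν ∈ Fb t, ν ∈ N → (J t).rel x ν →
    cl t (A.act x ν) = cl t x ∧ χ t (A.act x ν) = χ t x
  Fb1 : ∀ t, ∀ g ∈ T t, ∀ r ∈ R t, ∀ g' ∈ T t, ∀ h ∈ T t, h * (g⁻¹ * r * g') * h⁻¹ ∈ Fb t
  Fb2 : ∀ t, ∀ g ∈ T t, ∀ ν ∈ F t, ∀ h ∈ T t, h * (g⁻¹ * ν * g) * h⁻¹ ∈ Fb t
  Fp1 : ∀ t, ∀ b ∈ B t, ∀ ν ∈ Fb t, b⁻¹ * ν * b ∈ Fp t
  Fp2 : ∀ t, ∀ b ∈ B t, ∀ a ∈ Q t, ∀ a' ∈ Q t, ∀ b' ∈ B t, b⁻¹ * (a⁻¹ * a') * b' ∈ Fp t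
  Fpp0 : ∀ t, ∀ ν ∈ Fp t, ν ∈ Fpp t
  Fpp1 : ∀ t, ∀ e ∈ E t, ∀ ν ∈ Fp t, e⁻¹ * ν * e ∈ Fpp t
  Fpp2 : ∀ t, ∀ g ∈ T t, ∀ r ∈ R t, ∀ g' ∈ T t, g⁻¹ * r * g' ∈ Fpp t
  Fpp3 : ∀ t, ∀ g ∈ T t, ∀ ν ∈ F t, g⁻¹ * ν * g ∈ Fpp t
  hF : ∀ t, ∀ ν ∈ Fpp t, ∀ x, (δ t x)⁻¹ * ν * δ t x ∈ F (t + 1)

theorem exists_setup [Countable G] {A : RAct X G} (N : Subgroup G) [N.Normal] (J : ℕ → Gpd A)
    (δ : ℕ → X → G) (hδT : ∀ t, ∃ T : Finset G, ∀ x, δ t x ∈ T) (hJN : ∀ t, InvN N (J t))
    (κ : ℕ → ℕ) (S : ℕ → Finset G) (hFA : ∀ t, FAN N (J t) (κ t + 1)) :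
    Nonempty (SetN A N J δ κ S) := by
  choose Dt hDt using hδT
  -- one step
  have step : ∀ (t : ℕ) (R F : Finset G), ∃ (T B : Finset G)
      (τ : Fin (κ t + 1) × Fin (κ (t + 1) + 1) → X → G) (cl : X → Fin (κ t + 1)) (χ : X → G),
      (∀ i, MF (τ i)) ∧ (∀ i x, τ i x ∈ T) ∧ (∀ i x, (J t).rel x (τ i x)) ∧
      (∀ x, {i | ∃ r ∈ R, (J t).rel x r ∧ (τ i x)⁻¹ * r * τ i (A.act x r) ∉ N}.ncard ≤ κ t) ∧
      (∀ i x, ∀ ν ∈ F, ν ∈ N → (J t).rel x ν → τ i (A.act x ν) = τ i x) ∧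
      MF cl ∧ MF χ ∧ (∀ x, χ x ∈ B) ∧ (∀ x, (J t).rel x (χ x)) ∧
      (∀ x, ∀ a ∈ fQ R T, ∀ a' ∈ fQ R T, (J t).rel x (a⁻¹ * a') →
        cl x = cl (A.act x (a⁻¹ * a')) → (χ x)⁻¹ * (a⁻¹ * a') * χ (A.act x (a⁻¹ * a')) ∈ N) ∧
      (∀ x, ∀ ν ∈ fFb R T F, ν ∈ N → (J t).rel x ν →
        cl (A.act x ν) = cl x ∧ χ (A.act x ν) = χ x) := by
    intro t R F
    obtain ⟨T, τ, h1, h2, h3, h4, h5⟩ :=
      kolmN N (J t) (hJN t) (κ t) (hFA t) ((κ t + 1) * (κ (t + 1) + 1)) R F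
    obtain ⟨B, cl, χ, c1, c2, c3, c4, c5, c6⟩ := hFA t ((fQ R T)⁻¹ * fQ R T) (fFb R T F)
    refine ⟨T, B, fun i => τ (finProdFinEquiv i), cl, χ, fun i => h1 _,
      fun i x => h2 _ x, fun i x => h3 _ x, ?_, fun i => h5 _, c1, c2, c3, c4, ?_, c6⟩
    · intro x
      refine le_trans ?_ (h4 x)
      refine Set.ncard_le_ncard_of_injOn (fun i => finProdFinEquiv i) (fun i hi => hi) ?_
        (Set.toFinite _)
      exact finProdFinEquiv.injective.injOn
    · intro x a ha a' ha' hJ hc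
      exact c5 x _ (Finset.mul_mem_mul (Finset.inv_mem_inv ha) ha') hJ hc
  choose T B τ cl χ p1 p2 p3 p4 p5 p6 p7 p8 p9 p10 p11 using step
  -- stages: (W, F, Ec)
  let Rf : ℕ → Finset G × Finset G × Finset G → Finset G := fun t st =>
    {1} ∪ (st.1⁻¹ * S t * st.1) ∪ st.2.2
  let nx : ℕ → Finset G × Finset G × Finset G → Finset G × Finset G × Finset G := fun t st =>
    (st.1 * T t (Rf t st) st.2.1 * Dt t,
      (Dt t)⁻¹ * fFpp (Rf t st) (T t (Rf t st) st.2.1) st.2.1 (B t (Rf t st) st.2.1) * Dt t,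
      (Dt t)⁻¹ * fE (Rf t st) (T t (Rf t st) st.2.1) (B t (Rf t st) st.2.1) * Dt t)
  let stg : ℕ → Finset G × Finset G × Finset G := fun t => Nat.rec ({1}, ∅, ∅) nx t
  have hst : ∀ t, stg (t + 1) = nx t (stg t) := fun t => rfl
  refine ⟨{
    W := fun t => (stg t).1
    R := fun t => Rf t (stg t)
    T := fun t => T t (Rf t (stg t)) (stg t).2.1
    B := fun t => B t (Rf t (stg t)) (stg t).2.1
    E := fun t => fE (Rf t (stg t)) (T t (Rf t (stg t)) (stg t).2.1)
      (B t (Rf t (stg t)) (stg t).2.1)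
    Q := fun t => fQ (Rf t (stg t)) (T t (Rf t (stg t)) (stg t).2.1)
    F := fun t => (stg t).2.1
    Fb := fun t => fFb (Rf t (stg t)) (T t (Rf t (stg t)) (stg t).2.1) (stg t).2.1
    Fp := fun t => fFp (Rf t (stg t)) (T t (Rf t (stg t)) (stg t).2.1) (stg t).2.1
      (B t (Rf t (stg t)) (stg t).2.1)
    Fpp := fun t => fFpp (Rf t (stg t)) (T t (Rf t (stg t)) (stg t).2.1) (stg t).2.1
      (B t (Rf t (stg t)) (stg t).2.1)
    τ := fun t => τ t (Rf t (stg t)) (stg t).2.1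
    cl := fun t => cl t (Rf t (stg t)) (stg t).2.1
    χ := fun t => χ t (Rf t (stg t)) (stg t).2.1
    W0 := by show (1 : G) ∈ ({1} : Finset G); simp
    hW := by
      intro t w hw g hg x
      show w * g * δ t x ∈ (stg (t + 1)).1
      rw [hst]
      exact Finset.mul_mem_mul (Finset.mul_mem_mul hw hg) (hDt t x)
    R1 := by intro t; simp [Rf]
    RSW := by
      intro t w hw s hs w' hw'
      have := mm3 hw hs hw'
      simp only [Rf, Finset.mem_union]
      exact Or.inl (Or.inr this)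
    RE := by
      intro t e he x y
      have := mm3 (hDt t x) he (hDt t y)
      simp only [Rf, Finset.mem_union]
      rw [hst]
      exact Or.inr this
    mτ := fun t i => p1 _ _ _ i
    hτT := fun t i x => p2 _ _ _ i x
    hτJ := fun t i x => p3 _ _ _ i x
    hcut := fun t x => p4 _ _ _ x
    hτF := fun t i x => p5 _ _ _ i x
    hQ := by
      intro t r hr g hg g' hg'
      exact Finset.mul_mem_mul hr (Finset.mul_mem_mul hg (Finset.inv_mem_inv hg'))
    hE := by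
      intro t b hb a ha r hr g hg
      exact Finset.mul_mem_mul (Finset.inv_mem_inv hb)
        (Finset.mul_mem_mul (Finset.inv_mem_inv ha) (Finset.mul_mem_mul hr hg))
    mcl := fun t => p6 _ _ _
    mχ := fun t => p7 _ _ _
    hχB := fun t x => p8 _ _ _ x
    hχJ := fun t x => p9 _ _ _ x
    hcoh := fun t x => p10 _ _ _ x
    hχF := fun t x => p11 _ _ _ x
    Fb1 := by
      intro t g hg r hr g' hg' h hh
      exact Finset.mem_union_left _ (Finset.mul_mem_mul (Finset.mul_mem_mul hh (mm3 hg hr hg'))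
        (Finset.inv_mem_inv hh))
    Fb2 := by
      intro t g hg ν hν h hh
      exact Finset.mem_union_right _ (Finset.mul_mem_mul (Finset.mul_mem_mul hh (mm3 hg hν hg))
        (Finset.inv_mem_inv hh))
    Fp1 := by
      intro t b hb ν hν
      exact Finset.mem_union_left _ (mm3 hb hν hb)
    Fp2 := by
      intro t b hb a ha a' ha' b' hb'
      exact Finset.mem_union_right _
        (mm3 hb (Finset.mul_mem_mul (Finset.inv_mem_inv ha) ha') hb')
    Fpp0 := by
      intro t ν hν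
      exact Finset.mem_union_left _ (Finset.mem_union_left _ (Finset.mem_union_left _ hν))
    Fpp1 := by
      intro t e he ν hν
      exact Finset.mem_union_left _ (Finset.mem_union_left _ (Finset.mem_union_right _
        (mm3 he hν he)))
    Fpp2 := by
      intro t g hg r hr g' hg'
      exact Finset.mem_union_left _ (Finset.mem_union_right _ (mm3 hg hr hg'))
    Fpp3 := by
      intro t g hg ν hν
      exact Finset.mem_union_right _ (mm3 hg hν hg)
    hF := by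
      intro t ν hν x
      show _ ∈ (stg (t + 1)).2.1
      rw [hst]
      exact mm3 (hDt t x) hν (hDt t x) }⟩

namespace SetN

variable {A : RAct X G} {N : Subgroup G} {J : ℕ → Gpd A} {δ : ℕ → X → G} {κ : ℕ → ℕ}
  {S : ℕ → Finset G} (P : SetN A N J δ κ S)

/-- index type of the palette at level `t` -/
abbrev Idx (κ : ℕ → ℕ) (t : ℕ) : Type := Fin (κ t + 1) × Fin (κ (t + 1) + 1)

/-- `f` is cut modulo `N` at `y` by an element of `E` -/
def Cu (t : ℕ) (f : X → G) (y : X) : Prop :=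
  ∃ e ∈ P.E t, (J t).rel y e ∧ (f y)⁻¹ * e * f (A.act y e) ∉ N

def Pres (t : ℕ) (f : X → G) (x : X) : Prop := P.Cu t f (A.act x (P.χ t x))

noncomputable def rank (t n : ℕ) (g : ℕ → X → G) (x : X) : ℕ :=
  ((Finset.range n).filter (fun k => P.Pres t (g k) x)).card

noncomputable def color (t n : ℕ) (g : ℕ → X → G) (x : X) : Idx κ t :=
  (P.cl t x, ⟨min (P.rank t n g x) (κ (t + 1)), by omega⟩)

def Z (t : ℕ) (i : Idx κ t) (n : ℕ) (g : ℕ → X → G) (x : X) : Prop :=
  ∃ h ∈ P.T t, (J t).rel (A.act x (P.τ t i x)) h⁻¹ ∧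
    P.color t n g (A.act (A.act x (P.τ t i x)) h⁻¹) = i

noncomputable def idx (t n : ℕ) (g : ℕ → X → G) (x : X) : Idx κ t :=
  sel (0, 0) (Finset.univ.toList) (fun i => P.Z t i n g x)

noncomputable def stp (t n : ℕ) (g : ℕ → X → G) (x : X) : G :=
  P.τ t (P.idx t n g x) x * g n (A.act x (P.τ t (P.idx t n g x) x))

noncomputable def tab : ℕ → ℕ → ℕ → X → G
  | 0, _, _, _ => 1
  | n + 1, k, t, x => if k ≤ n then tab n k t x else
      P.stp t n (fun k' z => δ t z * tab n k' (t + 1) (A.act z (δ t z))) x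

noncomputable def fam (t n : ℕ) : X → G := P.tab n n t

/-- the maps of the next level, transported -/
noncomputable def gf (t k : ℕ) (z : X) : G := δ t z * P.fam (t + 1) k (A.act z (δ t z))

theorem tab_stable (m k : ℕ) (h : k ≤ m) : P.tab m k = P.tab k k := by
  induction m with
  | zero => obtain rfl : k = 0 := by omega
            rfl
  | succ m ih =>
    rcases Nat.lt_or_ge m k with h1 | h1
    · obtain rfl : k = m + 1 := by omega
      rfl
    · rw [← ih h1]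
      funext t x
      simp [tab, h1]

theorem fam_zero (t : ℕ) (x : X) : P.fam t 0 x = 1 := rfl

theorem rank_congr (t n : ℕ) (g g' : ℕ → X → G) (h : ∀ k < n, g k = g' k) (x : X) :
    P.rank t n g x = P.rank t n g' x := by
  unfold rank
  congr 1
  apply Finset.filter_congr
  intro k hk
  rw [h k (Finset.mem_range.1 hk)]

theorem color_congr (t n : ℕ) (g g' : ℕ → X → G) (h : ∀ k < n, g k = g' k) (x : X) :
    P.color t n g x = P.color t n g' x := by
  unfold color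
  simp only [P.rank_congr t n g g' h x]

theorem idx_congr (t n : ℕ) (g g' : ℕ → X → G) (h : ∀ k < n, g k = g' k) (x : X) :
    P.idx t n g x = P.idx t n g' x := by
  unfold idx Z
  simp only [P.color_congr t n g g' h]

theorem fam_succ (t n : ℕ) (x : X) : P.fam t (n + 1) x = P.stp t n (P.gf t) x := by
  have h1 : P.fam t (n + 1) x =
      P.stp t n (fun k' z => δ t z * P.tab n k' (t + 1) (A.act z (δ t z))) x := by
    simp [fam, tab]
  have h2 : ∀ k ≤ n, (fun z => δ t z * P.tab n k (t + 1) (A.act z (δ t z))) = P.gf t k := by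
    intro k hk
    rw [P.tab_stable n k hk]; rfl
  rw [h1]
  unfold stp
  rw [P.idx_congr t n _ (P.gf t) (fun k hk => h2 k hk.le) x]
  have h3 := h2 n le_rfl
  have h4 := congrFun h3 (A.act x (P.τ t (P.idx t n (P.gf t) x) x))
  beta_reduce at h4 ⊢
  rw [h4]

/-! ### Invariance -/

/-- `f` is invariant under the elements of `F'' ∩ N` -/
def GI (t : ℕ) (f : X → G) : Prop :=
  ∀ x, ∀ ν ∈ P.Fpp t, ν ∈ N → (J t).rel x ν → f (A.act x ν) = f x

section inv

variable [N.Normal] (hJN : ∀ t, InvN N (J t))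

include hJN

/-- (PI), one direction -/
theorem cu_imp {t : ℕ} {f : X → G} (hf : P.GI t f) {y : X} {ν : G} (hν : ν ∈ P.Fp t)
    (hνN : ν ∈ N) (hJν : (J t).rel y ν) (h : P.Cu t f y) : P.Cu t f (A.act y ν) := by
  obtain ⟨e, he, hJe, hc⟩ := h
  refine ⟨e, he, (hJN t y ν e hνN hJν).1 hJe, ?_⟩
  rw [hf y ν (P.Fpp0 t ν hν) hνN hJν, act_conj,
    hf (A.act y e) _ (P.Fpp1 t e he ν hν) (conj_mem N hνN e) (rel_conj (hJN t) hνN hJν hJe)]
  exact hc

/-- (PI) -/
theorem cu_iff {t : ℕ} {f : X → G} (hf : P.GI t f) {y : X} {ν : G} (hν : ν ∈ P.Fp t)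
    (hνN : ν ∈ N) (hJν : (J t).rel y ν) : P.Cu t f (A.act y ν) ↔ P.Cu t f y := by
  refine ⟨?_, P.cu_imp hJN hf hν hνN hJν⟩
  rintro ⟨e, he, hJe, hc⟩
  have hJe' := (hJN t y ν e hνN hJν).2 hJe
  refine ⟨e, he, hJe', ?_⟩
  rw [hf y ν (P.Fpp0 t ν hν) hνN hJν, act_conj,
    hf (A.act y e) _ (P.Fpp1 t e he ν hν) (conj_mem N hνN e) (rel_conj (hJN t) hνN hJν hJe')] at hc
  exact hc

/-- (col), presence -/
theorem pres_inv {t : ℕ} {f : X → G} (hf : P.GI t f) {x : X} {ν : G} (hν : ν ∈ P.Fb t)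
    (hνN : ν ∈ N) (hJν : (J t).rel x ν) : P.Pres t f (A.act x ν) ↔ P.Pres t f x := by
  unfold Pres
  rw [(P.hχF t x ν hν hνN hJν).2, act_conj]
  exact P.cu_iff hJN hf (P.Fp1 t _ (P.hχB t x) ν hν) (conj_mem N hνN _)
    (rel_conj (hJN t) hνN hJν (P.hχJ t x))

/-- (col) -/
theorem color_inv {t n : ℕ} {g : ℕ → X → G} (hg : ∀ k < n, P.GI t (g k)) {x : X} {ν : G}
    (hν : ν ∈ P.Fb t) (hνN : ν ∈ N) (hJν : (J t).rel x ν) :
    P.color t n g (A.act x ν) = P.color t n g x := by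
  have h1 : P.rank t n g (A.act x ν) = P.rank t n g x := by
    unfold rank
    congr 1
    apply Finset.filter_congr
    intro k hk
    exact P.pres_inv hJN (hg k (Finset.mem_range.1 hk)) hν hνN hJν
  unfold color
  simp only [h1, (P.hχF t x ν hν hνN hJν).1]

/-- transport of `Z` along a change of the end point of the palette by an element of `N` -/
theorem Z_move {t n : ℕ} {g : ℕ → X → G} (hg : ∀ k < n, P.GI t (g k)) {i : Idx κ t} {x x' : X}
    {ν : G} (hνN : ν ∈ N) (hJν : (J t).rel (A.act x (P.τ t i x)) ν)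
    (he : A.act x' (P.τ t i x') = A.act (A.act x (P.τ t i x)) ν)
    (hFb : ∀ h ∈ P.T t, h * ν * h⁻¹ ∈ P.Fb t) : P.Z t i n g x ↔ P.Z t i n g x' := by
  unfold Z
  rw [he]
  have key : ∀ h ∈ P.T t, (J t).rel (A.act x (P.τ t i x)) h⁻¹ →
      P.color t n g (A.act (A.act (A.act x (P.τ t i x)) ν) h⁻¹) =
        P.color t n g (A.act (A.act x (P.τ t i x)) h⁻¹) := by
    intro h hh hJh
    rw [act_conj]
    refine P.color_inv hJN hg ?_ (conj_mem N hνN _) (rel_conj (hJN t) hνN hJν hJh)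
    rw [inv_inv]
    exact hFb h hh
  constructor
  · rintro ⟨h, hh, hJh, hc⟩
    refine ⟨h, hh, (hJN t _ ν _ hνN hJν).1 hJh, ?_⟩
    rw [key h hh hJh]; exact hc
  · rintro ⟨h, hh, hJh, hc⟩
    have hJh' := (hJN t _ ν _ hνN hJν).2 hJh
    refine ⟨h, hh, hJh', ?_⟩
    rw [← key h hh hJh']; exact hc

/-- (Zinv) -/
theorem Z_inv {t n : ℕ} {g : ℕ → X → G} (hg : ∀ k < n, P.GI t (g k)) {i : Idx κ t} {x : X}
    {ν : G} (hν : ν ∈ P.F t) (hνN : ν ∈ N) (hJν : (J t).rel x ν) :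
    P.Z t i n g (A.act x ν) ↔ P.Z t i n g x := by
  refine (P.Z_move hJN hg (conj_mem N hνN (P.τ t i x))
    (rel_conj (hJN t) hνN hJν (P.hτJ t i x)) ?_ ?_).symm
  · rw [P.hτF t i x ν hν hνN hJν, act_conj]
  · intro h hh
    exact P.Fb2 t _ (P.hτT t i x) ν hν h hh

theorem idx_inv {t n : ℕ} {g : ℕ → X → G} (hg : ∀ k < n, P.GI t (g k)) {x : X}
    {ν : G} (hν : ν ∈ P.F t) (hνN : ν ∈ N) (hJν : (J t).rel x ν) :
    P.idx t n g (A.act x ν) = P.idx t n g x := by
  unfold idx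
  congr 1
  funext i
  exact propext (P.Z_inv hJN hg hν hνN hJν)

/-- (inv) -/
theorem fam_inv (hδJ : ∀ t x s, (J t).rel x s →
      (J (t + 1)).rel (A.act x (δ t x)) ((δ t x)⁻¹ * s * δ t (A.act x s)))
    (hδN : ∀ t x ν, ν ∈ N → (J t).rel x ν → δ t (A.act x ν) = δ t x) (n : ℕ) :
    ∀ t x, ∀ ν ∈ P.F t, ν ∈ N → (J t).rel x ν → P.fam t n (A.act x ν) = P.fam t n x := by
  induction n using Nat.strong_induction_on with
  | _ n ih =>
    intro t x ν hν hνN hJν
    rcases n with _ | n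
    · rfl
    · have hg : ∀ k < n + 1, P.GI t (P.gf t k) := by
        intro k hk y μ hμ hμN hJμ
        unfold gf
        have h1 := hδN t y μ hμN hJμ
        rw [h1, act_conj]
        have h2 := hδJ t y μ hJμ
        rw [h1] at h2
        rw [ih k hk (t + 1) _ _ (P.hF t μ hμ y) (conj_mem N hμN _) h2]
      rw [P.fam_succ, P.fam_succ]
      unfold stp
      rw [P.idx_inv hJN (fun k hk => hg k (by omega)) hν hνN hJν, P.hτF t _ x ν hν hνN hJν,
        act_conj, hg n (by omega) _ _ (P.Fpp3 t _ (P.hτT t _ x) ν hν) (conj_mem N hνN _)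
          (rel_conj (hJN t) hνN hJν (P.hτJ t _ x))]

theorem gf_inv (hδJ : ∀ t x s, (J t).rel x s →
      (J (t + 1)).rel (A.act x (δ t x)) ((δ t x)⁻¹ * s * δ t (A.act x s)))
    (hδN : ∀ t x ν, ν ∈ N → (J t).rel x ν → δ t (A.act x ν) = δ t x) (t k : ℕ) :
    P.GI t (P.gf t k) := by
  intro y μ hμ hμN hJμ
  unfold gf
  have h1 := hδN t y μ hμN hJμ
  rw [h1, act_conj]
  have h2 := hδJ t y μ hJμ
  rw [h1] at h2
  rw [P.fam_inv hJN hδJ hδN k (t + 1) _ _ (P.hF t μ hμ y) (conj_mem N hμN _) h2]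

/-! ### Cells -/

/-- (cell) -/
theorem pres_cell {t : ℕ} {f : X → G} (hf : P.GI t f) {x : X} {a a' : G} (ha : a ∈ P.Q t)
    (ha' : a' ∈ P.Q t) (hJr : (J t).rel x (a⁻¹ * a'))
    (hc : P.cl t x = P.cl t (A.act x (a⁻¹ * a'))) :
    P.Pres t f (A.act x (a⁻¹ * a')) ↔ P.Pres t f x := by
  have hN := P.hcoh t x a ha a' ha' hJr hc
  set r := a⁻¹ * a' with hr
  set ν := (P.χ t x)⁻¹ * r * P.χ t (A.act x r) with hν
  have hFp : ν ∈ P.Fp t := P.Fp2 t _ (P.hχB t x) a ha a' ha' _ (P.hχB t _)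
  have he : A.act (A.act x r) (P.χ t (A.act x r)) = A.act (A.act x (P.χ t x)) ν := by
    rw [A.mul, A.mul]; congr 1; rw [hν]; group
  have hJν : (J t).rel (A.act x (P.χ t x)) ν := by
    have h1 := (J t).inv _ _ (P.hχJ t x)
    have h2 : A.act (A.act x (P.χ t x)) (P.χ t x)⁻¹ = x := by rw [A.mul, mul_inv_cancel, A.one]
    have h3 : (J t).rel x (r * P.χ t (A.act x r)) := (J t).mul _ _ _ hJr (P.hχJ t _)
    have h4 := (J t).mul _ _ _ h1 (by rw [h2]; exact h3)
    rwa [← mul_assoc] at h4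
  unfold Pres
  rw [he]
  exact P.cu_iff hJN hf hFp hN hJν

theorem rank_cell {t n : ℕ} {g : ℕ → X → G} (hg : ∀ k, P.GI t (g k)) {x : X} {a a' : G}
    (ha : a ∈ P.Q t) (ha' : a' ∈ P.Q t) (hJr : (J t).rel x (a⁻¹ * a'))
    (hc : P.cl t x = P.cl t (A.act x (a⁻¹ * a'))) :
    P.rank t n g (A.act x (a⁻¹ * a')) = P.rank t n g x := by
  unfold rank
  congr 1
  apply Finset.filter_congr
  intro k _
  exact P.pres_cell hJN (hg k) ha ha' hJr hc

end inv

/-! ### The index -/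

theorem idx_spec (t n : ℕ) (g : ℕ → X → G) (x : X) : P.Z t (P.idx t n g x) n g x := by
  have := sel_spec ((0, 0) : Idx κ t) (Finset.univ.toList) (fun i => P.Z t i n g x)
    ⟨P.color t n g x, by simp, P.τ t (P.color t n g x) x, P.hτT t _ x, (J t).inv _ _ (P.hτJ t _ x),
      by rw [A.mul, mul_inv_cancel, A.one]⟩
  exact this.2

section cut

variable [N.Normal] (hJN : ∀ t, InvN N (J t))

include hJN

/-- If the new map is cut at `(x,r)`, some palette entry of an index present near `x` is cut. -/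
theorem exists_index {t n : ℕ} {g : ℕ → X → G} (hg : ∀ k, P.GI t (g k)) {x : X} {r : G}
    (hr : r ∈ P.R t) (hJr : (J t).rel x r)
    (hcut : (P.stp t n g x)⁻¹ * r * P.stp t n g (A.act x r) ∉ N) :
    ∃ i, (P.τ t i x)⁻¹ * r * P.τ t i (A.act x r) ∉ N ∧
      ∃ a ∈ P.Q t, (J t).rel x a ∧ P.color t n g (A.act x a) = i := by
  -- the displacement along an uncut palette entry
  have hend : ∀ i, A.act (A.act x r) (P.τ t i (A.act x r)) =
      A.act (A.act x (P.τ t i x)) ((P.τ t i x)⁻¹ * r * P.τ t i (A.act x r)) := by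
    intro i
    rw [A.mul, A.mul]; congr 1; group
  have hJend : ∀ i, (J t).rel (A.act x (P.τ t i x))
      ((P.τ t i x)⁻¹ * r * P.τ t i (A.act x r)) := by
    intro i
    have h1 := (J t).inv _ _ (P.hτJ t i x)
    have h2 : A.act (A.act x (P.τ t i x)) (P.τ t i x)⁻¹ = x := by
      rw [A.mul, mul_inv_cancel, A.one]
    have h3 : (J t).rel x (r * P.τ t i (A.act x r)) := (J t).mul _ _ _ hJr (P.hτJ t _ _)
    have h4 := (J t).mul _ _ _ h1 (by rw [h2]; exact h3)
    rwa [← mul_assoc] at h4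
  have key : ∃ i, (P.τ t i x)⁻¹ * r * P.τ t i (A.act x r) ∉ N ∧
      (P.Z t i n g x ∨ P.Z t i n g (A.act x r)) := by
    by_contra hcon
    push Not at hcon
    have hiff : ∀ i, P.Z t i n g x ↔ P.Z t i n g (A.act x r) := by
      intro i
      by_cases hi : (P.τ t i x)⁻¹ * r * P.τ t i (A.act x r) ∈ N
      · refine P.Z_move hJN (fun k _ => hg k) hi (hJend i) (hend i) ?_
        intro h hh
        exact P.Fb1 t _ (P.hτT t i x) r hr _ (P.hτT t i _) h hh
      · have := hcon i hi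
        exact ⟨fun h => absurd h this.1, fun h => absurd h this.2⟩
    have hidx : P.idx t n g x = P.idx t n g (A.act x r) := by
      unfold idx
      congr 1
      funext i
      exact propext (hiff i)
    have hz := P.idx_spec t n g x
    have hun : (P.τ t (P.idx t n g x) x)⁻¹ * r * P.τ t (P.idx t n g x) (A.act x r) ∈ N := by
      by_contra hne
      exact (hcon _ hne).1 hz
    apply hcut
    unfold stp
    rw [← hidx, hend, hg n _ _ (P.Fpp2 t _ (P.hτT t _ x) r hr _ (P.hτT t _ _)) hun (hJend _)]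
    set y := g n (A.act x (P.τ t (P.idx t n g x) x)) with hy
    have e1 : (P.τ t (P.idx t n g x) x * y)⁻¹ * r * (P.τ t (P.idx t n g x) (A.act x r) * y) =
        y⁻¹ * ((P.τ t (P.idx t n g x) x)⁻¹ * r * P.τ t (P.idx t n g x) (A.act x r)) * y := by
      group
    rw [e1]
    exact conj_mem N hun y
  obtain ⟨i, hi, hz⟩ := key
  refine ⟨i, hi, ?_⟩
  rcases hz with ⟨h, hh, hJh, hc⟩ | ⟨h, hh, hJh, hc⟩
  · refine ⟨P.τ t i x * h⁻¹, ?_, (J t).mul _ _ _ (P.hτJ t i x) hJh, ?_⟩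
    · have := P.hQ t 1 (P.R1 t) _ (P.hτT t i x) _ hh
      rwa [one_mul] at this
    · rw [← A.mul]; exact hc
  · refine ⟨r * (P.τ t i (A.act x r) * h⁻¹), P.hQ t r hr _ (P.hτT t i _) _ hh,
      (J t).mul _ _ _ hJr ((J t).mul _ _ _ (P.hτJ t i _) hJh), ?_⟩
    rw [← A.mul, ← A.mul]; exact hc

omit [N.Normal] hJN in
/-- The level is present at the point found by `exists_index`. -/
theorem pres_of_cut {t n : ℕ} {g : ℕ → X → G} {x : X} {r a : G} (hr : r ∈ P.R t)
    (hJr : (J t).rel x r) (hcut : (P.stp t n g x)⁻¹ * r * P.stp t n g (A.act x r) ∉ N)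
    (ha : a ∈ P.Q t) (hJa : (J t).rel x a) : P.Pres t (g n) (A.act x a) := by
  by_contra hcon
  unfold Pres Cu at hcon
  push Not at hcon
  set b := P.χ t (A.act x a) with hb
  have hbB : b ∈ P.B t := P.hχB t _
  have hJb : (J t).rel (A.act x a) b := P.hχJ t _
  have hJy : (J t).rel (A.act (A.act x a) b) (b⁻¹ * a⁻¹) := by
    refine (J t).mul _ _ _ ((J t).inv _ _ hJb) ?_
    rw [A.mul, mul_inv_cancel, A.one]
    exact (J t).inv _ _ hJa
  have hback : A.act (A.act (A.act x a) b) (b⁻¹ * a⁻¹) = x := by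
    rw [A.mul, A.mul]
    have : a * (b * (b⁻¹ * a⁻¹)) = 1 := by group
    rw [this, A.one]
  -- first
  set p := P.τ t (P.idx t n g x) x with hp
  set p' := P.τ t (P.idx t n g (A.act x r)) (A.act x r) with hp'
  have h1 := hcon (b⁻¹ * (a⁻¹ * (1 * p))) (P.hE t b hbB a ha 1 (P.R1 t) p (P.hτT t _ _)) (by
    have h3 := (J t).mul _ _ _ hJy (by rw [hback]; exact P.hτJ t (P.idx t n g x) x)
    have h4 : b⁻¹ * (a⁻¹ * (1 * p)) = b⁻¹ * a⁻¹ * p := by group
    rw [h4]; exact h3)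
  have h2 := hcon (b⁻¹ * (a⁻¹ * (r * p'))) (P.hE t b hbB a ha r hr p' (P.hτT t _ _)) (by
    have h3 := (J t).mul _ _ _ hJy (by
      rw [hback]; exact (J t).mul _ _ _ hJr (P.hτJ t (P.idx t n g (A.act x r)) _))
    have h4 : b⁻¹ * (a⁻¹ * (r * p')) = b⁻¹ * a⁻¹ * (r * p') := by group
    rw [h4]; exact h3)
  have e1 : A.act (A.act (A.act x a) b) (b⁻¹ * (a⁻¹ * (1 * p))) = A.act x p := by
    rw [A.mul, A.mul]; congr 1; group
  have e2 : A.act (A.act (A.act x a) b) (b⁻¹ * (a⁻¹ * (r * p'))) = A.act (A.act x r) p' := by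
    rw [A.mul, A.mul, A.mul]; congr 1; group
  rw [e1] at h1
  rw [e2] at h2
  apply hcut
  have h3 := N.mul_mem (N.inv_mem h1) h2
  have s1 : P.stp t n g x = p * g n (A.act x p) := rfl
  have s2 : P.stp t n g (A.act x r) = p' * g n (A.act (A.act x r) p') := rfl
  rw [s1, s2]
  convert h3 using 1
  group

end cut

/-- The set of levels `< n` of `fam t` which cut at `x` at the scale `R t`. -/
def cutSet (t n : ℕ) (x : X) : Set ℕ :=
  {k | k < n ∧ ∃ r ∈ P.R t, (J t).rel x r ∧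
    (P.fam t (k + 1) x)⁻¹ * r * P.fam t (k + 1) (A.act x r) ∉ N}

theorem act_conj (A : RAct X G) (y : X) (d e d' : G) :
    A.act (A.act y d) (d⁻¹ * e * d') = A.act (A.act y e) d' := by
  rw [A.mul, A.mul]; congr 1; group

theorem cutSet_finite (t n : ℕ) (x : X) : (P.cutSet t n x).Finite :=
  (Set.finite_lt_nat n).subset (fun _ hk => hk.1)

/-- number of present levels -/
theorem pres_count (hδJ : ∀ t x s, (J t).rel x s →
      (J (t + 1)).rel (A.act x (δ t x)) ((δ t x)⁻¹ * s * δ t (A.act x s))) (t n : ℕ)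
    (hG : ∀ x, (P.cutSet (t + 1) n x).ncard ≤ κ (t + 1)) (x : X) :
    ((Finset.range (n + 1)).filter (fun k => P.Pres t (P.gf t k) x)).card ≤ κ (t + 1) + 1 := by
  set y := A.act x (P.χ t x) with hy
  set z := A.act y (δ t y) with hz
  have hsub : ((Finset.range (n + 1)).filter (fun k => P.Pres t (P.gf t k) x)) ⊆
      insert 0 ((P.cutSet_finite (t + 1) n z).toFinset.image Nat.succ) := by
    intro k hk
    rw [Finset.mem_filter, Finset.mem_range] at hk
    obtain ⟨hk1, e, he, hJe, hc⟩ := hk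
    rcases k with _ | j
    · simp
    · rw [Finset.mem_insert]; right
      rw [Finset.mem_image]
      refine ⟨j, ?_, rfl⟩
      rw [Set.Finite.mem_toFinset]
      refine ⟨by omega, (δ t y)⁻¹ * e * δ t (A.act y e), P.RE t e he _ _, hδJ t y e hJe, ?_⟩
      intro hcon
      apply hc
      have e1 : A.act z ((δ t y)⁻¹ * e * δ t (A.act y e)) =
          A.act (A.act y e) (δ t (A.act y e)) := act_conj A y (δ t y) e _
      rw [e1] at hcon
      have e2 : (P.gf t (j + 1) y)⁻¹ * e * P.gf t (j + 1) (A.act y e) =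
          (P.fam (t + 1) (j + 1) z)⁻¹ * ((δ t y)⁻¹ * e * δ t (A.act y e)) *
            P.fam (t + 1) (j + 1) (A.act (A.act y e) (δ t (A.act y e))) := by
        unfold gf
        rw [← hz]
        group
      rw [e2]
      exact hcon
  refine (Finset.card_le_card hsub).trans ?_
  refine (Finset.card_insert_le _ _).trans ?_
  have := hG z
  rw [Set.ncard_eq_toFinset_card _ (P.cutSet_finite (t + 1) n z)] at this
  have h2 := Finset.card_image_le (s := (P.cutSet_finite (t + 1) n z).toFinset) (f := Nat.succ)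
  omega

theorem rank_lt {t n n' : ℕ} (hnn : n < n') {g : ℕ → X → G} {x : X}
    (h : P.Pres t (g n) x) : P.rank t n g x < P.rank t n' g x := by
  unfold rank
  apply Finset.card_lt_card
  rw [Finset.ssubset_iff_of_subset]
  · exact ⟨n, by simp [hnn, h], by simp⟩
  · intro k hk
    rw [Finset.mem_filter, Finset.mem_range] at hk ⊢
    exact ⟨by omega, hk.2⟩

theorem rank_le (hδJ : ∀ t x s, (J t).rel x s →
      (J (t + 1)).rel (A.act x (δ t x)) ((δ t x)⁻¹ * s * δ t (A.act x s))) {t n : ℕ}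
    (hG : ∀ x, (P.cutSet (t + 1) n x).ncard ≤ κ (t + 1)) {x : X} {k : ℕ} (hk : k ≤ n)
    (h : P.Pres t (P.gf t k) x) : P.rank t k (P.gf t) x ≤ κ (t + 1) := by
  have h1 : P.rank t k (P.gf t) x < P.rank t (n + 1) (P.gf t) x := P.rank_lt (by omega) h
  have h2 := P.pres_count hδJ t n hG x
  have h3 : P.rank t (n + 1) (P.gf t) x =
    ((Finset.range (n + 1)).filter (fun k => P.Pres t (P.gf t k) x)).card := rfl
  omega

/-- The main claim. -/
theorem main [N.Normal] (hJN : ∀ t, InvN N (J t)) (hδJ : ∀ t x s, (J t).rel x s →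
      (J (t + 1)).rel (A.act x (δ t x)) ((δ t x)⁻¹ * s * δ t (A.act x s)))
    (hδN : ∀ t x ν, ν ∈ N → (J t).rel x ν → δ t (A.act x ν) = δ t x) (n : ℕ) :
    ∀ t x, (P.cutSet t n x).ncard ≤ κ t := by
  induction n with
  | zero =>
    intro t x
    have : P.cutSet t 0 x = ∅ := by ext k; simp [cutSet]
    rw [this]; simp
  | succ n ih =>
    intro t x
    have hG := ih (t + 1)
    have hgi : ∀ k, P.GI t (P.gf t k) := fun k => P.gf_inv hJN hδJ hδN t k
    -- choose the index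
    have hch : ∀ k, ∃ i : Idx κ t, k ∈ P.cutSet t (n + 1) x →
        (∃ r ∈ P.R t, (J t).rel x r ∧ (P.τ t i x)⁻¹ * r * P.τ t i (A.act x r) ∉ N) ∧
        ∃ a ∈ P.Q t, (J t).rel x a ∧
          P.color t k (P.gf t) (A.act x a) = i ∧ P.Pres t (P.gf t k) (A.act x a) := by
      intro k
      by_cases hk : k ∈ P.cutSet t (n + 1) x
      · obtain ⟨_, r, hr, hJ, hcut⟩ := hk
        rw [P.fam_succ, P.fam_succ] at hcut
        obtain ⟨i, hi, a, ha, hJa, hc⟩ := P.exists_index hJN hgi hr hJ hcut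
        exact ⟨i, fun _ => ⟨⟨r, hr, hJ, hi⟩, a, ha, hJa, hc, P.pres_of_cut hr hJ hcut ha hJa⟩⟩
      · exact ⟨(0, 0), fun h => absurd h hk⟩
    choose i hi using hch
    refine le_trans ?_ (P.hcut t x)
    refine Set.ncard_le_ncard_of_injOn i (fun k hk => (hi k hk).1) ?_ (Set.toFinite _)
    -- injectivity
    have hlt : ∀ k k', k ∈ P.cutSet t (n + 1) x → k' ∈ P.cutSet t (n + 1) x → k < k' →
        i k ≠ i k' := by
      intro k k' hk hk' hkk heq
      obtain ⟨_, a, ha, hJa, hc, hp⟩ := hi k hk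
      obtain ⟨_, a', ha', hJa', hc', hp'⟩ := hi k' hk'
      have hcc : P.color t k (P.gf t) (A.act x a) = P.color t k' (P.gf t) (A.act x a') := by
        rw [hc, hc', heq]
      have hback : A.act (A.act x a) a⁻¹ = x := by rw [A.mul, mul_inv_cancel, A.one]
      have e : A.act (A.act x a) (a⁻¹ * a') = A.act x a' := by rw [A.mul]; congr 1; group
      have hcl : P.cl t (A.act x a) = P.cl t (A.act x a') := congrArg Prod.fst hcc
      have hrk : min (P.rank t k (P.gf t) (A.act x a)) (κ (t + 1)) =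
          min (P.rank t k' (P.gf t) (A.act x a')) (κ (t + 1)) :=
        congrArg (fun z : Idx κ t => (z.2 : ℕ)) hcc
      have hJaa : (J t).rel (A.act x a) (a⁻¹ * a') := by
        apply (J t).mul _ _ _ ((J t).inv _ _ hJa)
        rw [hback]; exact hJa'
      have hcl' : P.cl t (A.act x a) = P.cl t (A.act (A.act x a) (a⁻¹ * a')) := by
        rw [e]; exact hcl
      have hrc := P.rank_cell hJN (n := k') hgi ha ha' hJaa hcl'
      rw [e] at hrc
      have hp2 : P.Pres t (P.gf t k') (A.act x a) := by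
        apply (P.pres_cell hJN (hgi k') ha ha' hJaa hcl').1
        rw [e]; exact hp'
      have r1 := P.rank_le hδJ hG (x := A.act x a) (k := k) (by have := hk.1; omega) hp
      have r2 := P.rank_le hδJ hG (x := A.act x a) (k := k') (by have := hk'.1; omega) hp2
      have r3 : P.rank t k (P.gf t) (A.act x a) < P.rank t k' (P.gf t) (A.act x a) :=
        P.rank_lt hkk hp
      rw [hrc] at hrk
      omega
    intro k hk k' hk' heq
    rcases lt_trichotomy k k' with h | h | h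
    · exact absurd heq (hlt k k' hk hk' h)
    · exact h
    · exact absurd heq.symm (hlt k' k hk' hk h)

/-- Unfolding of the maps at level 0. -/
theorem unfold_zero (hδJ : ∀ t x s, (J t).rel x s →
      (J (t + 1)).rel (A.act x (δ t x)) ((δ t x)⁻¹ * s * δ t (A.act x s))) (t : ℕ) :
    ∀ n x, ∃ w ∈ P.W t, (J t).rel (A.act x (Dl A δ t x)) ((Dl A δ t x)⁻¹ * w) ∧
      P.fam 0 (t + n) x = w * P.fam t n (A.act x w) := by
  induction t with
  | zero =>
    intro n x
    refine ⟨1, P.W0, ?_, by rw [A.one, Nat.zero_add, one_mul]⟩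
    have : (Dl A δ 0 x)⁻¹ * 1 = 1 := by simp [Dl]
    rw [this]
    exact (J 0).one _
  | succ t ih =>
    intro n x
    obtain ⟨w, hw, hJ, h⟩ := ih (n + 1) x
    rw [P.fam_succ] at h
    set p := P.τ t (P.idx t n (P.gf t) (A.act x w)) (A.act x w) with hp
    have s1 : P.stp t n (P.gf t) (A.act x w) = p * P.gf t n (A.act (A.act x w) p) := rfl
    rw [s1] at h
    have hJp : (J t).rel (A.act x w) p := P.hτJ t _ _
    set d := δ t (A.act (A.act x w) p) with hd
    have s2 : P.gf t n (A.act (A.act x w) p) =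
      d * P.fam (t + 1) n (A.act (A.act (A.act x w) p) d) := rfl
    rw [s2] at h
    refine ⟨w * p * d, P.hW t w hw p (P.hτT t _ _) _, ?_, ?_⟩
    · have hJs : (J t).rel (A.act x (Dl A δ t x)) ((Dl A δ t x)⁻¹ * w * p) := by
        refine (J t).mul _ _ _ hJ ?_
        have : A.act (A.act x (Dl A δ t x)) ((Dl A δ t x)⁻¹ * w) = A.act x w := by
          rw [A.mul]; congr 1; group
        rw [this]; exact hJp
      have h2 := hδJ t _ _ hJs
      have e1 : A.act (A.act x (Dl A δ t x)) ((Dl A δ t x)⁻¹ * w * p) = A.act (A.act x w) p := by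
        rw [A.mul, A.mul]; congr 1; group
      rw [e1] at h2
      have e2 : A.act x (Dl A δ (t + 1) x) =
          A.act (A.act x (Dl A δ t x)) (δ t (A.act x (Dl A δ t x))) := by
        rw [A.mul]; rfl
      have e3 : (Dl A δ (t + 1) x)⁻¹ * (w * p * d) =
          (δ t (A.act x (Dl A δ t x)))⁻¹ * ((Dl A δ t x)⁻¹ * w * p) * d := by
        show (Dl A δ t x * δ t (A.act x (Dl A δ t x)))⁻¹ * (w * p * d) = _
        group
      rw [e2, e3]
      exact h2
    · have : t + 1 + n = t + (n + 1) := by omega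
      rw [this, h, A.mul, A.mul]
      simp only [mul_assoc]

/-! ### Measurability -/

theorem ms_cut [Countable G] {f : X → G} (hf : MF f) (r : G) :
    MeasurableSet {x | (f x)⁻¹ * r * f (A.act x r) ∉ N} := by
  have : MeasurableSet {x | (f x)⁻¹ * r * f (A.act x r) ∈ N} := by
    refine ms_dep (mf_act A hf r) (fun x b => (f x)⁻¹ * r * b ∈ N) (fun b => ?_)
    exact ms_dep hf (fun _ g => g⁻¹ * r * b ∈ N) (fun g => MeasurableSet.const _)
  exact this.compl

theorem ms_cu [Countable G] (t : ℕ) {f : X → G} (hf : MF f) :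
    MeasurableSet {x | P.Cu t f x} := by
  have : {x | P.Cu t f x} = ⋃ e ∈ P.E t, ({x | (J t).rel x e} ∩
      {x | (f x)⁻¹ * e * f (A.act x e) ∉ N}) := by
    ext x
    simp only [Cu, Set.mem_iUnion, exists_prop]
    exact Iff.rfl
  rw [this]
  exact Finset.measurableSet_biUnion _ fun e _ => ((J t).meas e).inter (ms_cut hf e)

theorem ms_pres [Countable G] (t : ℕ) {f : X → G} (hf : MF f) :
    MeasurableSet {x | P.Pres t f x} :=
  ms_dep (P.mχ t) (fun x b => P.Cu t f (A.act x b))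
    (fun b => ms_act A (P := fun y => P.Cu t f y) (P.ms_cu t hf) b)

theorem mf_rank [Countable G] (t n : ℕ) (g : ℕ → X → G) (hg : ∀ k < n, MF (g k)) :
    MF (P.rank t n g) := by
  intro b
  have : {x | P.rank t n g x = b} = ⋃ s ∈ {s : Finset ℕ | s ⊆ Finset.range n ∧ s.card = b},
      ⋂ k ∈ Finset.range n, {x | P.Pres t (g k) x ↔ k ∈ s} := by
    ext x
    simp only [Set.mem_iUnion, Set.mem_iInter, exists_prop, Set.mem_ofPred_eq]
    constructor
    · intro hx
      refine ⟨(Finset.range n).filter (fun k => P.Pres t (g k) x),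
        ⟨Finset.filter_subset _ _, hx⟩, ?_⟩
      intro k hk
      simp only [Finset.mem_filter, hk, true_and]
    · rintro ⟨s, ⟨hs1, hs2⟩, hs3⟩
      have : (Finset.range n).filter (fun k => P.Pres t (g k) x) = s := by
        ext k
        rw [Finset.mem_filter]
        constructor
        · rintro ⟨h1, h2⟩; exact (hs3 k h1).1 h2
        · intro h; exact ⟨hs1 h, (hs3 k (hs1 h)).2 h⟩
      unfold rank
      rw [this]; exact hs2
  rw [this]
  refine MeasurableSet.biUnion (Set.to_countable _) fun s _ => ?_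
  refine Finset.measurableSet_biInter _ fun k hk => ?_
  have hm := P.ms_pres t (hg k (Finset.mem_range.1 hk))
  by_cases hks : k ∈ s
  · simpa only [hks, iff_true] using hm
  · simp only [hks, iff_false]; exact hm.compl

theorem mf_color [Countable G] (t n : ℕ) (g : ℕ → X → G) (hg : ∀ k < n, MF (g k)) :
    MF (P.color t n g) := by
  intro b
  have h1 := P.mcl t b.1
  have h2 : MeasurableSet {x | (⟨min (P.rank t n g x) (κ (t + 1)), by omega⟩ :
      Fin (κ (t + 1) + 1)) = b.2} :=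
    mf_comp (P.mf_rank t n g hg) (fun m => (⟨min m (κ (t + 1)), by omega⟩ :
      Fin (κ (t + 1) + 1))) b.2
  have : {x | P.color t n g x = b} = {x | P.cl t x = b.1} ∩ {x |
      (⟨min (P.rank t n g x) (κ (t + 1)), by omega⟩ : Fin (κ (t + 1) + 1)) = b.2} := by
    ext x
    exact Prod.ext_iff
  rw [this]; exact h1.inter h2

theorem ms_Z [Countable G] (t : ℕ) (i : Idx κ t) (n : ℕ) (g : ℕ → X → G)
    (hg : ∀ k < n, MF (g k)) : MeasurableSet {x | P.Z t i n g x} := by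
  refine ms_dep (P.mτ t i) (fun x b => ∃ h ∈ P.T t, (J t).rel (A.act x b) h⁻¹ ∧
    P.color t n g (A.act (A.act x b) h⁻¹) = i) (fun b => ?_)
  have : {x | ∃ h ∈ P.T t, (J t).rel (A.act x b) h⁻¹ ∧
      P.color t n g (A.act (A.act x b) h⁻¹) = i} =
      ⋃ h ∈ P.T t, ({x | (J t).rel (A.act x b) h⁻¹} ∩
        {x | P.color t n g (A.act (A.act x b) h⁻¹) = i}) := by
    ext x
    simp only [Set.mem_iUnion, exists_prop]
    exact Iff.rfl
  rw [this]
  refine Finset.measurableSet_biUnion _ fun h _ => ?_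
  exact (ms_act A (P := fun y => (J t).rel y h⁻¹) ((J t).meas _) b).inter
    (ms_act A (P := fun y => P.color t n g (A.act y h⁻¹) = i)
      (mf_act A (P.mf_color t n g hg) h⁻¹ i) b)

theorem mf_stp [Countable G] (t n : ℕ) (g : ℕ → X → G) (hg : ∀ k ≤ n, MF (g k)) :
    MF (P.stp t n g) := by
  have hidx : MF (P.idx t n g) :=
    mf_sel _ _ _ (fun i _ => P.ms_Z t i n g (fun k hk => hg k hk.le))
  have hτ : MF (fun x => P.τ t (P.idx t n g x) x) := by
    intro b
    exact ms_dep hidx (fun x i => P.τ t i x = b) (fun i => P.mτ t i b)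
  intro b
  refine ms_dep hτ (fun x p => p * g n (A.act x p) = b) (fun p => ?_)
  have := mf_act A (hg n le_rfl) p (p⁻¹ * b)
  have h2 : {x | p * g n (A.act x p) = b} = {x | g n (A.act x p) = p⁻¹ * b} := by
    ext x; simp [eq_inv_mul_iff_mul_eq]
  rw [h2]; exact this

theorem mf_gf [Countable G] (hδm : ∀ t, MF (δ t)) (t k : ℕ) (h : MF (P.fam (t + 1) k)) :
    MF (P.gf t k) := by
  intro b
  refine ms_dep (hδm t) (fun x d => d * P.fam (t + 1) k (A.act x d) = b) (fun d => ?_)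
  have := mf_act A h d (d⁻¹ * b)
  have h2 : {x | d * P.fam (t + 1) k (A.act x d) = b} =
      {x | P.fam (t + 1) k (A.act x d) = d⁻¹ * b} := by
    ext x; simp [eq_inv_mul_iff_mul_eq]
  rw [h2]; exact this

theorem mf_fam [Countable G] (hδm : ∀ t, MF (δ t)) (n : ℕ) : ∀ t, MF (P.fam t n) := by
  induction n using Nat.strong_induction_on with
  | _ n ih =>
    intro t
    rcases n with _ | n
    · exact mf_const 1
    · have : P.fam t (n + 1) = P.stp t n (P.gf t) := by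
        funext x; exact P.fam_succ t n x
      rw [this]
      exact P.mf_stp t n _ (fun k hk => P.mf_gf hδm t k (ih k (by omega) _))

end SetN

theorem FAN_succ {A : RAct X G} {N : Subgroup G} {J : Gpd A} {D : ℕ} (h : FAN N J D) :
    FAN N J (D + 1) := by
  intro R F
  obtain ⟨T, c, χ, h1, h2, h3, h4, h5, h6⟩ := h R F
  refine ⟨T, fun x => (c x).castSucc, χ, ?_, h2, h3, h4, ?_, ?_⟩
  · intro b
    rcases Fin.eq_castSucc_or_eq_last b with ⟨j, rfl⟩ | rfl
    · have : {x | (c x).castSucc = j.castSucc} = {x | c x = j} := by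
        ext x; simp
      rw [this]; exact h1 j
    · have : {x | (c x).castSucc = Fin.last D} = ∅ := by
        ext x
        simp only [Set.mem_ofPred_eq, Set.mem_empty_iff_false, iff_false]
        exact Fin.castSucc_ne_last _
      rw [this]; exact MeasurableSet.empty
  · intro x r hr hJ hc
    exact h5 x r hr hJ (Fin.castSucc_injective _ hc)
  · intro x ν hν hνN hJν
    obtain ⟨h7, h8⟩ := h6 x ν hν hνN hJν
    exact ⟨congrArg Fin.castSucc h7, h8⟩

end EN

open EN in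
/-- S2 (engine with sheets). -/
theorem engineN [Countable G] {A : RAct X G} (N : Subgroup G) [N.Normal] (J : ℕ → Gpd A)
    (δ : ℕ → X → G) (hδm : ∀ t, MF (δ t)) (hδT : ∀ t, ∃ T : Finset G, ∀ x, δ t x ∈ T)
    (hJN : ∀ t, InvN N (J t))
    (hδJ : ∀ t x s, (J t).rel x s →
      (J (t + 1)).rel (A.act x (δ t x)) ((δ t x)⁻¹ * s * δ t (A.act x s)))
    (hδN : ∀ t x ν, ν ∈ N → (J t).rel x ν → δ t (A.act x ν) = δ t x)
    (hFA : ∀ t, ∃ D, FAN N (J t) D) :
    ∃ w : ℕ → X → G, (∀ m, MF (w m)) ∧ (∀ m, ∃ T : Finset G, ∀ x, w m x ∈ T) ∧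
      ∀ x s, (∃ t, (J t).rel (A.act x (Dl A δ t x))
          ((Dl A δ t x)⁻¹ * s * Dl A δ t (A.act x s))) →
        {m | (w m x)⁻¹ * s * w m (A.act x s) ∉ N}.Finite := by
  choose κ hκ using hFA
  obtain ⟨f, hf⟩ := exists_surjective_nat G
  let S : ℕ → Finset G := fun n => (Finset.range (n + 1)).image f
  have hS : ∀ n m, n ≤ m → f n ∈ S m := by
    intro n m h
    exact Finset.mem_image.2 ⟨n, by simp; omega, rfl⟩
  obtain ⟨P⟩ := EN.exists_setup N J δ hδT hJN κ S (fun t => FAN_succ (hκ t))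
  have hmono : ∀ t t' x s, t ≤ t' → (J t).rel (A.act x (Dl A δ t x))
      ((Dl A δ t x)⁻¹ * s * Dl A δ t (A.act x s)) → (J t').rel (A.act x (Dl A δ t' x))
      ((Dl A δ t' x)⁻¹ * s * Dl A δ t' (A.act x s)) := by
    intro t t' x s h hJ
    induction t', h using Nat.le_induction with
    | base => exact hJ
    | succ t' _ ih =>
      have h2 := hδJ t' _ _ ih
      have e1 : A.act (A.act x (Dl A δ t' x)) ((Dl A δ t' x)⁻¹ * s * Dl A δ t' (A.act x s)) =
          A.act (A.act x s) (Dl A δ t' (A.act x s)) := by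
        rw [A.mul, A.mul]; congr 1; group
      rw [e1] at h2
      have e2 : A.act x (Dl A δ (t' + 1) x) =
          A.act (A.act x (Dl A δ t' x)) (δ t' (A.act x (Dl A δ t' x))) := by
        rw [A.mul]; rfl
      have e3 : (Dl A δ (t' + 1) x)⁻¹ * s * Dl A δ (t' + 1) (A.act x s) =
          (δ t' (A.act x (Dl A δ t' x)))⁻¹ * ((Dl A δ t' x)⁻¹ * s * Dl A δ t' (A.act x s)) *
            δ t' (A.act (A.act x s) (Dl A δ t' (A.act x s))) := by
        show (Dl A δ t' x * δ t' (A.act x (Dl A δ t' x)))⁻¹ * s *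
          (Dl A δ t' (A.act x s) * δ t' (A.act (A.act x s) (Dl A δ t' (A.act x s)))) = _
        group
      rw [e2, e3]
      exact h2
  refine ⟨P.fam 0, fun m => P.mf_fam hδm m 0, ?_, ?_⟩
  · intro m
    refine ⟨P.W m, fun x => ?_⟩
    obtain ⟨w, hw, _, h⟩ := P.unfold_zero hδJ m 0 x
    rw [Nat.add_zero, P.fam_zero, mul_one] at h
    rw [h]; exact hw
  · rintro x s ⟨t0, ht0⟩
    obtain ⟨n0, hn0⟩ := hf s
    set t := max t0 n0 with ht
    have hJ := hmono t0 t x s (le_max_left _ _) ht0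
    have hsS : s ∈ S t := by rw [← hn0]; exact hS _ _ (le_max_right _ _)
    -- the set of bad levels
    have hfin : ∀ y, {n | ∃ r ∈ P.R t, (J t).rel y r ∧
        (P.fam t (n + 1) y)⁻¹ * r * P.fam t (n + 1) (A.act y r) ∉ N}.Finite := by
      intro y
      by_contra hinf
      obtain ⟨F, hF1, hF2⟩ := (show Set.Infinite _ from hinf).exists_subset_card_eq (κ t + 1)
      obtain ⟨M, hM⟩ := F.exists_nat_subset_range
      have hsub : (F : Set ℕ) ⊆ P.cutSet t M y := by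
        intro k hk
        exact ⟨Finset.mem_range.1 (hM hk), hF1 hk⟩
      have h1 := Set.ncard_le_ncard hsub (P.cutSet_finite t M y)
      rw [Set.ncard_coe_finset, hF2] at h1
      have h2 := P.main hJN hδJ hδN M t y
      omega
    have hfin2 : (⋃ w ∈ (P.W t : Set G), {n | ∃ r ∈ P.R t, (J t).rel (A.act x w) r ∧
        (P.fam t (n + 1) (A.act x w))⁻¹ * r * P.fam t (n + 1) (A.act (A.act x w) r) ∉ N}).Finite :=
      (P.W t).finite_toSet.biUnion fun w _ => hfin _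
    refine Set.Finite.subset ((Set.finite_le_nat t).union (hfin2.image (fun n => t + (n + 1)))) ?_
    intro m hm
    by_cases hmt : m ≤ t
    · left; exact hmt
    · right
      obtain ⟨n, rfl⟩ : ∃ n, m = t + (n + 1) := ⟨m - t - 1, by omega⟩
      refine ⟨n, ?_, rfl⟩
      obtain ⟨w, hw, hJw, h⟩ := P.unfold_zero hδJ t (n + 1) x
      obtain ⟨w', hw', hJw', h'⟩ := P.unfold_zero hδJ t (n + 1) (A.act x s)
      rw [Set.mem_iUnion]
      refine ⟨w, ?_⟩
      rw [Set.mem_iUnion]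
      refine ⟨hw, w⁻¹ * s * w', P.RSW t w hw s hsS w' hw', ?_, ?_⟩
      · have h1 : (J t).rel (A.act x w) (w⁻¹ * Dl A δ t x) := by
          have h2 := (J t).inv _ _ hJw
          have e1 : A.act (A.act x (Dl A δ t x)) ((Dl A δ t x)⁻¹ * w) = A.act x w := by
            rw [A.mul]; congr 1; group
          rw [e1] at h2
          have e2 : ((Dl A δ t x)⁻¹ * w)⁻¹ = w⁻¹ * Dl A δ t x := by group
          rwa [e2] at h2
        have h3 : A.act (A.act x w) (w⁻¹ * Dl A δ t x) = A.act x (Dl A δ t x) := by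
          rw [A.mul]; congr 1; group
        have h4 := (J t).mul _ _ _ h1 (by rw [h3]; exact hJ)
        have h5 : A.act (A.act x w)
            (w⁻¹ * Dl A δ t x * ((Dl A δ t x)⁻¹ * s * Dl A δ t (A.act x s))) =
            A.act (A.act x s) (Dl A δ t (A.act x s)) := by
          rw [A.mul, A.mul]; congr 1; group
        have h6 := (J t).mul _ _ _ h4 (by rw [h5]; exact hJw')
        have e3 : w⁻¹ * Dl A δ t x * ((Dl A δ t x)⁻¹ * s * Dl A δ t (A.act x s)) *
            ((Dl A δ t (A.act x s))⁻¹ * w') = w⁻¹ * s * w' := by group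
        rwa [e3] at h6
      · intro hcon
        apply hm
        have e4 : A.act (A.act x w) (w⁻¹ * s * w') = A.act (A.act x s) w' := by
          rw [A.mul, A.mul]; congr 1; group
        rw [e4] at hcon
        rw [h, h']
        have e5 : (w * P.fam t (n + 1) (A.act x w))⁻¹ * s *
            (w' * P.fam t (n + 1) (A.act (A.act x s) w')) =
            (P.fam t (n + 1) (A.act x w))⁻¹ * (w⁻¹ * s * w') *
              P.fam t (n + 1) (A.act (A.act x s) w') := by group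
        rw [e5]
        exact hcon

end Pool.Agent.Helper44.Sub
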